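import Mathlib

set_option autoImplicit false
set_option linter.unusedSectionVars false

open Set Topology MeasureTheory

namespace Pool.Agent.H51.Carpet

/-- the d-bar derivative -/
noncomputable def dbar (φ : ℂ → ℂ) (z : ℂ) : ℂ :=
  (1 / 2 : ℂ) * (fderiv ℝ φ z 1 + Complex.I * fderiv ℝ φ z Complex.I)

/-- Cauchy kernel -/
noncomputable def ker (z : ℂ) : ℂ := (Real.pi * z)⁻¹

lemma integrableOn_ker (R : ℝ) : IntegrableOn ker (Metric.ball (0 : ℂ) R) volume := by
  have h1 : IntegrableOn (fun x : ℂ => (fun y : ℝ => y⁻¹) ‖x‖) (Metric.ball (0 : ℂ) R) volume := by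
    rw [integrableOn_fun_norm_addHaar volume (f := fun y : ℝ => y⁻¹)]
    have h2 : IntegrableOn (fun _ : ℝ => (1 : ℝ)) (Ioo 0 R) volume := by
      refine integrableOn_const (by simp) (by simp)
    refine h2.congr_fun ?_ measurableSet_Ioo
    intro y hy
    have : y ≠ 0 := hy.1.ne'
    simp [Complex.finrank_real_complex, this]
  have h3 : IntegrableOn (fun x : ℂ => Real.pi⁻¹ * ‖x‖⁻¹) (Metric.ball (0 : ℂ) R) volume :=
    h1.const_mul _
  refine Integrable.mono' h3 ?_ ?_
  · have : Measurable ker := by unfold ker; fun_prop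
    exact this.aestronglyMeasurable
  · refine Filter.Eventually.of_forall fun x => ?_
    simp only [ker, norm_inv, norm_mul, Complex.norm_real, Real.norm_eq_abs,
      abs_of_pos Real.pi_pos, mul_inv]
    exact le_rfl

lemma locallyIntegrable_ker : LocallyIntegrable ker volume := by
  intro x
  refine ⟨Metric.ball 0 (‖x‖ + 1), ?_, integrableOn_ker _⟩
  exact Metric.isOpen_ball.mem_nhds (by simp)

/-- the radial part -/
lemma integral_radial (g : ℂ → ℂ) (hg : ContDiff ℝ 1 g) (hgc : HasCompactSupport g) (θ : ℝ) :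
    ∫ r in Ioi (0 : ℝ), fderiv ℝ g (r * Complex.exp (θ * Complex.I)) (Complex.exp (θ * Complex.I))
      = -g 0 := by
  set e := Complex.exp (θ * Complex.I) with he
  have hd : ∀ r : ℝ, HasDerivAt (fun r : ℝ => g (r * e)) (fderiv ℝ g (r * e) e) r := by
    intro r
    have h1 : HasDerivAt (fun r : ℝ => (r : ℂ) * e) e r := by
      simpa using (Complex.ofRealCLM.hasDerivAt (x := r)).mul_const e
    have h2 : HasFDerivAt g (fderiv ℝ g (r * e)) (r * e) :=
      (hg.differentiable (by norm_num) _).hasFDerivAt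
    exact h2.comp_hasDerivAt r h1
  have hnorm : ‖e‖ = 1 := by rw [he]; exact Complex.norm_exp_ofReal_mul_I θ
  obtain ⟨R, hR⟩ : ∃ R : ℝ, ∀ z : ℂ, R < ‖z‖ → g z = 0 := by
    obtain ⟨R, hR⟩ := hgc.isCompact.isBounded.subset_closedBall (0 : ℂ)
    refine ⟨R, fun z hz => ?_⟩
    by_contra h
    have := hR (subset_tsupport g h)
    rw [mem_closedBall_zero_iff] at this
    linarith
  have hcs : HasCompactSupport (fun r : ℝ => g (r * e)) := by
    refine HasCompactSupport.intro (isCompact_closedBall (0 : ℝ) R) fun r hr => ?_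
    apply hR
    rw [norm_mul, hnorm, mul_one, Complex.norm_real]
    simpa using hr
  have hcont : Continuous fun r : ℝ => fderiv ℝ g (r * e) e := by
    have := hg.continuous_fderiv (by norm_num)
    fun_prop
  have hcs' : HasCompactSupport (fun r : ℝ => fderiv ℝ g (r * e) e) := by
    have h3 : (fun r : ℝ => fderiv ℝ g (r * e) e) = deriv (fun r : ℝ => g (r * e)) := by
      ext r; exact (hd r).deriv.symm
    rw [h3]
    exact hcs.deriv
  have := integral_Ioi_of_hasDerivAt_of_tendsto (a := (0 : ℝ)) (f := fun r : ℝ => g (r * e))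
    (f' := fun r : ℝ => fderiv ℝ g (r * e) e) (m := 0)
    ((hd 0).continuousAt.continuousWithinAt) (fun r _ => hd r)
    (hcont.integrable_of_hasCompactSupport hcs').integrableOn ?_
  · rw [this]; simp
  · refine (tendsto_const_nhds (x := (0 : ℂ))).congr' ?_
    filter_upwards [Filter.eventually_gt_atTop (max R 0)] with r hr
    symm
    apply hR
    rw [norm_mul, hnorm, mul_one, Complex.norm_real, Real.norm_eq_abs]
    exact lt_of_lt_of_le ((le_max_left _ _).trans_lt hr) (le_abs_self r)

/-- the angular part -/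
lemma integral_angular (g : ℂ → ℂ) (hg : ContDiff ℝ 1 g) (r : ℝ) (hr : r ≠ 0) :
    ∫ θ in Ioo (-Real.pi) Real.pi, fderiv ℝ g (r * Complex.exp (θ * Complex.I))
      (Complex.I * Complex.exp (θ * Complex.I)) = 0 := by
  have hd : ∀ θ : ℝ, HasDerivAt (fun θ : ℝ => g (r * Complex.exp (θ * Complex.I)))
      (fderiv ℝ g (r * Complex.exp (θ * Complex.I)) (r * (Complex.I * Complex.exp (θ * Complex.I)))) θ := by
    intro θ
    have h1 : HasDerivAt (fun θ : ℝ => (r : ℂ) * Complex.exp (θ * Complex.I))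
        (r * (Complex.I * Complex.exp (θ * Complex.I))) θ := by
      have h0 : HasDerivAt (fun θ : ℝ => (θ : ℂ) * Complex.I) Complex.I θ := by
        simpa using (Complex.ofRealCLM.hasDerivAt (x := θ)).mul_const Complex.I
      have := (h0.cexp).const_mul (r : ℂ)
      rw [mul_comm Complex.I]
      exact this
    have h2 : HasFDerivAt g (fderiv ℝ g (r * Complex.exp (θ * Complex.I)))
        (r * Complex.exp (θ * Complex.I)) :=
      (hg.differentiable (by norm_num) _).hasFDerivAt
    exact h2.comp_hasDerivAt θ h1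
  have hcont : Continuous fun θ : ℝ => fderiv ℝ g (r * Complex.exp (θ * Complex.I))
      (r * (Complex.I * Complex.exp (θ * Complex.I))) := by
    have := hg.continuous_fderiv (by norm_num)
    fun_prop
  have h3 := intervalIntegral.integral_eq_sub_of_hasDerivAt (a := -Real.pi) (b := Real.pi)
    (fun θ _ => hd θ) (hcont.intervalIntegrable _ _)
  have h4 : Complex.exp (((Real.pi : ℝ) : ℂ) * Complex.I)
      = Complex.exp (((-Real.pi : ℝ) : ℂ) * Complex.I) := by
    push_cast
    rw [Complex.exp_pi_mul_I, neg_mul, Complex.exp_neg, Complex.exp_pi_mul_I]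
    norm_num
  rw [h4, sub_self, intervalIntegral.integral_of_le (by linarith [Real.pi_pos]),
    integral_Ioc_eq_integral_Ioo] at h3
  have h5 : ∀ θ : ℝ, fderiv ℝ g (r * Complex.exp (θ * Complex.I))
      (r * (Complex.I * Complex.exp (θ * Complex.I)))
      = r • fderiv ℝ g (r * Complex.exp (θ * Complex.I)) (Complex.I * Complex.exp (θ * Complex.I)) := by
    intro θ
    rw [← map_smul]
    congr 1
  simp only [h5] at h3
  rw [integral_smul] at h3
  exact (smul_eq_zero.mp h3).resolve_left hr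

/-- directional form of dbar -/
lemma dbar_dir (g : ℂ → ℂ) (z : ℂ) (θ : ℝ) :
    dbar g z * Complex.exp (-(θ * Complex.I)) = (1 / 2 : ℂ) *
      (fderiv ℝ g z (Complex.exp (θ * Complex.I)) +
        Complex.I * fderiv ℝ g z (Complex.I * Complex.exp (θ * Complex.I))) := by
  set L := fderiv ℝ g z
  have hL : ∀ a b : ℝ, L ((a : ℂ) + b * Complex.I) = a * L 1 + b * L Complex.I := by
    intro a b
    have e : (a : ℂ) + b * Complex.I = a • (1 : ℂ) + b • Complex.I := by
      simp
    rw [e, map_add, map_smul, map_smul]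
    simp
  have e1 : Complex.exp (θ * Complex.I) = (Real.cos θ : ℂ) + (Real.sin θ : ℝ) * Complex.I := by
    rw [Complex.exp_mul_I]; simp
  have e2 : Complex.I * Complex.exp (θ * Complex.I)
      = ((-Real.sin θ : ℝ) : ℂ) + (Real.cos θ : ℝ) * Complex.I := by
    rw [e1]
    push_cast
    linear_combination (Complex.sin θ) * Complex.I_mul_I
  have e3 : Complex.exp (-(θ * Complex.I)) = (Real.cos θ : ℂ) - (Real.sin θ : ℝ) * Complex.I := by
    have : -((θ : ℂ) * Complex.I) = ((-θ : ℝ) : ℂ) * Complex.I := by push_cast; ring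
    rw [this, Complex.exp_mul_I]
    simp
    ring
  rw [e2, hL, e1, hL, e3]
  simp only [dbar]
  push_cast
  linear_combination ((-1 / 2 : ℂ) * Complex.sin θ * L 1 * 0 + (-1 / 2 : ℂ) * Complex.sin θ * (L Complex.I)) * Complex.I_mul_I

/-- the fundamental solution identity at the origin -/
lemma integral_dbar_ker (g : ℂ → ℂ) (hg : ContDiff ℝ 1 g) (hgc : HasCompactSupport g) :
    ∫ z, ker z * dbar g z = -g 0 := by
  obtain ⟨R, hRpos, hR⟩ : ∃ R : ℝ, 0 < R ∧ ∀ z : ℂ, R < ‖z‖ → fderiv ℝ g z = 0 := by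
    obtain ⟨R, hR⟩ := hgc.isCompact.isBounded.subset_closedBall (0 : ℂ)
    refine ⟨max R 1, by positivity, fun z hz => ?_⟩
    by_contra h
    have h1 : z ∈ tsupport g := support_fderiv_subset ℝ h
    have := hR h1
    rw [mem_closedBall_zero_iff] at this
    have := le_max_left R 1
    linarith
  rw [← Complex.integral_comp_polarCoord_symm]
  have htgt : polarCoord.target = Ioi (0 : ℝ) ×ˢ Ioo (-Real.pi) Real.pi := rfl
  rw [htgt]
  let D : ℝ × ℝ → ℂ := fun p => fderiv ℝ g (p.1 * Complex.exp (p.2 * Complex.I))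
    (Complex.exp (p.2 * Complex.I))
  let A : ℝ × ℝ → ℂ := fun p => fderiv ℝ g (p.1 * Complex.exp (p.2 * Complex.I))
    (Complex.I * Complex.exp (p.2 * Complex.I))
  have hgf := hg.continuous_fderiv (by norm_num)
  have hDc : Continuous D := by simp only [D]; fun_prop
  have hAc : Continuous A := by simp only [A]; fun_prop
  have hint : ∀ F : ℝ × ℝ → ℂ, Continuous F → (∀ p : ℝ × ℝ, R < |p.1| → F p = 0) →
      IntegrableOn F (Ioi 0 ×ˢ Ioo (-Real.pi) Real.pi) (volume.prod volume) := by
    intro F hF hF0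
    have h1 : IntegrableOn F (Icc (-R) R ×ˢ Icc (-Real.pi) Real.pi) (volume.prod volume) :=
      (hF.continuousOn).integrableOn_compact (isCompact_Icc.prod isCompact_Icc)
    have h2 : IntegrableOn F ((Ioi 0 \ Icc (-R) R) ×ˢ Ioo (-Real.pi) Real.pi)
        (volume.prod volume) := by
      refine integrableOn_zero.congr_fun ?_ (by measurability)
      rintro ⟨r, θ⟩ ⟨⟨h3, h4⟩, -⟩
      symm
      apply hF0
      simp only [mem_Icc, not_and_or, not_le] at h4
      simp only [mem_Ioi] at h3
      rcases h4 with h4 | h4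
      · linarith
      · exact lt_of_lt_of_le h4 (le_abs_self r)
    refine (h1.union h2).mono_set ?_
    rintro ⟨r, θ⟩ ⟨h3, h4⟩
    by_cases h5 : r ∈ Icc (-R) R
    · left; exact ⟨h5, Ioo_subset_Icc_self h4⟩
    · right; exact ⟨⟨h3, h5⟩, h4⟩
  have hD0 : ∀ p : ℝ × ℝ, R < |p.1| → D p = 0 := by
    intro p hp
    simp only [D]
    rw [hR]
    · simp
    · rw [norm_mul, Complex.norm_exp_ofReal_mul_I, mul_one, Complex.norm_real]
      exact hp
  have hA0 : ∀ p : ℝ × ℝ, R < |p.1| → A p = 0 := by
    intro p hp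
    simp only [A]
    rw [hR]
    · simp
    · rw [norm_mul, Complex.norm_exp_ofReal_mul_I, mul_one, Complex.norm_real]
      exact hp
  have hDi := hint D hDc hD0
  have hAi := hint A hAc hA0
  have e1 : ∫ p in Ioi (0 : ℝ) ×ˢ Ioo (-Real.pi) Real.pi,
      p.1 • (ker (Complex.polarCoord.symm p) * dbar g (Complex.polarCoord.symm p))
      = ∫ p in Ioi (0 : ℝ) ×ˢ Ioo (-Real.pi) Real.pi,
        ((2 * Real.pi : ℝ) : ℂ)⁻¹ * (D p + Complex.I * A p) := by
    refine setIntegral_congr_fun (by measurability) ?_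
    rintro ⟨r, θ⟩ ⟨hr, -⟩
    simp only [mem_Ioi] at hr
    have hpc : Complex.polarCoord.symm (r, θ) = r * Complex.exp (θ * Complex.I) := by
      rw [Complex.polarCoord_symm_apply, Complex.exp_mul_I]
      simp
    simp only [hpc, D, A]
    have h1 := dbar_dir g (r * Complex.exp (θ * Complex.I)) θ
    rw [Complex.exp_neg] at h1
    have hr' : (r : ℂ) ≠ 0 := by exact_mod_cast hr.ne'
    have hπ : (Real.pi : ℂ) ≠ 0 := by exact_mod_cast Real.pi_ne_zero
    have hexp := Complex.exp_ne_zero (θ * Complex.I)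
    have h2 : r • (ker (r * Complex.exp (θ * Complex.I)) * dbar g (r * Complex.exp (θ * Complex.I)))
        = (Real.pi : ℂ)⁻¹ * (dbar g (r * Complex.exp (θ * Complex.I)) * (Complex.exp (θ * Complex.I))⁻¹) := by
      simp only [ker, Complex.real_smul]
      field_simp
    rw [h2, h1]
    push_cast
    field_simp
  rw [e1]
  have e2 : ∫ p in Ioi (0 : ℝ) ×ˢ Ioo (-Real.pi) Real.pi, D p = -((2 * Real.pi : ℝ) : ℂ) * g 0 := by
    rw [Measure.volume_eq_prod, ← setIntegral_prod_swap, setIntegral_prod]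
    · simp only [Prod.swap, D]
      rw [setIntegral_congr_fun (g := fun _ => -g 0) measurableSet_Ioo
        (fun θ _ => integral_radial g hg hgc θ)]
      rw [setIntegral_const]
      simp
      left
      rw [max_eq_left (by positivity)]
      push_cast
      ring
    · exact hDi.swap
  have e3 : ∫ p in Ioi (0 : ℝ) ×ˢ Ioo (-Real.pi) Real.pi, A p = 0 := by
    rw [Measure.volume_eq_prod, setIntegral_prod _ hAi]
    rw [setIntegral_congr_fun (g := fun _ => (0 : ℂ)) measurableSet_Ioi
        (fun r hr => integral_angular g hg r (ne_of_gt hr))]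
    simp
  rw [integral_const_mul, integral_add, integral_const_mul, e2, e3]
  · have hπ : (Real.pi : ℂ) ≠ 0 := by exact_mod_cast Real.pi_ne_zero
    push_cast
    field_simp
    ring
  · exact hDi
  · exact hAi.const_mul _

lemma continuous_dbar {g : ℂ → ℂ} (hg : ContDiff ℝ 1 g) : Continuous (dbar g) := by
  have := hg.continuous_fderiv (by norm_num)
  unfold dbar
  fun_prop

/-- solution of the d-bar equation with compactly supported data -/
lemma exists_solution (η : ℂ → ℂ) (hη : ContDiff ℝ 1 η) (hηc : HasCompactSupport η) :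
    ∃ ψ : ℂ → ℂ, ContDiff ℝ 1 ψ ∧ (∀ z, dbar ψ z = η z) ∧
      ∀ z, ψ z = ∫ t, ker t * η (z - t) := by
  let L := ContinuousLinearMap.mul ℝ ℂ
  let ψ : ℂ → ℂ := convolution ker η L volume
  have hψ : ContDiff ℝ 1 ψ := by
    have := hηc.contDiff_convolution_right (n := 1) L locallyIntegrable_ker (by exact_mod_cast hη)
    exact_mod_cast this
  have hψz : ∀ z, ψ z = ∫ t, ker t * η (z - t) := fun z => rfl
  refine ⟨ψ, hψ, fun z => ?_, hψz⟩
  have hd := hηc.hasFDerivAt_convolution_right L locallyIntegrable_ker hη z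
  have hder : ∀ h : ℂ, fderiv ℝ ψ z h = ∫ t, ker t * fderiv ℝ η (z - t) h := by
    intro h
    rw [hd.fderiv]
    have := convolution_precompR_apply (μ := volume) L locallyIntegrable_ker (hηc.fderiv ℝ)
      (hη.continuous_fderiv (by norm_num)) z h
    rw [this]
    rfl
  have hfc := hη.continuous_fderiv (by norm_num)
  have hint : ∀ h : ℂ, Integrable (fun t => ker t * fderiv ℝ η (z - t) h) := by
    intro h
    have hc : HasCompactSupport (fun t => fderiv ℝ η t h) := by
      have := (hηc.fderiv ℝ).comp_left (g := fun T : ℂ →L[ℝ] ℂ => T h) (by simp)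
      exact this
    have := hc.convolutionExists_right L locallyIntegrable_ker (by fun_prop : Continuous fun t => fderiv ℝ η t h) z
    exact this
  -- the shifted function
  let g : ℂ → ℂ := fun t => η (z - t)
  have hg : ContDiff ℝ 1 g := hη.comp (contDiff_const.sub contDiff_id)
  have hgc : HasCompactSupport g := by
    have := hηc.comp_homeomorph (Homeomorph.subLeft z)
    exact this
  have hgd : ∀ t h, fderiv ℝ g t h = -fderiv ℝ η (z - t) h := by
    intro t h
    have h1 : HasFDerivAt η (fderiv ℝ η (z - t)) (z - t) :=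
      (hη.differentiable (by norm_num) _).hasFDerivAt
    have h2 : HasFDerivAt (fun t : ℂ => z - t) (-ContinuousLinearMap.id ℝ ℂ) t := by
      simpa using (hasFDerivAt_id (𝕜 := ℝ) t).const_sub z
    have h3 : HasFDerivAt g ((fderiv ℝ η (z - t)).comp (-ContinuousLinearMap.id ℝ ℂ)) t :=
      h1.comp t h2
    rw [h3.fderiv]
    simp
  have hdbar : ∀ t, dbar g t = -dbar η (z - t) := by
    intro t
    simp only [dbar, hgd]
    ring
  have key := integral_dbar_ker g hg hgc
  have e : dbar ψ z = ∫ t, ker t * dbar η (z - t) := by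
    simp only [dbar]
    rw [hder, hder, ← integral_const_mul, ← integral_add (hint _) ((hint _).const_mul _),
      ← integral_const_mul]
    congr 1
    ext t
    ring
  rw [e]
  simp only [hdbar, mul_neg, integral_neg] at key
  have : g 0 = η z := by simp [g]
  rw [this] at key
  exact neg_injective key

/-- solving the d-bar equation on a compact set with uniform bounds -/
lemma solve {K : Set ℂ} (hK : IsCompact K) : ∃ C > (0 : ℝ), ∀ φ : ℂ → ℂ, ContDiff ℝ 1 φ →
    ∀ M > (0 : ℝ), (∀ z ∈ K, ‖φ z‖ < M) → ∃ ψ : ℂ → ℂ, ContDiff ℝ 1 ψ ∧ (∀ z ∈ K, dbar ψ z = φ z) ∧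
      ∀ z ∈ K, ‖ψ z‖ ≤ C * M := by
  obtain ⟨R, hR⟩ := hK.isBounded.subset_ball (0 : ℂ)
  have hCnn : (0 : ℝ) ≤ ∫ t in Metric.ball (0 : ℂ) (2 * R), ‖ker t‖ :=
    integral_nonneg fun _ => norm_nonneg _
  refine ⟨(∫ t in Metric.ball (0 : ℂ) (2 * R), ‖ker t‖) + 1, by positivity, ?_⟩
  intro φ hφ M hM hφM
  let U : Set ℂ := Metric.ball 0 R ∩ {z | ‖φ z‖ < M}
  have hU : IsOpen U := Metric.isOpen_ball.inter (isOpen_lt hφ.continuous.norm continuous_const)
  obtain ⟨κ, hκ, hκr, hκ0, hκ1⟩ := exists_contMDiff_zero_iff_one_iff_of_isClosed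
    (modelWithCornersSelf ℝ ℂ) (n := 1) (s := Uᶜ) (t := K) hU.isClosed_compl hK.isClosed (by
      rw [disjoint_comm, disjoint_compl_right_iff_subset]
      exact fun z hz => ⟨hR hz, hφM z hz⟩)
  have hκ' : ContDiff ℝ 1 κ := hκ.contDiff
  let η : ℂ → ℂ := fun z => (κ z : ℂ) * φ z
  have hη : ContDiff ℝ 1 η := by
    have : ContDiff ℝ 1 (fun z => ((κ z : ℝ) : ℂ)) := Complex.ofRealCLM.contDiff.comp hκ'
    exact this.mul hφ
  have hη0 : ∀ z, z ∉ U → η z = 0 := by
    intro z hz
    have := (hκ0 z).mp hz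
    simp [η, this]
  have hηc : HasCompactSupport η := by
    refine HasCompactSupport.intro (isCompact_closedBall (0 : ℂ) R) fun z hz => ?_
    exact hη0 z fun hzU => hz (Metric.ball_subset_closedBall hzU.1)
  have hηM : ∀ z, ‖η z‖ ≤ M := by
    intro z
    by_cases hz : z ∈ U
    · have h1 : κ z ∈ Icc (0 : ℝ) 1 := hκr (mem_range_self z)
      simp only [η, norm_mul, Complex.norm_real, Real.norm_eq_abs, abs_of_nonneg h1.1]
      have h2 : ‖φ z‖ < M := hz.2
      nlinarith [h1.1, h1.2, norm_nonneg (φ z)]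
    · rw [hη0 z hz]; simpa using hM.le
  obtain ⟨ψ, hψ, hψd, hψi⟩ := exists_solution η hη hηc
  refine ⟨ψ, hψ, fun z hz => ?_, fun z hz => ?_⟩
  · rw [hψd]
    simp [η, (hκ1 z).mp hz]
  · rw [hψi]
    have hzR : ‖z‖ < R := by simpa using hR hz
    have hsupp : ∀ t, t ∉ Metric.ball (0 : ℂ) (2 * R) → ker t * η (z - t) = 0 := by
      intro t ht
      rw [hη0 (z - t), mul_zero]
      intro hU'
      apply ht
      have h1 : ‖z - t‖ < R := by simpa using hU'.1
      rw [mem_ball_zero_iff]
      calc ‖t‖ = ‖z - (z - t)‖ := by congr 1; ring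
        _ ≤ ‖z‖ + ‖z - t‖ := norm_sub_le _ _
        _ < 2 * R := by linarith
    rw [← setIntegral_eq_integral_of_forall_compl_eq_zero hsupp]
    calc ‖∫ t in Metric.ball (0 : ℂ) (2 * R), ker t * η (z - t)‖
        ≤ ∫ t in Metric.ball (0 : ℂ) (2 * R), ‖ker t‖ * M := by
          refine norm_integral_le_of_norm_le ((integrableOn_ker _).norm.mul_const M) ?_
          refine Filter.Eventually.of_forall fun t => ?_
          rw [norm_mul]
          exact mul_le_mul_of_nonneg_left (hηM _) (norm_nonneg _)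
      _ = (∫ t in Metric.ball (0 : ℂ) (2 * R), ‖ker t‖) * M := by rw [integral_mul_const]
      _ ≤ _ := by
        refine mul_le_mul_of_nonneg_right (by linarith) hM.le

end Pool.Agent.H51.Carpet
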