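import Mathlib

set_option autoImplicit false

open Set Topology

namespace Pool.Agent.H51.Carpet

variable {X : Type*} [TopologicalSpace X] [CompactSpace X]

/-- A closed algebra of pairs `(u, v)` where `v` plays the role of the d-bar derivative of `u`. -/
structure Good (Γ : Set (C(X, ℂ) × C(X, ℂ))) : Prop where
  closed : IsClosed Γ
  add : ∀ p ∈ Γ, ∀ q ∈ Γ, p + q ∈ Γ
  const : ∀ c : ℂ, (algebraMap ℂ C(X, ℂ) c, (0 : C(X, ℂ))) ∈ Γ
  mul : ∀ u v u' v', (u, v) ∈ Γ → (u', v') ∈ Γ → (u * u', u * v' + u' * v) ∈ Γ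
  surj : ∀ w, ∃ u, (u, w) ∈ Γ
  inv : ∀ u v, (u, v) ∈ Γ → (∀ x, u x ≠ 0) → ∃ u', u * u' = 1 ∧ (u', -(u' * u' * v)) ∈ Γ
  dense : ∀ g : C(X, ℂ), ∀ ε > (0 : ℝ), ∃ u v, (u, v) ∈ Γ ∧ ‖u - g‖ < ε
  invdense : Dense {u : C(X, ℂ) | ∀ x, u x ≠ 0}
  sep : ∀ x y : X, x ≠ y → ∃ u : C(X, ℂ), (u, (0 : C(X, ℂ))) ∈ Γ ∧ u x ≠ u y

lemma exists_pos_le_norm (g : C(X, ℂ)) (hg : ∀ x, g x ≠ 0) : ∃ δ > (0 : ℝ), ∀ x, δ ≤ ‖g x‖ := by
  rcases isEmpty_or_nonempty X with hX | hX
  · exact ⟨1, one_pos, fun x => (hX.false x).elim⟩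
  · obtain ⟨x₀, -, hx₀⟩ := isCompact_univ.exists_isMinOn (univ_nonempty (α := X))
      (f := fun x => ‖g x‖) (by fun_prop)
    exact ⟨‖g x₀‖, norm_pos_iff.mpr (hg x₀), fun x => hx₀ (mem_univ x)⟩

namespace Good

variable {Γ : Set (C(X, ℂ) × C(X, ℂ))}

lemma smul (h : Good Γ) (c : ℂ) {u v : C(X, ℂ)} (huv : (u, v) ∈ Γ) : (c • u, c • v) ∈ Γ := by
  have := h.mul _ _ _ _ (h.const c) huv
  simpa [Algebra.smul_def] using this

lemma zero (h : Good Γ) : ((0 : C(X, ℂ)), (0 : C(X, ℂ))) ∈ Γ := by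
  simpa using h.const 0

lemma one (h : Good Γ) : ((1 : C(X, ℂ)), (0 : C(X, ℂ))) ∈ Γ := by
  simpa using h.const 1

lemma neg (h : Good Γ) {u v : C(X, ℂ)} (huv : (u, v) ∈ Γ) : (-u, -v) ∈ Γ := by
  simpa using h.smul (-1) huv

lemma add' (h : Good Γ) {u v u' v' : C(X, ℂ)} (huv : (u, v) ∈ Γ) (huv' : (u', v') ∈ Γ) :
    (u + u', v + v') ∈ Γ := h.add _ huv _ huv'

lemma sub' (h : Good Γ) {u v u' v' : C(X, ℂ)} (huv : (u, v) ∈ Γ) (huv' : (u', v') ∈ Γ) :
    (u - u', v - v') ∈ Γ := by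
  simpa [sub_eq_add_neg] using h.add' huv (h.neg huv')

lemma sum (h : Good Γ) {ι : Type*} (s : Finset ι) (u v : ι → C(X, ℂ))
    (huv : ∀ i ∈ s, (u i, v i) ∈ Γ) : (∑ i ∈ s, u i, ∑ i ∈ s, v i) ∈ Γ := by
  classical
  induction s using Finset.induction_on with
  | empty => simpa using h.zero
  | insert a s ha ih =>
    rw [Finset.sum_insert ha, Finset.sum_insert ha]
    exact h.add' (huv a (Finset.mem_insert_self a s))
      (ih fun i hi => huv i (Finset.mem_insert_of_mem hi))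

lemma pow (h : Good Γ) {u v : C(X, ℂ)} (huv : (u, v) ∈ Γ) (n : ℕ) :
    (u ^ (n + 1), ((n + 1 : ℕ) : ℂ) • (u ^ n * v)) ∈ Γ := by
  induction n with
  | zero => simpa using huv
  | succ n ih =>
    have := h.mul _ _ _ _ ih huv
    convert this using 2
    · ring
    · simp only [Nat.cast_add, Nat.cast_one, add_smul, one_smul, mul_smul_comm, mul_add]
      have : u * (u ^ n * v) = u ^ (n + 1) * v := by ring
      rw [this]; abel

/-- closedness under the exponential -/
lemma exp (h : Good Γ) {u v : C(X, ℂ)} (huv : (u, v) ∈ Γ) :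
    (NormedSpace.exp u, NormedSpace.exp u * v) ∈ Γ := by
  have h1 : HasSum (fun n : ℕ => ((n.factorial : ℂ)⁻¹) • u ^ n) (NormedSpace.exp u) :=
    NormedSpace.exp_series_hasSum_exp' (𝕂 := ℂ) u
  have h2 : HasSum (fun n : ℕ => ((n.factorial : ℂ)⁻¹) • (u ^ n * v)) (NormedSpace.exp u * v) := by
    have := h1.mul_right v
    simpa [smul_mul_assoc] using this
  let F : ℕ → C(X, ℂ) × C(X, ℂ) := fun n => Nat.casesOn n (1, 0)
    (fun n => (((n + 1).factorial : ℂ)⁻¹ • u ^ (n + 1), ((n.factorial : ℂ)⁻¹) • (u ^ n * v)))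
  have hF : ∀ n, F n ∈ Γ := by
    intro n
    cases n with
    | zero => exact h.one
    | succ n =>
      have := h.smul (((n + 1).factorial : ℂ)⁻¹) (h.pow huv n)
      simp only [F]
      convert this using 2
      rw [smul_smul]
      congr 1
      rw [Nat.factorial_succ]
      push_cast
      have h3 : ((n : ℂ) + 1) ≠ 0 := by exact_mod_cast Nat.succ_ne_zero n
      have h4 : ((n.factorial : ℂ)) ≠ 0 := by exact_mod_cast Nat.factorial_ne_zero n
      field_simp
  have hs : HasSum F (NormedSpace.exp u, NormedSpace.exp u * v) := by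
    have e1 : HasSum (fun n => (F n).1) (NormedSpace.exp u) := by
      convert h1 using 2 with n
      cases n <;> simp [F]
    have e2 : HasSum (fun n => (F n).2) (NormedSpace.exp u * v) := by
      rw [← hasSum_nat_add_iff' 1]
      simpa [F] using h2
    exact e1.prodMk e2
  refine h.closed.mem_of_tendsto hs (Filter.Eventually.of_forall fun s => ?_)
  have := h.sum s (fun i => (F i).1) (fun i => (F i).2) (fun i _ => hF i)
  have e : ∑ b ∈ s, F b = (∑ i ∈ s, (F i).1, ∑ i ∈ s, (F i).2) := by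
    ext1
    · rw [Prod.fst_sum]
    · rw [Prod.snd_sum]
  rw [e]
  exact this

lemma exp_apply (u : C(X, ℂ)) (x : X) : (NormedSpace.exp u : C(X, ℂ)) x = Complex.exp (u x) := by
  have := NormedSpace.map_exp (ContinuousMap.evalAlgHom ℂ ℂ x) (by
    change Continuous fun f : C(X, ℂ) => f x
    exact continuous_eval_const x) u
  rw [Complex.exp_eq_exp_ℂ]
  simpa using this

/-- Arens-Royden type factorization -/
lemma factor (h : Good Γ) (g : C(X, ℂ)) (hg : ∀ x, g x ≠ 0) :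
    ∃ f k : C(X, ℂ), (f, (0 : C(X, ℂ))) ∈ Γ ∧ (∀ x, f x ≠ 0) ∧
      ∀ x, g x = f x * Complex.exp (k x) := by
  obtain ⟨δ, hδ, hδg⟩ := exists_pos_le_norm g hg
  obtain ⟨u, v, huv, hug⟩ := h.dense g (δ / 2) (by positivity)
  have hux : ∀ x, ‖u x - g x‖ < δ / 2 := fun x =>
    lt_of_le_of_lt (ContinuousMap.norm_coe_le_norm (u - g) x) hug
  have hu_lt : ∀ x, δ / 2 < ‖u x‖ := by
    intro x
    have h1 := norm_sub_norm_le (g x) (u x)
    rw [norm_sub_rev] at h1
    have h2 := hδg x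
    have h3 := hux x
    linarith
  have hu0 : ∀ x, u x ≠ 0 := fun x => norm_pos_iff.mp (by have := hu_lt x; linarith)
  have hslit : ∀ x, g x / u x ∈ Complex.slitPlane := by
    intro x
    have h0 : ‖g x / u x - 1‖ < 1 := by
      have : g x / u x - 1 = (g x - u x) / u x := by
        field_simp [hu0 x]
      rw [this, norm_div, div_lt_one (by have := hu_lt x; linarith), norm_sub_rev]
      exact (hux x).trans (hu_lt x)
    have h1 := Complex.mem_slitPlane_of_norm_lt_one h0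
    simpa using h1
  obtain ⟨u', huu', hu'⟩ := h.inv u v huv hu0
  obtain ⟨k, hk⟩ := h.surj (u' * v)
  let s : C(X, ℂ) := ⟨fun x => Complex.log (g x / u x), by
    refine Continuous.clog ?_ hslit
    exact g.continuous.div u.continuous hu0⟩
  have h1 := h.exp (h.neg hk)
  have h2 := h.mul _ _ _ _ huv h1
  have huu'x : ∀ x, u x * u' x = 1 := fun x => by
    have := congrArg (fun w : C(X, ℂ) => w x) huu'
    simpa using this
  have h3 : u * (NormedSpace.exp (-k) * -(u' * v)) + NormedSpace.exp (-k) * v = 0 := by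
    ext x
    simp only [ContinuousMap.add_apply, ContinuousMap.mul_apply, ContinuousMap.neg_apply,
      ContinuousMap.zero_apply]
    linear_combination (-(NormedSpace.exp (-k) : C(X, ℂ)) x * v x) * huu'x x
  rw [h3] at h2
  refine ⟨_, k + s, h2, ?_, ?_⟩
  · intro x
    rw [ContinuousMap.mul_apply, exp_apply]
    exact mul_ne_zero (hu0 x) (Complex.exp_ne_zero _)
  · intro x
    rw [ContinuousMap.mul_apply, exp_apply, ContinuousMap.add_apply, ContinuousMap.neg_apply,
      mul_assoc, ← Complex.exp_add]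
    have : -k x + (k x + s x) = s x := by ring
    rw [this]
    simp only [s, ContinuousMap.coe_mk]
    rw [Complex.exp_log]
    · field_simp [hu0 x]
    · exact div_ne_zero (hg x) (hu0 x)

/-- The algebra of holomorphic elements. -/
def alg (h : Good Γ) : Subalgebra ℂ C(X, ℂ) where
  carrier := {u | (u, (0 : C(X, ℂ))) ∈ Γ}
  mul_mem' := by
    intro a b ha hb
    simpa using h.mul _ _ _ _ ha hb
  add_mem' := by
    intro a b ha hb
    simpa using h.add' ha hb
  algebraMap_mem' := h.const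

lemma mem_alg (h : Good Γ) {u : C(X, ℂ)} : u ∈ h.alg ↔ (u, (0 : C(X, ℂ))) ∈ Γ := Iff.rfl

end Good

end Pool.Agent.H51.Carpet
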