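import Pool.Agent.H51.Carpet.Cauchy
import Pool.Agent.H51.Carpet.Good

set_option autoImplicit false
set_option linter.unusedSectionVars false

open Set Topology MeasureTheory

namespace Pool.Agent.H51.Carpet

section dbar

variable {φ ψ : ℂ → ℂ} {z : ℂ}

lemma dbar_add (hφ : DifferentiableAt ℝ φ z) (hψ : DifferentiableAt ℝ ψ z) :
    dbar (fun w => φ w + ψ w) z = dbar φ z + dbar ψ z := by
  simp only [dbar]
  rw [show fderiv ℝ (fun w => φ w + ψ w) z = fderiv ℝ φ z + fderiv ℝ ψ z from fderiv_add hφ hψ]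
  simp only [ContinuousLinearMap.add_apply]
  ring

lemma dbar_mul (hφ : DifferentiableAt ℝ φ z) (hψ : DifferentiableAt ℝ ψ z) :
    dbar (fun w => φ w * ψ w) z = φ z * dbar ψ z + ψ z * dbar φ z := by
  simp only [dbar]
  rw [show fderiv ℝ (fun w => φ w * ψ w) z = φ z • fderiv ℝ ψ z + ψ z • fderiv ℝ φ z from
    fderiv_mul hφ hψ]
  simp only [ContinuousLinearMap.add_apply, ContinuousLinearMap.smul_apply, smul_eq_mul]
  ring

lemma dbar_const (c : ℂ) : dbar (fun _ => c) z = 0 := by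
  simp [dbar]

lemma dbar_id : dbar (fun w => w) z = 0 := by
  simp [dbar, fderiv_id']

lemma dbar_conj : dbar (fun w => (starRingEnd ℂ) w) z = 1 := by
  have : fderiv ℝ (fun w => (starRingEnd ℂ) w) z = (Complex.conjCLE : ℂ →L[ℝ] ℂ) :=
    (Complex.conjCLE : ℂ →L[ℝ] ℂ).fderiv
  simp only [dbar, this]
  simp
  norm_num

lemma dbar_inv (hφ : DifferentiableAt ℝ φ z) (h0 : φ z ≠ 0) :
    dbar (fun w => (φ w)⁻¹) z = -((φ z)⁻¹ * (φ z)⁻¹ * dbar φ z) := by
  have h1 : HasFDerivAt (fun w => (φ w)⁻¹) (-((φ z)⁻¹ * (φ z)⁻¹) • fderiv ℝ φ z) z := by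
    have h2 : HasDerivAt (fun w : ℂ => w⁻¹) (-((φ z) ^ 2)⁻¹) (φ z) := hasDerivAt_inv h0
    have h3 := h2.hasFDerivAt.restrictScalars ℝ
    have h4 := h3.comp z hφ.hasFDerivAt
    refine h4.congr_fderiv ?_
    ext v
    simp
    ring
  simp only [dbar, h1.fderiv]
  simp only [ContinuousLinearMap.smul_apply, smul_eq_mul]
  ring

end dbar

variable (K : Set ℂ)

/-- restrictions of functions continuously differentiable near `K`, with their dbar derivatives -/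
def baseSet : Set (C(K, ℂ) × C(K, ℂ)) :=
  {p | ∃ φ : ℂ → ℂ, (∀ z ∈ K, ContDiffAt ℝ 1 φ z) ∧ (∀ z : K, p.1 z = φ z) ∧
    ∀ z : K, p.2 z = dbar φ z}

/-- the base algebra of pairs -/
def base : Set (C(K, ℂ) × C(K, ℂ)) := closure (baseSet K)

variable {K}

/-- smooth functions give pairs -/
lemma mem_baseSet_of_contDiff {φ : ℂ → ℂ} (hφ : ContDiff ℝ 1 φ) :
    ((⟨fun z : K => φ z, by
        have := hφ.continuous
        fun_prop⟩, ⟨fun z : K => dbar φ z, by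
        have := continuous_dbar hφ
        fun_prop⟩) : C(K, ℂ) × C(K, ℂ)) ∈ baseSet K :=
  ⟨φ, fun z _ => hφ.contDiffAt, fun _ => rfl, fun _ => rfl⟩

variable [CompactSpace K]

lemma base_add : ∀ p ∈ base K, ∀ q ∈ base K, p + q ∈ base K := by
  intro p hp q hq
  refine map_mem_closure₂ continuous_add hp hq ?_
  rintro a ⟨φ, h1, h2, h3⟩ b ⟨ψ, h1', h2', h3'⟩
  refine ⟨fun w => φ w + ψ w, fun z hz => (h1 z hz).add (h1' z hz), ?_, ?_⟩
  · intro z
    change a.1 z + b.1 z = _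
    rw [h2, h2']
  · intro z
    change a.2 z + b.2 z = _
    rw [h3, h3', dbar_add ((h1 z z.2).differentiableAt (by norm_num))
      ((h1' z z.2).differentiableAt (by norm_num))]

lemma base_const (c : ℂ) : (algebraMap ℂ C(K, ℂ) c, (0 : C(K, ℂ))) ∈ base K := by
  refine subset_closure ⟨fun _ => c, fun z _ => contDiffAt_const, fun z => by simp, fun z => ?_⟩
  rw [dbar_const]; simp

lemma base_mul (u v u' v' : C(K, ℂ)) (h : (u, v) ∈ base K) (h' : (u', v') ∈ base K) :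
    (u * u', u * v' + u' * v) ∈ base K := by
  have hc : Continuous fun p : (C(K, ℂ) × C(K, ℂ)) × (C(K, ℂ) × C(K, ℂ)) =>
      (p.1.1 * p.2.1, p.1.1 * p.2.2 + p.2.1 * p.1.2) := by fun_prop
  refine map_mem_closure₂ (f := fun a b : C(K, ℂ) × C(K, ℂ) => (a.1 * b.1, a.1 * b.2 + b.1 * a.2))
    hc h h' ?_
  rintro a ⟨φ, h1, h2, h3⟩ b ⟨ψ, h1', h2', h3'⟩
  refine ⟨fun w => φ w * ψ w, fun z hz => (h1 z hz).mul (h1' z hz), ?_, ?_⟩
  · intro z
    change a.1 z * b.1 z = _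
    rw [h2, h2']
  · intro z
    change a.1 z * b.2 z + b.1 z * a.2 z = _
    rw [h3, h3', h2, h2', dbar_mul ((h1 z z.2).differentiableAt (by norm_num))
      ((h1' z z.2).differentiableAt (by norm_num))]

lemma isUnit_of_ne {X : Type*} [TopologicalSpace X] (u : C(X, ℂ)) (hu : ∀ x, u x ≠ 0) :
    IsUnit u := by
  refine ⟨⟨u, ⟨fun x => (u x)⁻¹, u.continuous.inv₀ hu⟩, ?_, ?_⟩, rfl⟩
  · ext x; simp [hu x]
  · ext x; simp [hu x]

lemma base_inv (u v : C(K, ℂ)) (h : (u, v) ∈ base K) (hu : ∀ x, u x ≠ 0) :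
    ∃ u', u * u' = 1 ∧ (u', -(u' * u' * v)) ∈ base K := by
  have hunit := isUnit_of_ne u hu
  refine ⟨Ring.inverse u, Ring.mul_inverse_cancel u hunit, ?_⟩
  let J : C(K, ℂ) × C(K, ℂ) → C(K, ℂ) × C(K, ℂ) := fun p =>
    (Ring.inverse p.1, -(Ring.inverse p.1 * Ring.inverse p.1 * p.2))
  have hJ : ContinuousAt J (u, v) := by
    obtain ⟨U, hU⟩ := hunit
    have h1 : ContinuousAt Ring.inverse u := by
      rw [← hU]; exact NormedRing.inverse_continuousAt U
    have h2 : ContinuousAt (fun p : C(K, ℂ) × C(K, ℂ) => Ring.inverse p.1) (u, v) :=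
      ContinuousAt.comp (f := Prod.fst) (x := (u, v)) h1 continuousAt_fst
    exact h2.prodMk ((h2.mul h2).mul continuousAt_snd).neg
  have hne : (𝓝[baseSet K] (u, v)).NeBot := mem_closure_iff_nhdsWithin_neBot.mp h
  refine mem_closure_of_tendsto (f := J) (b := 𝓝[baseSet K] (u, v)) (hJ.tendsto.mono_left nhdsWithin_le_nhds) ?_
  have hopen : ∀ᶠ p in 𝓝[baseSet K] (u, v), IsUnit p.1 := by
    apply nhdsWithin_le_nhds
    have : {p : C(K, ℂ) × C(K, ℂ) | IsUnit p.1} = Prod.fst ⁻¹' {u | IsUnit u} := rfl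
    exact (Units.isOpen.preimage continuous_fst).mem_nhds hunit
  filter_upwards [hopen, self_mem_nhdsWithin] with p hp hpB
  obtain ⟨φ, h1, h2, h3⟩ := hpB
  have hinv : ∀ z : K, Ring.inverse p.1 z = (φ z)⁻¹ ∧ φ z ≠ 0 := by
    intro z
    have e := congrArg (fun w : C(K, ℂ) => w z) (Ring.mul_inverse_cancel p.1 hp)
    simp only [ContinuousMap.mul_apply, ContinuousMap.one_apply] at e
    rw [h2] at e
    exact ⟨eq_inv_of_mul_eq_one_right e, left_ne_zero_of_mul_eq_one e⟩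
  refine ⟨fun w => (φ w)⁻¹, fun z hz => (h1 z hz).inv (hinv ⟨z, hz⟩).2, fun z => (hinv z).1, ?_⟩
  intro z
  change -(Ring.inverse p.1 z * Ring.inverse p.1 z * p.2 z) = _
  rw [(hinv z).1, h3, dbar_inv ((h1 z z.2).differentiableAt (by norm_num)) (hinv z).2]

/-- smooth functions are dense -/
lemma dense_smooth (g : C(K, ℂ)) {ε : ℝ} (hε : 0 < ε) :
    ∃ φ : ℂ → ℂ, ContDiff ℝ 1 φ ∧ ∀ z : K, ‖φ z - g z‖ < ε := by
  let B : StarSubalgebra ℂ C(K, ℂ) :=
    { carrier := {u | ∃ φ : ℂ → ℂ, ContDiff ℝ 1 φ ∧ ∀ z : K, u z = φ z}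
      mul_mem' := by
        rintro a b ⟨φ, h1, h2⟩ ⟨ψ, h1', h2'⟩
        exact ⟨fun w => φ w * ψ w, h1.mul h1', fun z => by simp [h2, h2']⟩
      add_mem' := by
        rintro a b ⟨φ, h1, h2⟩ ⟨ψ, h1', h2'⟩
        exact ⟨fun w => φ w + ψ w, h1.add h1', fun z => by simp [h2, h2']⟩
      algebraMap_mem' := fun c => ⟨fun _ => c, contDiff_const, fun z => by simp⟩
      star_mem' := by
        rintro a ⟨φ, h1, h2⟩
        exact ⟨fun w => (starRingEnd ℂ) (φ w), Complex.conjCLE.contDiff.comp h1,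
          fun z => by simp [h2]⟩ }
  have hsep : B.toSubalgebra.SeparatesPoints := by
    intro x y hxy
    refine ⟨_, ⟨⟨fun z : K => (z : ℂ), by fun_prop⟩, ⟨fun w => w, contDiff_id, fun z => rfl⟩, rfl⟩, ?_⟩
    simpa using fun h => hxy (Subtype.ext h)
  have htop := ContinuousMap.starSubalgebra_topologicalClosure_eq_top_of_separatesPoints B hsep
  have hF : g ∈ B.topologicalClosure := by rw [htop]; trivial
  have hF' : g ∈ closure (B : Set C(K, ℂ)) := hF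
  obtain ⟨G, ⟨φ, h1, h2⟩, hG⟩ := Metric.mem_closure_iff.mp hF' ε hε
  refine ⟨φ, h1, fun z => ?_⟩
  rw [← h2, ← dist_eq_norm, dist_comm]
  exact lt_of_le_of_lt (ContinuousMap.dist_apply_le_dist z) hG

lemma base_dense (g : C(K, ℂ)) (ε : ℝ) (hε : ε > 0) : ∃ u v, (u, v) ∈ base K ∧ ‖u - g‖ < ε := by
  obtain ⟨φ, h1, h2⟩ := dense_smooth g hε
  refine ⟨_, _, subset_closure (mem_baseSet_of_contDiff h1), ?_⟩
  rw [ContinuousMap.norm_lt_iff _ hε]
  intro z
  exact h2 z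

lemma base_sep (x y : K) (hxy : x ≠ y) : ∃ u : C(K, ℂ), (u, (0 : C(K, ℂ))) ∈ base K ∧ u x ≠ u y := by
  refine ⟨⟨fun z : K => (z : ℂ), by fun_prop⟩, subset_closure ⟨fun w => w, fun z _ => contDiffAt_id,
    fun z => rfl, fun z => ?_⟩, ?_⟩
  · rw [dbar_id]; rfl
  · simpa using fun h => hxy (Subtype.ext h)

end Pool.Agent.H51.Carpet
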