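import Pool.Agent.H51.Carpet.Base

set_option autoImplicit false
set_option linter.unusedSectionVars false

open Set Topology MeasureTheory

namespace Pool.Agent.H51.Carpet

variable {K : Set ℂ} [CompactSpace K]

lemma base_surj (w : C(K, ℂ)) : ∃ u, (u, w) ∈ base K := by
  have hK : IsCompact K := isCompact_iff_compactSpace.mpr inferInstance
  obtain ⟨C, hC, hsolve⟩ := solve hK
  let G : AddSubgroup (C(K, ℂ) × C(K, ℂ)) :=
    { carrier := base K
      add_mem' := fun {a b} ha hb => base_add a ha b hb
      zero_mem' := by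
        have h1 := base_const (K := K) 0
        rw [map_zero] at h1
        exact h1
      neg_mem' := by
        intro p hp
        have h1 := base_mul _ _ _ _ (base_const (K := K) (-1)) hp
        have h2 : ((-p.1, -p.2) : C(K, ℂ) × C(K, ℂ)) ∈ base K := by simpa using h1
        exact h2 }
  have hcs : CompleteSpace G := (isClosed_closure : IsClosed (base K)).completeSpace_coe
  let f : NormedAddGroupHom G C(K, ℂ) :=
    AddMonoidHom.mkNormedAddGroupHom ((AddMonoidHom.snd _ _).comp G.subtype) 1 (by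
      intro v
      rw [one_mul]
      exact norm_snd_le v.1)
  have hf : ∀ v : G, f v = v.1.2 := fun v => rfl
  let H : AddSubgroup C(K, ℂ) :=
    { carrier := {w | ∃ φ : ℂ → ℂ, ContDiff ℝ 1 φ ∧ ∀ z : K, w z = φ z}
      add_mem' := by
        rintro a b ⟨φ, h1, h2⟩ ⟨ψ, h1', h2'⟩
        exact ⟨fun w => φ w + ψ w, h1.add h1', fun z => by simp [h2, h2']⟩
      zero_mem' := ⟨fun _ => 0, contDiff_const, fun z => rfl⟩
      neg_mem' := by
        rintro a ⟨φ, h1, h2⟩
        exact ⟨fun w => -φ w, h1.neg, fun z => by simp [h2]⟩ }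
  have hsurj : f.SurjectiveOnWith H (2 * C + 1) := by
    rintro w ⟨φ, hφ, hw⟩
    by_cases hw0 : w = 0
    · exact ⟨0, by simp [hw0], by simp [hw0]⟩
    · have hpos : 0 < ‖w‖ := norm_pos_iff.mpr hw0
      obtain ⟨ψ, hψ, hψd, hψn⟩ := hsolve φ hφ (2 * ‖w‖) (by positivity) (by
        intro z hz
        rw [← hw ⟨z, hz⟩]
        have := ContinuousMap.norm_coe_le_norm w ⟨z, hz⟩
        linarith)
      let u : C(K, ℂ) := ⟨fun z : K => ψ z, by
        have := hψ.continuous
        fun_prop⟩
      have hmem : (u, w) ∈ base K :=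
        subset_closure ⟨ψ, fun z _ => hψ.contDiffAt, fun z => rfl, fun z => by
          rw [hψd z z.2]; exact hw z⟩
      refine ⟨⟨(u, w), hmem⟩, rfl, ?_⟩
      have hun : ‖u‖ ≤ C * (2 * ‖w‖) := by
        rw [ContinuousMap.norm_le _ (by positivity)]
        intro z
        exact hψn z z.2
      change max ‖u‖ ‖w‖ ≤ _
      refine max_le ?_ ?_ <;> nlinarith
  have h1 := controlled_closure_of_complete (f := f) (K := H) (C := 2 * C + 1) (ε := 1)
    (by positivity) one_pos hsurj
  obtain ⟨g, hg, -⟩ := h1 w (by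
    change w ∈ closure (H : Set C(K, ℂ))
    rw [Metric.mem_closure_iff]
    intro ε hε
    obtain ⟨φ, h2, h3⟩ := dense_smooth w hε
    refine ⟨⟨fun z : K => φ z, by
      have := h2.continuous
      fun_prop⟩, ⟨φ, h2, fun z => rfl⟩, ?_⟩
    rw [dist_comm, ContinuousMap.dist_lt_iff hε]
    intro z
    rw [dist_eq_norm]
    exact h3 z)
  refine ⟨g.1.1, ?_⟩
  have h2 := g.2
  rw [hf] at hg
  rw [← hg]
  exact h2

/-- values of a smooth function avoid small translates of a nowhere dense compact set -/
lemma base_invdense (hKi : interior K = ∅) : Dense {u : C(K, ℂ) | ∀ x, u x ≠ 0} := by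
  have hK : IsCompact K := isCompact_iff_compactSpace.mpr inferInstance
  intro g
  rw [Metric.mem_closure_iff]
  intro ε hε
  obtain ⟨φ, hφ, hφg⟩ := dense_smooth g (ε := ε / 4) (by positivity)
  obtain ⟨R, hR⟩ := hK.isBounded.subset_closedBall (0 : ℂ)
  -- a regular value
  have hdense : Dense {c : ℂ | c ∉ φ '' {z | (fderiv ℝ φ z).det = 0}} := by
    refine Measure.dense_of_ae (μ := volume) ?_
    have := addHaar_image_eq_zero_of_det_fderivWithin_eq_zero (f := φ) (f' := fderiv ℝ φ)
      (s := {z | (fderiv ℝ φ z).det = 0}) (volume : Measure ℂ)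
      (fun x _ => ((hφ.differentiable (by norm_num) x).hasFDerivAt).hasFDerivWithinAt)
      (fun x hx => hx)
    rw [ae_iff]
    convert this using 2
    ext x
    simp
  obtain ⟨c, hc1, hc2⟩ := Metric.dense_iff.mp hdense 0 (ε / 4) (by positivity)
  rw [mem_ball_zero_iff] at hc1
  simp only [mem_ofPred_eq] at hc2
  -- the zero set is finite
  let Z : Set ℂ := {z | φ z = c} ∩ Metric.closedBall 0 (R + 1)
  have hZc : IsCompact Z := (isCompact_closedBall _ _).inter_left
    (isClosed_eq hφ.continuous continuous_const)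
  have hZfin : Z.Finite := by
    by_contra hinf
    obtain ⟨x, hx, hacc⟩ := Set.Infinite.exists_accPt_of_subset_isCompact hinf hZc subset_rfl
    rw [accPt_iff_frequently] at hacc
    have hdet : (fderiv ℝ φ x).det ≠ 0 := by
      intro h0
      exact hc2 ⟨x, h0, hx.1⟩
    let e := ContinuousLinearMap.toContinuousLinearEquivOfDetNeZero (fderiv ℝ φ x) hdet
    have hev := ((hφ.differentiable (by norm_num) x).hasFDerivAt).eventually_ne (c := c)
      ⟨_, e.antilipschitz⟩
    rw [eventually_nhdsWithin_iff] at hev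
    apply hacc
    filter_upwards [hev] with y hy hy'
    exact hy hy'.1 hy'.2.1
  -- small translation
  have hd2 : Dense (⋂ ζ ∈ Z, {s : ℂ | ζ - s ∉ K}) := by
    refine dense_biInter_of_isOpen ?_ hZfin.countable ?_
    · intro ζ _
      have hcl : IsClosed K := hK.isClosed
      exact (hcl.preimage (by fun_prop : Continuous fun s : ℂ => ζ - s)).isOpen_compl
    · intro ζ _
      have h1 : Dense Kᶜ := interior_eq_empty_iff_dense_compl.mp hKi
      have := h1.preimage (Homeomorph.subLeft ζ).isOpenMap
      exact this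
  have huc : UniformContinuousOn φ (Metric.closedBall 0 (R + 1)) :=
    (isCompact_closedBall _ _).uniformContinuousOn_of_continuous hφ.continuous.continuousOn
  rw [Metric.uniformContinuousOn_iff] at huc
  obtain ⟨δ, hδ, hδφ⟩ := huc (ε / 4) (by positivity)
  obtain ⟨s, hs1, hs2⟩ := Metric.dense_iff.mp hd2 0 (min δ 1) (by positivity)
  rw [mem_ball_zero_iff, lt_min_iff] at hs1
  rw [mem_iInter₂] at hs2
  let u : C(K, ℂ) := ⟨fun z : K => φ (z + s) - c, by
    have := hφ.continuous
    fun_prop⟩
  have hzs : ∀ z : K, (z : ℂ) + s ∈ Metric.closedBall (0 : ℂ) (R + 1) := by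
    intro z
    have h1 : ‖(z : ℂ)‖ ≤ R := by simpa using hR z.2
    rw [mem_closedBall_zero_iff]
    exact (norm_add_le _ _).trans (by linarith [hs1.2])
  have hz : ∀ z : K, (z : ℂ) ∈ Metric.closedBall (0 : ℂ) (R + 1) := by
    intro z
    have h1 : ‖(z : ℂ)‖ ≤ R := by simpa using hR z.2
    rw [mem_closedBall_zero_iff]
    linarith
  refine ⟨u, ?_, ?_⟩
  · intro z h0
    have h1 : φ (z + s) = c := sub_eq_zero.mp h0
    have h2 : (z : ℂ) + s ∈ Z := ⟨h1, hzs z⟩
    apply hs2 _ h2
    simp
  · rw [ContinuousMap.dist_lt_iff hε]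
    intro z
    rw [dist_eq_norm]
    have e : g z - u z = (g z - φ z) + (φ z - φ (z + s)) + c := by
      simp only [u, ContinuousMap.coe_mk]; ring
    rw [e]
    have h1 : ‖g z - φ z‖ < ε / 4 := by rw [norm_sub_rev]; exact hφg z
    have h2 : ‖φ z - φ (z + s)‖ < ε / 4 := by
      rw [← dist_eq_norm]
      refine hδφ _ (hz z) _ (hzs z) ?_
      rw [dist_eq_norm]
      simpa using hs1.1
    calc ‖(g z - φ z) + (φ z - φ (z + s)) + c‖
        ≤ ‖g z - φ z‖ + ‖φ z - φ (z + s)‖ + ‖c‖ := norm_add₃_le
      _ < ε := by linarith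

theorem good_base (hKi : interior K = ∅) : Good (base K) where
  closed := isClosed_closure
  add := base_add
  const := base_const
  mul := base_mul
  surj := base_surj
  inv := base_inv
  dense := base_dense
  invdense := base_invdense hKi
  sep := base_sep

end Pool.Agent.H51.Carpet
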