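import Pool.Agent.H51.Carpet.Base2

set_option autoImplicit false
set_option linter.unusedSectionVars false

open Set Topology MeasureTheory

namespace Pool.Agent.H51.Carpet

/-- every function which is continuously differentiable near `K` agrees near `K` with a global one -/
lemma exists_global {K : Set ℂ} (hK : IsClosed K) (φ : ℂ → ℂ) (hφ : ∀ z ∈ K, ContDiffAt ℝ 1 φ z) :
    ∃ φ' : ℂ → ℂ, ContDiff ℝ 1 φ' ∧ ∀ z ∈ K, φ' =ᶠ[𝓝 z] φ := by
  let U : Set ℂ := {z | ContDiffAt ℝ 1 φ z}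
  have hU : IsOpen U := by
    rw [isOpen_iff_mem_nhds]
    intro z hz
    exact ContDiffAt.eventually hz (by simp)
  have hd : Disjoint Uᶜ K := by
    rw [disjoint_comm, disjoint_compl_right_iff_subset]
    exact fun z hz => hφ z hz
  obtain ⟨κ, hκ0, hκ1, hκr⟩ := exists_contMDiffMap_zero_one_nhds_of_isClosed
    (modelWithCornersSelf ℝ ℂ) (n := 1) hU.isClosed_compl hK hd
  have hκ' : ContDiff ℝ 1 κ := κ.contMDiff.contDiff
  refine ⟨fun z => (κ z : ℂ) * φ z, ?_, ?_⟩
  · rw [contDiff_iff_contDiffAt]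
    intro z
    by_cases hz : z ∈ U
    · have h1 : ContDiff ℝ 1 (fun z => ((κ z : ℝ) : ℂ)) := Complex.ofRealCLM.contDiff.comp hκ'
      exact h1.contDiffAt.mul hz
    · have h1 : ∀ᶠ w in 𝓝 z, κ w = 0 := by
        have := hκ0
        rw [Filter.Eventually, mem_nhdsSet_iff_forall] at this
        exact this z hz
      refine (contDiffAt_const (c := (0 : ℂ))).congr_of_eventuallyEq ?_
      filter_upwards [h1] with w hw
      simp [hw]
  · intro z hz
    have h1 : ∀ᶠ w in 𝓝 z, κ w = 1 := by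
      have := hκ1
      rw [Filter.Eventually, mem_nhdsSet_iff_forall] at this
      exact this z hz
    filter_upwards [h1] with w hw
    simp [hw]

lemma dbar_congr {φ ψ : ℂ → ℂ} {z : ℂ} (h : φ =ᶠ[𝓝 z] ψ) : dbar φ z = dbar ψ z := by
  simp only [dbar, h.fderiv_eq]

/-- data of a Swiss cheese type set -/
structure CheeseData where
  K : Set ℂ
  hK : IsCompact K
  hKi : interior K = ∅
  χ : ℂ → ℂ
  ψ : ℂ → ℂ
  hχ : Integrable χ
  hψ : Integrable ψ
  hχK : ∀ᵐ z, z ∉ K → χ z = 0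
  hψK : ∀ᵐ z, z ∉ K → ψ z = 0
  parts : ∀ φ : ℂ → ℂ, ContDiff ℝ 1 φ → ∫ z, φ z * ψ z = -∫ z, χ z * dbar φ z
  m : ℝ
  hm : 0 < m
  hχm : ∫ z, χ z = m

/-- the function z-bar -/
noncomputable def qbar (K : Set ℂ) : C(K, ℂ) := ⟨fun z : K => (starRingEnd ℂ) z, by fun_prop⟩

theorem CheeseData.dist_pos (D : CheeseData) [CompactSpace D.K] :
    ∃ ρ > (0 : ℝ), ∀ u : C(D.K, ℂ), (u, (0 : C(D.K, ℂ))) ∈ base D.K → ρ ≤ ‖u - qbar D.K‖ := by
  have h0ψ : (0 : ℝ) ≤ ∫ z, ‖D.ψ z‖ := integral_nonneg fun _ => norm_nonneg _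
  have h0χ : (0 : ℝ) ≤ ∫ z, ‖D.χ z‖ := integral_nonneg fun _ => norm_nonneg _
  refine ⟨D.m / ((∫ z, ‖D.ψ z‖) + 1), div_pos D.hm (by positivity), ?_⟩
  intro u hu
  -- reduce to an inequality
  suffices h : D.m ≤ ‖u - qbar D.K‖ * ∫ z, ‖D.ψ z‖ by
    rw [div_le_iff₀ (by positivity)]
    nlinarith [norm_nonneg (u - qbar D.K)]
  refine le_of_forall_pos_le_add fun ε hε => ?_
  set A := (∫ z, ‖D.ψ z‖) + ∫ z, ‖D.χ z‖ with hA
  obtain ⟨p, ⟨φ, h1, h2, h3⟩, hp⟩ := Metric.mem_closure_iff.mp hu (ε / (A + 1)) (by positivity)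
  set ε' := ε / (A + 1) with hε'
  have hε'pos : 0 < ε' := by positivity
  have hpu : ∀ z : D.K, ‖φ z - u z‖ ≤ ε' := by
    intro z
    rw [← h2, ← dist_eq_norm, dist_comm]
    refine (ContinuousMap.dist_apply_le_dist z).trans ?_
    exact (le_max_left _ _).trans hp.le
  have hpv : ∀ z : D.K, ‖dbar φ z‖ ≤ ε' := by
    intro z
    rw [← h3]
    have e : ‖p.2 z‖ = dist ((0 : C(D.K, ℂ)) z) (p.2 z) := by
      rw [dist_eq_norm]; simp
    rw [e]
    refine (ContinuousMap.dist_apply_le_dist z).trans ?_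
    exact (le_max_right _ _).trans hp.le
  obtain ⟨φ', hφ', hφφ'⟩ := exists_global D.hK.isClosed φ h1
  let g : ℂ → ℂ := fun z => φ' z + -((starRingEnd ℂ) z)
  have hconj : ContDiff ℝ 1 (fun z : ℂ => (starRingEnd ℂ) z) := Complex.conjCLE.contDiff
  have hg : ContDiff ℝ 1 g := hφ'.add hconj.neg
  have hdconj : ∀ z, dbar (fun z : ℂ => -((starRingEnd ℂ) z)) z = -1 := by
    intro z
    have := dbar_conj (z := z)
    simp only [dbar] at this ⊢
    have e : fderiv ℝ (fun z : ℂ => -((starRingEnd ℂ) z)) z = -fderiv ℝ (fun z : ℂ => (starRingEnd ℂ) z) z :=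
      fderiv_neg
    rw [e]
    simp only [ContinuousLinearMap.neg_apply]
    linear_combination -this
  have hdg : ∀ z ∈ D.K, dbar g z = dbar φ z + -1 := by
    intro z hz
    simp only [g]
    rw [dbar_add (hφ'.differentiable (by norm_num) z) (hconj.neg.differentiable (by norm_num) z),
      hdconj, dbar_congr (hφφ' z hz)]
  have hparts := D.parts g hg
  -- the right-hand side
  have hR : ∫ z, D.χ z * dbar g z = (∫ z, D.χ z * (dbar g z + 1)) - D.m := by
    have hb : ∀ᵐ z, ‖D.χ z * (dbar g z + 1)‖ ≤ ε' * ‖D.χ z‖ := by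
      filter_upwards [D.hχK] with z hz
      by_cases hzK : z ∈ D.K
      · rw [norm_mul, mul_comm, hdg z hzK]
        have e : dbar φ z + -1 + 1 = dbar φ z := by ring
        rw [e]
        exact mul_le_mul_of_nonneg_right (hpv ⟨z, hzK⟩) (norm_nonneg _)
      · simp [hz hzK]
    have hi : Integrable (fun z => D.χ z * (dbar g z + 1)) := by
      refine Integrable.mono' (D.hχ.norm.const_mul ε') ?_ hb
      exact D.hχ.aestronglyMeasurable.mul
        ((continuous_dbar hg).add continuous_const).aestronglyMeasurable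
    rw [← D.hχm, ← integral_sub hi D.hχ]
    congr 1
    ext z
    ring
  have hR2 : ‖∫ z, D.χ z * (dbar g z + 1)‖ ≤ ε' * ∫ z, ‖D.χ z‖ := by
    rw [← integral_const_mul]
    refine norm_integral_le_of_norm_le (D.hχ.norm.const_mul ε') ?_
    filter_upwards [D.hχK] with z hz
    by_cases hzK : z ∈ D.K
    · rw [norm_mul, mul_comm, hdg z hzK]
      have e : dbar φ z + -1 + 1 = dbar φ z := by ring
      rw [e]
      exact mul_le_mul_of_nonneg_right (hpv ⟨z, hzK⟩) (norm_nonneg _)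
    · simp [hz hzK]
  have hL : ‖∫ z, g z * D.ψ z‖ ≤ (‖u - qbar D.K‖ + ε') * ∫ z, ‖D.ψ z‖ := by
    rw [← integral_const_mul]
    refine norm_integral_le_of_norm_le (D.hψ.norm.const_mul _) ?_
    filter_upwards [D.hψK] with z hz
    by_cases hzK : z ∈ D.K
    · rw [norm_mul]
      refine mul_le_mul_of_nonneg_right ?_ (norm_nonneg _)
      have e1 : φ' z = φ z := (hφφ' z hzK).self_of_nhds
      have e : g z = (φ z - u ⟨z, hzK⟩) + (u - qbar D.K) ⟨z, hzK⟩ := by
        simp only [g, e1, ContinuousMap.sub_apply, qbar, ContinuousMap.coe_mk]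
        ring
      rw [e]
      refine (norm_add_le _ _).trans ?_
      have h4 := hpu ⟨z, hzK⟩
      have h5 := ContinuousMap.norm_coe_le_norm (u - qbar D.K) ⟨z, hzK⟩
      simp only at h4
      linarith
    · simp [hz hzK]
  rw [hparts, hR, neg_sub] at hL
  have h6 : D.m - ‖∫ z, D.χ z * (dbar g z + 1)‖ ≤ ‖(D.m : ℂ) - ∫ z, D.χ z * (dbar g z + 1)‖ := by
    have := norm_sub_norm_le (D.m : ℂ) (∫ z, D.χ z * (dbar g z + 1))
    rw [Complex.norm_real, Real.norm_eq_abs, abs_of_pos D.hm] at this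
    exact this
  have h7 : ε' * A ≤ ε := by
    rw [hε', div_mul_eq_mul_div, div_le_iff₀ (by positivity)]
    nlinarith
  rw [hA] at h7
  nlinarith

end Pool.Agent.H51.Carpet
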