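import Pool.Agent.H51.Carpet.CheeseA

set_option autoImplicit false
set_option linter.unusedSectionVars false

open Set Topology MeasureTheory Filter

namespace Pool.Agent.H51.Carpet

/-- a fixed bump function -/
noncomputable def bump : ContDiffBump (0 : ℂ) := ⟨1, 2, one_pos, one_lt_two⟩

/-- its complexification -/
noncomputable def β (w : ℂ) : ℂ := ((bump w : ℝ) : ℂ)

lemma contDiff_β : ContDiff ℝ 1 β := Complex.ofRealCLM.contDiff.comp bump.contDiff

lemma β_zero {w : ℂ} (hw : 2 ≤ ‖w‖) : β w = 0 := by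
  have : bump w = 0 := bump.zero_of_le_dist (by simpa [bump] using hw)
  simp [β, this]

lemma β_one {w : ℂ} (hw : ‖w‖ ≤ 1) : β w = 1 := by
  have : bump w = 1 := bump.one_of_mem_closedBall (by simpa [bump] using hw)
  simp [β, this]

lemma hasCompactSupport_β : HasCompactSupport β := by
  refine HasCompactSupport.intro (isCompact_closedBall (0 : ℂ) 2) fun w hw => β_zero ?_
  simp only [mem_closedBall_zero_iff, not_le] at hw
  exact hw.le

/-- rescaled bump -/
noncomputable def T (a : ℂ) (r : ℝ) (z : ℂ) : ℂ := β ((r : ℂ)⁻¹ * (z - a))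

lemma contDiff_T (a : ℂ) (r : ℝ) : ContDiff ℝ 1 (T a r) := by
  have : ContDiff ℝ 1 (fun z : ℂ => (r : ℂ)⁻¹ * (z - a)) := by fun_prop
  exact contDiff_β.comp this

lemma T_zero {a : ℂ} {r : ℝ} (hr : 0 < r) {z : ℂ} (hz : 2 * r ≤ ‖z - a‖) : T a r z = 0 := by
  apply β_zero
  rw [norm_mul, norm_inv, Complex.norm_real, Real.norm_eq_abs, abs_of_pos hr, inv_mul_eq_div,
    le_div_iff₀ hr]
  exact hz

lemma T_one {a : ℂ} {r : ℝ} (hr : 0 < r) {z : ℂ} (hz : ‖z - a‖ ≤ r) : T a r z = 1 := by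
  apply β_one
  rw [norm_mul, norm_inv, Complex.norm_real, Real.norm_eq_abs, abs_of_pos hr, inv_mul_eq_div,
    div_le_one hr]
  exact hz

lemma dbar_T (a : ℂ) (r : ℝ) (z : ℂ) :
    dbar (T a r) z = (r : ℂ)⁻¹ * dbar β ((r : ℂ)⁻¹ * (z - a)) := by
  have h1 : HasFDerivAt (fun z : ℂ => (r : ℂ)⁻¹ * (z - a)) ((r : ℝ)⁻¹ • ContinuousLinearMap.id ℝ ℂ) z := by
    have h2 := ((hasFDerivAt_id (𝕜 := ℝ) z).sub_const a).const_mul ((r : ℂ)⁻¹)
    refine h2.congr_fderiv ?_
    ext v
    simp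
  have h2 : HasFDerivAt β (fderiv ℝ β ((r : ℂ)⁻¹ * (z - a))) ((r : ℂ)⁻¹ * (z - a)) :=
    (contDiff_β.differentiable (by norm_num) _).hasFDerivAt
  have h3 : HasFDerivAt (T a r) ((fderiv ℝ β ((r : ℂ)⁻¹ * (z - a))).comp
      ((r : ℝ)⁻¹ • ContinuousLinearMap.id ℝ ℂ)) z := h2.comp z h1
  simp only [dbar, h3.fderiv]
  simp
  ring

lemma exists_bound_dbar_T : ∃ B > (0 : ℝ), ∀ a : ℂ, ∀ r > (0 : ℝ), ∀ z, ‖dbar (T a r) z‖ ≤ B / r := by
  obtain ⟨B, hB⟩ : ∃ B, ∀ w, ‖dbar β w‖ ≤ B := by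
    refine (continuous_dbar contDiff_β).bounded_above_of_compact_support ?_
    refine HasCompactSupport.intro hasCompactSupport_β.isCompact fun w hw => ?_
    have : β =ᶠ[𝓝 w] fun _ => 0 := notMem_tsupport_iff_eventuallyEq.mp hw
    rw [dbar_congr this, dbar_const]
  refine ⟨|B| + 1, by positivity, fun a r hr z => ?_⟩
  rw [dbar_T, norm_mul, norm_inv, Complex.norm_real, Real.norm_eq_abs, abs_of_pos hr,
    inv_mul_eq_div]
  refine div_le_div_of_nonneg_right ?_ hr.le
  exact (hB _).trans ((le_abs_self B).trans (by linarith))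

lemma T_eventually_zero {a : ℂ} {r : ℝ} (hr : 0 < r) {z : ℂ} (hz : z ∉ Metric.closedBall a (2 * r)) :
    T a r =ᶠ[𝓝 z] fun _ => 0 := by
  have h1 : (Metric.closedBall a (2 * r))ᶜ ∈ 𝓝 z := Metric.isClosed_closedBall.isOpen_compl.mem_nhds hz
  filter_upwards [h1] with w hw
  apply T_zero hr
  simp only [mem_compl_iff, Metric.mem_closedBall, dist_eq_norm, not_le] at hw
  exact hw.le

/-- centres -/
noncomputable def cen (j : ℕ) : ℂ := TopologicalSpace.denseSeq ℂ j

/-- radii -/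
noncomputable def rad (j : ℕ) : ℝ := (1 / 8) * (1 / 2) ^ j

lemma rad_pos (j : ℕ) : 0 < rad j := by unfold rad; positivity

/-- partial products -/
noncomputable def chi : ℕ → ℂ → ℂ
  | 0 => β
  | n + 1 => fun z => chi n z * (1 - T (cen n) (rad n) z)

lemma contDiff_chi (n : ℕ) : ContDiff ℝ 1 (chi n) := by
  induction n with
  | zero => exact contDiff_β
  | succ n ih => exact ih.mul (contDiff_const.sub (contDiff_T _ _))

lemma dbar_one_sub {f : ℂ → ℂ} {z : ℂ} : dbar (fun w => 1 - f w) z = -dbar f z := by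
  simp only [dbar]
  have : fderiv ℝ (fun w => 1 - f w) z = -fderiv ℝ f z := by
    rw [fderiv_const_sub]
  rw [this]
  simp only [neg_apply]
  ring

lemma dbar_chi_succ (n : ℕ) (z : ℂ) : dbar (chi (n + 1)) z
    = -(chi n z * dbar (T (cen n) (rad n)) z) + (1 - T (cen n) (rad n) z) * dbar (chi n) z := by
  have h1 := (contDiff_chi n).differentiable (by norm_num) z
  have h2 : DifferentiableAt ℝ (fun w => 1 - T (cen n) (rad n) w) z :=
    (contDiff_const.sub (contDiff_T _ _)).differentiable (by norm_num) z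
  have := dbar_mul h1 h2
  change dbar (fun w => chi n w * (1 - T (cen n) (rad n) w)) z = _
  rw [this, dbar_one_sub]
  ring

/-- real version of the bump -/
lemma T_real (a : ℂ) (r : ℝ) (z : ℂ) : ∃ t : ℝ, 0 ≤ t ∧ t ≤ 1 ∧ T a r z = t :=
  ⟨bump ((r : ℂ)⁻¹ * (z - a)), bump.nonneg, bump.le_one, rfl⟩

/-- real part of T -/
noncomputable def Tr (a : ℂ) (r : ℝ) (z : ℂ) : ℝ := bump ((r : ℂ)⁻¹ * (z - a))

lemma T_eq (a : ℂ) (r : ℝ) (z : ℂ) : T a r z = (Tr a r z : ℂ) := rfl

lemma Tr_nonneg (a : ℂ) (r : ℝ) (z : ℂ) : 0 ≤ Tr a r z := bump.nonneg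
lemma Tr_le_one (a : ℂ) (r : ℝ) (z : ℂ) : Tr a r z ≤ 1 := bump.le_one

/-- real partial products -/
noncomputable def chir : ℕ → ℂ → ℝ
  | 0 => bump
  | n + 1 => fun z => chir n z * (1 - Tr (cen n) (rad n) z)

lemma chi_eq (n : ℕ) (z : ℂ) : chi n z = (chir n z : ℂ) := by
  induction n with
  | zero => rfl
  | succ n ih => simp only [chi, chir, ih, T_eq]; push_cast; ring

lemma chir_nonneg (n : ℕ) (z : ℂ) : 0 ≤ chir n z := by
  induction n with
  | zero => exact bump.nonneg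
  | succ n ih => exact mul_nonneg ih (by have := Tr_le_one (cen n) (rad n) z; linarith)

lemma chir_le_one (n : ℕ) (z : ℂ) : chir n z ≤ 1 := by
  induction n with
  | zero => exact bump.le_one
  | succ n ih =>
    have h1 := Tr_le_one (cen n) (rad n) z
    have h2 := Tr_nonneg (cen n) (rad n) z
    have h3 := chir_nonneg n z
    simp only [chir]
    nlinarith

lemma chir_lower (n : ℕ) (z : ℂ) :
    bump z - ∑ j ∈ Finset.range n, Tr (cen j) (rad j) z ≤ chir n z := by
  induction n with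
  | zero => simp [chir]
  | succ n ih =>
    rw [Finset.sum_range_succ]
    have h1 := Tr_le_one (cen n) (rad n) z
    have h2 := Tr_nonneg (cen n) (rad n) z
    have h3 := chir_nonneg n z
    have h4 := chir_le_one n z
    simp only [chir]
    nlinarith

lemma norm_chi_le_one (n : ℕ) (z : ℂ) : ‖chi n z‖ ≤ 1 := by
  rw [chi_eq, Complex.norm_real, Real.norm_eq_abs, abs_of_nonneg (chir_nonneg n z)]
  exact chir_le_one n z

lemma norm_one_sub_T_le (a : ℂ) (r : ℝ) (z : ℂ) : ‖1 - T a r z‖ ≤ 1 := by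
  rw [T_eq]
  have h1 := Tr_le_one a r z
  have h2 := Tr_nonneg a r z
  have e : (1 : ℂ) - (Tr a r z : ℂ) = ((1 - Tr a r z : ℝ) : ℂ) := by push_cast; ring
  rw [e, Complex.norm_real, Real.norm_eq_abs, abs_of_nonneg (by linarith)]
  linarith

lemma norm_dbar_chi_le (n : ℕ) (z : ℂ) :
    ‖dbar (chi n) z‖ ≤ ‖dbar β z‖ + ∑ j ∈ Finset.range n, ‖dbar (T (cen j) (rad j)) z‖ := by
  induction n with
  | zero => simp [chi]
  | succ n ih =>
    rw [dbar_chi_succ, Finset.sum_range_succ]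
    refine (norm_add_le _ _).trans ?_
    rw [norm_neg, norm_mul, norm_mul]
    have h1 : ‖chi n z‖ * ‖dbar (T (cen n) (rad n)) z‖ ≤ ‖dbar (T (cen n) (rad n)) z‖ :=
      mul_le_of_le_one_left (norm_nonneg _) (norm_chi_le_one n z)
    have h2 : ‖1 - T (cen n) (rad n) z‖ * ‖dbar (chi n) z‖ ≤ ‖dbar (chi n) z‖ :=
      mul_le_of_le_one_left (norm_nonneg _) (norm_one_sub_T_le _ _ z)
    linarith

lemma chi_eventually_zero_outside (n : ℕ) {z : ℂ} (hz : z ∉ Metric.closedBall (0 : ℂ) 2) :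
    chi n =ᶠ[𝓝 z] fun _ => 0 := by
  induction n with
  | zero =>
    have h1 : (Metric.closedBall (0 : ℂ) 2)ᶜ ∈ 𝓝 z :=
      Metric.isClosed_closedBall.isOpen_compl.mem_nhds hz
    filter_upwards [h1] with w hw
    apply β_zero
    simp only [mem_compl_iff, mem_closedBall_zero_iff, not_le] at hw
    exact hw.le
  | succ n ih =>
    filter_upwards [ih] with w hw
    simp [chi, hw]

lemma chi_eventually_zero_ball {j n : ℕ} (hjn : j < n) {z : ℂ} (hz : z ∈ Metric.ball (cen j) (rad j)) :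
    chi n =ᶠ[𝓝 z] fun _ => 0 := by
  induction n with
  | zero => omega
  | succ n ih =>
    rcases Nat.lt_succ_iff_lt_or_eq.mp hjn with h | h
    · filter_upwards [ih h] with w hw
      simp [chi, hw]
    · subst h
      have h1 : Metric.ball (cen j) (rad j) ∈ 𝓝 z := Metric.isOpen_ball.mem_nhds hz
      filter_upwards [h1] with w hw
      have : T (cen j) (rad j) w = 1 := T_one (rad_pos j) (by
        rw [← dist_eq_norm]; exact (Metric.mem_ball.mp hw).le)
      simp [chi, this]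

lemma chi_succ_eventuallyEq (n : ℕ) {z : ℂ} (hz : z ∉ Metric.closedBall (cen n) (2 * rad n)) :
    chi (n + 1) =ᶠ[𝓝 z] chi n := by
  filter_upwards [T_eventually_zero (rad_pos n) hz] with w hw
  simp [chi, hw]

/-- the compact set -/
def cheese : Set ℂ := Metric.closedBall 0 2 \ ⋃ j, Metric.ball (cen j) (rad j)

lemma isCompact_cheese : IsCompact cheese := by
  refine (isCompact_closedBall (0 : ℂ) 2).diff ?_
  exact isOpen_iUnion fun j => Metric.isOpen_ball

lemma interior_cheese : interior cheese = ∅ := by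
  rw [interior_eq_empty_iff_dense_compl]
  refine (TopologicalSpace.denseRange_denseSeq ℂ).mono ?_
  rintro _ ⟨j, rfl⟩ h
  apply h.2
  rw [mem_iUnion]
  exact ⟨j, Metric.mem_ball_self (rad_pos j)⟩

end Pool.Agent.H51.Carpet
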