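import Pool.Agent.H51.Carpet.CheeseB

set_option autoImplicit false
set_option linter.unusedSectionVars false

open Set Topology MeasureTheory Filter

namespace Pool.Agent.H51.Carpet

lemma volume_cb (j : ℕ) : volume (Metric.closedBall (cen j) (2 * rad j))
    = ENNReal.ofReal (Real.pi / 16 * (1 / 4) ^ j) := by
  rw [Complex.volume_closedBall, ← ENNReal.ofReal_pow (by have := rad_pos j; positivity),
    ← ENNReal.ofReal_coe_nnreal, ← ENNReal.ofReal_mul (by have := rad_pos j; positivity)]
  congr 1
  rw [NNReal.coe_real_pi]
  unfold rad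
  have : ((1 : ℝ) / 4) ^ j = ((1 / 2) ^ j) ^ 2 := by
    rw [← pow_mul, mul_comm, pow_mul]; norm_num
  rw [this]
  ring

lemma tsum_volume_ne_top : ∑' j, volume (Metric.closedBall (cen j) (2 * rad j)) ≠ ⊤ := by
  simp only [volume_cb]
  have hs : Summable fun j : ℕ => Real.pi / 16 * (1 / 4 : ℝ) ^ j :=
    (summable_geometric_of_lt_one (by norm_num) (by norm_num)).mul_left _
  exact hs.tsum_ofReal_ne_top

lemma ae_good : ∀ᵐ z : ℂ, ∀ᶠ j in atTop, z ∉ Metric.closedBall (cen j) (2 * rad j) :=
  ae_eventually_notMem tsum_volume_ne_top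

lemma eventuallyEq_of_good {z : ℂ} (hz : ∀ᶠ j in atTop, z ∉ Metric.closedBall (cen j) (2 * rad j)) :
    ∃ N, ∀ n ≥ N, chi n =ᶠ[𝓝 z] chi N := by
  obtain ⟨N, hN⟩ := eventually_atTop.mp hz
  refine ⟨N, fun n hn => ?_⟩
  induction n, hn using Nat.le_induction with
  | base => exact EventuallyEq.rfl
  | succ n hn ih => exact (chi_succ_eventuallyEq n (hN n hn)).trans ih

/-- limit of the partial products -/
noncomputable def chiLim (z : ℂ) : ℝ := limUnder atTop (fun n => chir n z)

/-- limit of the derivatives -/
noncomputable def psiLim (z : ℂ) : ℂ := limUnder atTop (fun n => dbar (chi n) z)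

lemma chir_eventually {z : ℂ} {n N : ℕ} (h : chi n =ᶠ[𝓝 z] chi N) : chir n z = chir N z := by
  have := h.self_of_nhds
  rw [chi_eq, chi_eq] at this
  exact_mod_cast this

lemma tendsto_chir {z : ℂ} (hz : ∀ᶠ j in atTop, z ∉ Metric.closedBall (cen j) (2 * rad j)) :
    Tendsto (fun n => chir n z) atTop (𝓝 (chiLim z)) := by
  obtain ⟨N, hN⟩ := eventuallyEq_of_good hz
  refine tendsto_nhds_limUnder ⟨chir N z, ?_⟩
  refine tendsto_const_nhds.congr' ?_
  filter_upwards [eventually_ge_atTop N] with n hn
  exact (chir_eventually (hN n hn)).symm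

lemma tendsto_dbar_chi {z : ℂ} (hz : ∀ᶠ j in atTop, z ∉ Metric.closedBall (cen j) (2 * rad j)) :
    Tendsto (fun n => dbar (chi n) z) atTop (𝓝 (psiLim z)) := by
  obtain ⟨N, hN⟩ := eventuallyEq_of_good hz
  refine tendsto_nhds_limUnder ⟨dbar (chi N) z, ?_⟩
  refine tendsto_const_nhds.congr' ?_
  filter_upwards [eventually_ge_atTop N] with n hn
  exact (dbar_congr (hN n hn)).symm

lemma eventually_zero_of_notMem {z : ℂ} (hz : z ∉ cheese) :
    ∀ᶠ n in atTop, chi n =ᶠ[𝓝 z] fun _ => 0 := by
  by_cases h : z ∈ Metric.closedBall (0 : ℂ) 2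
  · have h2 : z ∈ ⋃ j, Metric.ball (cen j) (rad j) := by
      by_contra h3
      exact hz ⟨h, h3⟩
    obtain ⟨j, hj⟩ := mem_iUnion.mp h2
    filter_upwards [eventually_gt_atTop j] with n hn
    exact chi_eventually_zero_ball hn hj
  · exact Eventually.of_forall fun n => chi_eventually_zero_outside n h

lemma chiLim_zero {z : ℂ} (hz : z ∉ cheese) : chiLim z = 0 := by
  refine Tendsto.limUnder_eq ?_
  refine tendsto_const_nhds.congr' ?_
  filter_upwards [eventually_zero_of_notMem hz] with n hn
  have : chi n z = 0 := hn.self_of_nhds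
  rw [chi_eq] at this
  exact_mod_cast this.symm

lemma psiLim_zero {z : ℂ} (hz : z ∉ cheese) : psiLim z = 0 := by
  refine Tendsto.limUnder_eq ?_
  refine tendsto_const_nhds.congr' ?_
  filter_upwards [eventually_zero_of_notMem hz] with n hn
  rw [dbar_congr hn, dbar_const]

lemma continuous_chir (n : ℕ) : Continuous (chir n) := by
  have h1 := (contDiff_chi n).continuous
  have h2 : chir n = fun z => (chi n z).re := by
    ext z; rw [chi_eq]; simp
  rw [h2]
  exact Complex.continuous_re.comp h1

/-- bound for the partial products -/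
noncomputable def bd (z : ℂ) : ℝ := (Metric.closedBall (0 : ℂ) 2).indicator (fun _ => (1 : ℝ)) z

lemma integrable_ind (a : ℂ) (R : ℝ) :
    Integrable ((Metric.closedBall a R).indicator (fun _ => (1 : ℝ))) := by
  rw [integrable_indicator_iff measurableSet_closedBall]
  exact integrableOn_const measure_closedBall_lt_top.ne (by simp)

lemma integrable_bd : Integrable bd := integrable_ind 0 2

lemma norm_chir_le_bd (n : ℕ) (z : ℂ) : ‖chir n z‖ ≤ bd z := by
  unfold bd
  by_cases h : z ∈ Metric.closedBall (0 : ℂ) 2
  · rw [indicator_of_mem h, Real.norm_eq_abs, abs_of_nonneg (chir_nonneg n z)]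
    exact chir_le_one n z
  · rw [indicator_of_notMem h]
    have : chi n z = 0 := (chi_eventually_zero_outside n h).self_of_nhds
    rw [chi_eq] at this
    have h0 : chir n z = 0 := by exact_mod_cast this
    simp [h0]

lemma aesm_chiLim : AEStronglyMeasurable chiLim volume :=
  aestronglyMeasurable_of_tendsto_ae atTop (f := fun n => chir n)
    (fun n => (continuous_chir n).aestronglyMeasurable)
    (by filter_upwards [ae_good] with z hz; exact tendsto_chir hz)

lemma norm_chiLim_le : ∀ᵐ z, ‖chiLim z‖ ≤ bd z := by
  filter_upwards [ae_good] with z hz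
  exact le_of_tendsto (tendsto_chir hz).norm (Eventually.of_forall fun n => norm_chir_le_bd n z)

lemma integrable_chiLim : Integrable chiLim :=
  Integrable.mono' integrable_bd aesm_chiLim norm_chiLim_le

/-- the sum of the derivative bounds -/
noncomputable def Gs (z : ℂ) : ENNReal := ∑' j, ENNReal.ofReal ‖dbar (T (cen j) (rad j)) z‖

lemma dbar_T_zero (j : ℕ) {z : ℂ} (hz : z ∉ Metric.closedBall (cen j) (2 * rad j)) :
    dbar (T (cen j) (rad j)) z = 0 := by
  rw [dbar_congr (T_eventually_zero (rad_pos j) hz), dbar_const]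

lemma lintegral_Gs : ∫⁻ z, Gs z ≠ ⊤ := by
  obtain ⟨B, hB, hBT⟩ := exists_bound_dbar_T
  unfold Gs
  rw [lintegral_tsum]
  · have h1 : ∀ j : ℕ, ∫⁻ z, ENNReal.ofReal ‖dbar (T (cen j) (rad j)) z‖
        ≤ ENNReal.ofReal (B * Real.pi / 2 * (1 / 2) ^ j) := by
      intro j
      calc ∫⁻ z, ENNReal.ofReal ‖dbar (T (cen j) (rad j)) z‖
          ≤ ∫⁻ z, (Metric.closedBall (cen j) (2 * rad j)).indicator
              (fun _ => ENNReal.ofReal (B / rad j)) z := by
            refine lintegral_mono fun z => ?_
            by_cases h : z ∈ Metric.closedBall (cen j) (2 * rad j)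
            · rw [indicator_of_mem h]
              exact ENNReal.ofReal_le_ofReal (hBT _ _ (rad_pos j) z)
            · rw [indicator_of_notMem h, dbar_T_zero j h]
              simp
        _ = ENNReal.ofReal (B / rad j) * volume (Metric.closedBall (cen j) (2 * rad j)) := by
            rw [lintegral_indicator measurableSet_closedBall, setLIntegral_const]
        _ = ENNReal.ofReal (B * Real.pi / 2 * (1 / 2) ^ j) := by
            rw [volume_cb, ← ENNReal.ofReal_mul (by have := rad_pos j; positivity)]
            congr 1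
            unfold rad
            have : ((1 : ℝ) / 4) ^ j = ((1 / 2) ^ j) ^ 2 := by
              rw [← pow_mul, mul_comm, pow_mul]; norm_num
            rw [this]
            field_simp
            ring
    have hs : Summable fun j : ℕ => B * Real.pi / 2 * (1 / 2 : ℝ) ^ j :=
      (summable_geometric_of_lt_one (by norm_num) (by norm_num)).mul_left _
    exact ne_top_of_le_ne_top hs.tsum_ofReal_ne_top (ENNReal.tsum_le_tsum h1)
  · intro j
    have : Continuous (dbar (T (cen j) (rad j))) := continuous_dbar (contDiff_T _ _)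
    exact (this.norm.measurable.ennreal_ofReal).aemeasurable

lemma measurable_Gs : Measurable Gs := by
  unfold Gs
  refine Measurable.tsum fun j => ?_
  have : Continuous (dbar (T (cen j) (rad j))) := continuous_dbar (contDiff_T _ _)
  exact this.norm.measurable.ennreal_ofReal

lemma dbar_β_hasCompactSupport : HasCompactSupport (dbar β) := by
  refine HasCompactSupport.intro hasCompactSupport_β.isCompact fun w hw => ?_
  have : β =ᶠ[𝓝 w] fun _ => 0 := notMem_tsupport_iff_eventuallyEq.mp hw
  rw [dbar_congr this, dbar_const]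

/-- integrable bound -/
noncomputable def G (z : ℂ) : ℝ := ‖dbar β z‖ + (Gs z).toReal

lemma integrable_G : Integrable G := by
  refine Integrable.add ?_ ?_
  · exact ((continuous_dbar contDiff_β).integrable_of_hasCompactSupport
      dbar_β_hasCompactSupport).norm
  · exact integrable_toReal_of_lintegral_ne_top measurable_Gs.aemeasurable lintegral_Gs

lemma norm_dbar_chi_le_G : ∀ᵐ z, ∀ n, ‖dbar (chi n) z‖ ≤ G z := by
  have h1 : ∀ᵐ z, Gs z < ⊤ := ae_lt_top measurable_Gs lintegral_Gs
  filter_upwards [h1] with z hz n
  refine (norm_dbar_chi_le n z).trans ?_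
  unfold G
  refine add_le_add le_rfl ?_
  rw [← ENNReal.ofReal_le_iff_le_toReal hz.ne, ENNReal.ofReal_sum_of_nonneg (fun _ _ => norm_nonneg _)]
  exact ENNReal.sum_le_tsum _

lemma aesm_psiLim : AEStronglyMeasurable psiLim volume :=
  aestronglyMeasurable_of_tendsto_ae atTop (f := fun n => dbar (chi n))
    (fun n => (continuous_dbar (contDiff_chi n)).aestronglyMeasurable)
    (by filter_upwards [ae_good] with z hz; exact tendsto_dbar_chi hz)

lemma integrable_psiLim : Integrable psiLim := by
  refine Integrable.mono' integrable_G aesm_psiLim ?_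
  filter_upwards [ae_good, norm_dbar_chi_le_G] with z hz hz2
  exact le_of_tendsto (tendsto_dbar_chi hz).norm (Eventually.of_forall hz2)

lemma hasCompactSupport_chi (n : ℕ) : HasCompactSupport (chi n) :=
  HasCompactSupport.intro (isCompact_closedBall (0 : ℂ) 2) fun _ hw =>
    (chi_eventually_zero_outside n hw).self_of_nhds

/-- integration by parts for one partial product -/
lemma parts_chi (n : ℕ) (φ : ℂ → ℂ) (hφ : ContDiff ℝ 1 φ) :
    ∫ z, φ z * dbar (chi n) z = -∫ z, (chi n z) * dbar φ z := by
  have hχ := contDiff_chi n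
  have hχc := hasCompactSupport_chi n
  have hφf := hφ.continuous_fderiv (by norm_num)
  have hχf := hχ.continuous_fderiv (by norm_num)
  have hφc := hφ.continuous
  have hχcont := hχ.continuous
  have i1 : ∀ v : ℂ, Integrable (fun z => fderiv ℝ φ z v * chi n z) := by
    intro v
    refine Continuous.integrable_of_hasCompactSupport (by fun_prop) ?_
    exact hχc.mul_left
  have i2 : ∀ v : ℂ, Integrable (fun z => φ z * fderiv ℝ (chi n) z v) := by
    intro v
    refine Continuous.integrable_of_hasCompactSupport (by fun_prop) ?_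
    refine HasCompactSupport.mul_left ?_
    exact (hχc.fderiv ℝ).comp_left (g := fun T : ℂ →L[ℝ] ℂ => T v) (by simp)
  have i3 : Integrable (fun z => φ z * chi n z) :=
    Continuous.integrable_of_hasCompactSupport (by fun_prop) hχc.mul_left
  have key : ∀ v : ℂ, ∫ z, φ z * fderiv ℝ (chi n) z v = -∫ z, fderiv ℝ φ z v * chi n z := by
    intro v
    exact integral_mul_fderiv_eq_neg_fderiv_mul_of_integrable (i1 v) (i2 v) i3
      (fun z _ => hφ.differentiable (by norm_num) z) (fun z _ => hχ.differentiable (by norm_num) z)
  have e1 : ∫ z, φ z * dbar (chi n) z = (1 / 2 : ℂ) * ((∫ z, φ z * fderiv ℝ (chi n) z 1)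
      + Complex.I * ∫ z, φ z * fderiv ℝ (chi n) z Complex.I) := by
    rw [← integral_const_mul Complex.I, ← integral_add (i2 _) ((i2 _).const_mul _),
      ← integral_const_mul]
    congr 1; ext z; simp only [dbar]; ring
  have e2 : ∫ z, (chi n z) * dbar φ z = (1 / 2 : ℂ) * ((∫ z, fderiv ℝ φ z 1 * chi n z)
      + Complex.I * ∫ z, fderiv ℝ φ z Complex.I * chi n z) := by
    rw [← integral_const_mul Complex.I, ← integral_add (i1 _) ((i1 _).const_mul _),
      ← integral_const_mul]
    congr 1; ext z; simp only [dbar]; ring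
  rw [e1, e2, key, key]
  ring

lemma dbar_chi_zero_outside (n : ℕ) {z : ℂ} (hz : z ∉ Metric.closedBall (0 : ℂ) 2) :
    dbar (chi n) z = 0 := by
  rw [dbar_congr (chi_eventually_zero_outside n hz), dbar_const]

lemma parts_lim (φ : ℂ → ℂ) (hφ : ContDiff ℝ 1 φ) :
    ∫ z, φ z * psiLim z = -∫ z, ((chiLim z : ℝ) : ℂ) * dbar φ z := by
  obtain ⟨M₁, hM₁⟩ := (isCompact_closedBall (0 : ℂ) 2).exists_bound_of_continuousOn
    hφ.continuous.continuousOn
  obtain ⟨M₂, hM₂⟩ := (isCompact_closedBall (0 : ℂ) 2).exists_bound_of_continuousOn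
    (continuous_dbar hφ).continuousOn
  have l1 : Tendsto (fun n => ∫ z, φ z * dbar (chi n) z) atTop (𝓝 (∫ z, φ z * psiLim z)) := by
    refine tendsto_integral_of_dominated_convergence (fun z => M₁ * G z) ?_ (integrable_G.const_mul _)
      ?_ ?_
    · intro n
      exact (hφ.continuous.mul (continuous_dbar (contDiff_chi n))).aestronglyMeasurable
    · intro n
      filter_upwards [norm_dbar_chi_le_G] with z hz
      by_cases h : z ∈ Metric.closedBall (0 : ℂ) 2
      · rw [norm_mul]
        exact mul_le_mul (hM₁ z h) (hz n) (norm_nonneg _) ((norm_nonneg _).trans (hM₁ z h))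
      · rw [dbar_chi_zero_outside n h, mul_zero, norm_zero]
        refine mul_nonneg ?_ ((norm_nonneg _).trans (hz 0))
        exact (norm_nonneg _).trans (hM₁ 0 (by simp))
    · filter_upwards [ae_good] with z hz
      exact tendsto_const_nhds.mul (tendsto_dbar_chi hz)
  have l2 : Tendsto (fun n => ∫ z, chi n z * dbar φ z) atTop
      (𝓝 (∫ z, ((chiLim z : ℝ) : ℂ) * dbar φ z)) := by
    refine tendsto_integral_of_dominated_convergence (fun z => bd z * M₂) ?_
      (integrable_bd.mul_const _) ?_ ?_
    · intro n
      exact ((contDiff_chi n).continuous.mul (continuous_dbar hφ)).aestronglyMeasurable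
    · intro n
      refine Eventually.of_forall fun z => ?_
      rw [norm_mul, chi_eq, Complex.norm_real]
      by_cases h : z ∈ Metric.closedBall (0 : ℂ) 2
      · exact mul_le_mul (norm_chir_le_bd n z) (hM₂ z h) (norm_nonneg _)
          ((norm_nonneg _).trans (norm_chir_le_bd n z))
      · have h0 : bd z = 0 := indicator_of_notMem h _
        have h1 := norm_chir_le_bd n z
        rw [h0] at h1 ⊢
        have h2 : ‖chir n z‖ = 0 := le_antisymm h1 (norm_nonneg _)
        rw [h2]; simp
    · filter_upwards [ae_good] with z hz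
      refine Tendsto.mul ?_ tendsto_const_nhds
      have := (Complex.continuous_ofReal.tendsto _).comp (tendsto_chir hz)
      refine this.congr fun n => ?_
      rw [chi_eq]; rfl
  have l3 := l2.neg
  exact tendsto_nhds_unique (l1.congr fun n => parts_chi n φ hφ) l3

lemma integral_chir_lower (n : ℕ) : (2 : ℝ) ≤ ∫ z, chir n z := by
  have hb : Integrable (bump : ℂ → ℝ) := bump.integrable
  have hTi : ∀ j, Integrable (Tr (cen j) (rad j)) := by
    intro j
    have h1 := integrable_ind (cen j) (2 * rad j)
    refine Integrable.mono' h1 ?_ ?_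
    · have h2 := (contDiff_T (cen j) (rad j)).continuous
      have h3 : Tr (cen j) (rad j) = fun z => (T (cen j) (rad j) z).re := by
        ext z; rw [T_eq]; simp
      rw [h3]
      exact (Complex.continuous_re.comp h2).aestronglyMeasurable
    · refine Eventually.of_forall fun z => ?_
      rw [Real.norm_eq_abs, abs_of_nonneg (Tr_nonneg _ _ _)]
      by_cases h : z ∈ Metric.closedBall (cen j) (2 * rad j)
      · rw [indicator_of_mem h]; exact Tr_le_one _ _ _
      · rw [indicator_of_notMem h]
        have : T (cen j) (rad j) z = 0 := (T_eventually_zero (rad_pos j) h).self_of_nhds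
        rw [T_eq] at this
        have h0 : Tr (cen j) (rad j) z = 0 := by exact_mod_cast this
        exact h0.le
  have hTle : ∀ j, ∫ z, Tr (cen j) (rad j) z ≤ Real.pi / 16 * (1 / 4) ^ j := by
    intro j
    have h1 := integrable_ind (cen j) (2 * rad j)
    calc ∫ z, Tr (cen j) (rad j) z
        ≤ ∫ z, (Metric.closedBall (cen j) (2 * rad j)).indicator (fun _ => (1 : ℝ)) z := by
          refine integral_mono (hTi j) h1 fun z => ?_
          by_cases h : z ∈ Metric.closedBall (cen j) (2 * rad j)
          · rw [indicator_of_mem h]; exact Tr_le_one _ _ _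
          · rw [indicator_of_notMem h]
            have : T (cen j) (rad j) z = 0 := (T_eventually_zero (rad_pos j) h).self_of_nhds
            rw [T_eq] at this
            have h0 : Tr (cen j) (rad j) z = 0 := by exact_mod_cast this
            exact h0.le
      _ = volume.real (Metric.closedBall (cen j) (2 * rad j)) := by
          rw [integral_indicator measurableSet_closedBall, setIntegral_const]
          simp
      _ = Real.pi / 16 * (1 / 4) ^ j := by
          rw [Measure.real, volume_cb, ENNReal.toReal_ofReal (by positivity)]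
  have hble : Real.pi ≤ ∫ z, bump z := by
    have h1 := integrable_ind 0 1
    calc Real.pi = volume.real (Metric.closedBall (0 : ℂ) 1) := by
          rw [Measure.real, Complex.volume_closedBall]
          simp
      _ = ∫ z, (Metric.closedBall (0 : ℂ) 1).indicator (fun _ => (1 : ℝ)) z := by
          rw [integral_indicator measurableSet_closedBall, setIntegral_const]
          simp
      _ ≤ ∫ z, bump z := by
          refine integral_mono h1 hb fun z => ?_
          by_cases h : z ∈ Metric.closedBall (0 : ℂ) 1
          · rw [indicator_of_mem h]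
            exact (bump.one_of_mem_closedBall (by simpa [bump] using h)).ge
          · rw [indicator_of_notMem h]
            exact bump.nonneg
  have hchi : Integrable (chir n) :=
    Integrable.mono' integrable_bd (continuous_chir n).aestronglyMeasurable
      (Eventually.of_forall fun z => norm_chir_le_bd n z)
  have hsum : Integrable (fun z => ∑ j ∈ Finset.range n, Tr (cen j) (rad j) z) :=
    integrable_finsetSum _ fun j _ => hTi j
  have h1 : (∫ z, bump z) - ∑ j ∈ Finset.range n, ∫ z, Tr (cen j) (rad j) z ≤ ∫ z, chir n z := by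
    rw [← integral_finsetSum _ fun j _ => hTi j, ← integral_sub hb hsum]
    exact integral_mono (hb.sub hsum) hchi fun z => chir_lower n z
  have h2 : ∑ j ∈ Finset.range n, ∫ z, Tr (cen j) (rad j) z ≤ Real.pi / 12 := by
    calc ∑ j ∈ Finset.range n, ∫ z, Tr (cen j) (rad j) z
        ≤ ∑ j ∈ Finset.range n, Real.pi / 16 * (1 / 4) ^ j := Finset.sum_le_sum fun j _ => hTle j
      _ = Real.pi / 16 * ∑ j ∈ Finset.range n, (1 / 4 : ℝ) ^ j := by rw [Finset.mul_sum]
      _ ≤ Real.pi / 16 * (4 / 3) := by
          refine mul_le_mul_of_nonneg_left ?_ (by positivity)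
          have h3 := (summable_geometric_of_lt_one (r := (1 / 4 : ℝ)) (by norm_num) (by norm_num)).sum_le_tsum
            (Finset.range n) (fun j _ => by positivity)
          rw [tsum_geometric_of_lt_one (by norm_num) (by norm_num)] at h3
          norm_num at h3 ⊢
          exact h3
      _ = Real.pi / 12 := by ring
  have h3 := Real.pi_gt_three
  linarith

lemma integral_chiLim_pos : 0 < ∫ z, chiLim z := by
  have l : Tendsto (fun n => ∫ z, chir n z) atTop (𝓝 (∫ z, chiLim z)) := by
    refine tendsto_integral_of_dominated_convergence bd ?_ integrable_bd ?_ ?_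
    · exact fun n => (continuous_chir n).aestronglyMeasurable
    · exact fun n => Eventually.of_forall fun z => norm_chir_le_bd n z
    · filter_upwards [ae_good] with z hz
      exact tendsto_chir hz
  have := ge_of_tendsto l (Eventually.of_forall fun n => integral_chir_lower n)
  linarith

/-- the data -/
noncomputable def data : CheeseData where
  K := cheese
  hK := isCompact_cheese
  hKi := interior_cheese
  χ := fun z => ((chiLim z : ℝ) : ℂ)
  ψ := psiLim
  hχ := integrable_chiLim.ofReal
  hψ := integrable_psiLim
  hχK := Eventually.of_forall fun z hz => by rw [chiLim_zero hz]; simp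
  hψK := Eventually.of_forall fun z hz => psiLim_zero hz
  parts := parts_lim
  m := ∫ z, chiLim z
  hm := integral_chiLim_pos
  hχm := integral_ofReal

end Pool.Agent.H51.Carpet
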