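import Pool.Agent.H51.Carpet.Good

set_option autoImplicit false
set_option linter.unusedSectionVars false

open Set Topology

namespace Pool.Agent.H51.Carpet

/-- The double cover `y ^ 2 = f`. -/
def DC {X : Type} [TopologicalSpace X] (f : C(X, ℂ)) : Type := {q : X × ℂ // q.2 ^ 2 = f q.1}

namespace DC

variable {X : Type} [TopologicalSpace X] (f : C(X, ℂ))

instance : TopologicalSpace (DC f) := inferInstanceAs (TopologicalSpace {q : X × ℂ // q.2 ^ 2 = f q.1})

instance [T2Space X] : T2Space (DC f) := inferInstanceAs (T2Space {q : X × ℂ // q.2 ^ 2 = f q.1})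

instance [SecondCountableTopology X] : SecondCountableTopology (DC f) :=
  TopologicalSpace.Subtype.secondCountableTopology {q : X × ℂ | q.2 ^ 2 = f q.1}

instance [CompactSpace X] : CompactSpace (DC f) := by
  have hcl : IsClosed {q : X × ℂ | q.2 ^ 2 = f q.1} := by
    apply isClosed_eq <;> fun_prop
  have hsub : {q : X × ℂ | q.2 ^ 2 = f q.1} ⊆ univ ×ˢ Metric.closedBall (0 : ℂ) (‖f‖ + 1) := by
    rintro ⟨x, y⟩ hq
    simp only [mem_ofPred_eq] at hq
    refine ⟨mem_univ _, ?_⟩
    rw [mem_closedBall_zero_iff]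
    by_contra hcon
    push Not at hcon
    have h1 : ‖y‖ ^ 2 ≤ ‖f‖ := by
      rw [← norm_pow, hq]
      exact ContinuousMap.norm_coe_le_norm f x
    have h2 : 0 ≤ ‖f‖ := norm_nonneg _
    change ‖f‖ + 1 < ‖y‖ at hcon
    nlinarith
  have hc : IsCompact {q : X × ℂ | q.2 ^ 2 = f q.1} :=
    (isCompact_univ.prod (isCompact_closedBall _ _)).of_isClosed_subset hcl hsub
  exact isCompact_iff_compactSpace.mp hc

/-- projection -/
def proj : C(DC f, X) := ⟨fun q => q.1.1, by
  exact continuous_fst.comp continuous_subtype_val⟩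

/-- root -/
def root : C(DC f, ℂ) := ⟨fun q => q.1.2, by
  exact continuous_snd.comp continuous_subtype_val⟩

/-- sheet exchange -/
def flip : C(DC f, DC f) := ⟨fun q => ⟨(q.1.1, -q.1.2), by
    have := q.2
    simpa using this⟩, by
  refine Continuous.subtype_mk ?_ _
  refine Continuous.prodMk ?_ ?_
  · exact continuous_fst.comp continuous_subtype_val
  · exact (continuous_snd.comp continuous_subtype_val).neg⟩

@[simp] lemma proj_flip (q : DC f) : proj f (flip f q) = proj f q := rfl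
@[simp] lemma root_flip (q : DC f) : root f (flip f q) = -root f q := rfl

lemma root_sq (q : DC f) : root f q ^ 2 = f (proj f q) := q.2

lemma ext' {q q' : DC f} (h1 : proj f q = proj f q') (h2 : root f q = root f q') : q = q' :=
  Subtype.ext (Prod.ext h1 h2)

@[simp] lemma flip_flip (q : DC f) : flip f (flip f q) = q := by
  apply ext' <;> simp

lemma proj_surjective : Function.Surjective (proj f) := by
  intro x
  obtain ⟨z, hz⟩ := IsAlgClosed.exists_pow_nat_eq (f x) (n := 2) (by norm_num)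
  exact ⟨⟨(x, z), hz⟩, rfl⟩

lemma fiber {q q' : DC f} (h : proj f q = proj f q') : q = q' ∨ q = flip f q' := by
  have h1 := root_sq f q
  have h2 := root_sq f q'
  rw [h, ← h2] at h1
  rcases sq_eq_sq_iff_eq_or_eq_neg.mp h1 with h3 | h3
  · left; exact ext' f h h3
  · right; exact ext' f (by simpa using h) (by simpa using h3)

variable [CompactSpace X] [T2Space X]

lemma isQuotientMap_proj : IsQuotientMap (proj f) :=
  ((proj f).continuous.isClosedMap).isQuotientMap (proj f).continuous (proj_surjective f)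

lemma exists_desc (F : C(DC f, ℂ)) (hF : ∀ q, F (flip f q) = F q) :
    ∃ a : C(X, ℂ), ∀ q, a (proj f q) = F q := by
  have hfac : Function.FactorsThrough F (proj f) := by
    intro q q' h
    rcases fiber f h with h | h
    · rw [h]
    · rw [h, hF]
  refine ⟨(isQuotientMap_proj f).lift F hfac, fun q => ?_⟩
  have := (isQuotientMap_proj f).lift_comp F hfac
  exact congrArg (fun w : C(DC f, ℂ) => w q) this

/-- `a + b y` -/
noncomputable def E (a b : C(X, ℂ)) : C(DC f, ℂ) := a.comp (proj f) + b.comp (proj f) * root f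

@[simp] lemma E_apply (a b : C(X, ℂ)) (q : DC f) :
    E f a b q = a (proj f q) + b (proj f q) * root f q := rfl

lemma exists_even (F : C(DC f, ℂ)) :
    ∃ a : C(X, ℂ), ∀ q, a (proj f q) = (1 / 2 : ℂ) * (F q + F (flip f q)) := by
  refine exists_desc f ((1 / 2 : ℂ) • (F + F.comp (flip f))) ?_
  intro q
  simp
  ring

variable {f} in
lemma root_ne (hf : ∀ x, f x ≠ 0) (q : DC f) : root f q ≠ 0 := by
  intro h
  apply hf (proj f q)
  rw [← root_sq, h]
  simp

lemma exists_odd (hf : ∀ x, f x ≠ 0) (F : C(DC f, ℂ)) :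
    ∃ b : C(X, ℂ), ∀ q, b (proj f q) = (1 / 2 : ℂ) * (F q - F (flip f q)) / root f q := by
  refine exists_desc f ⟨fun q => (1 / 2 : ℂ) * (F q - F (flip f q)) / root f q, ?_⟩ ?_
  · refine Continuous.div ?_ (root f).continuous (root_ne hf)
    fun_prop
  · intro q
    simp only [ContinuousMap.coe_mk, flip_flip, root_flip]
    have := root_ne hf q
    field_simp
    ring

/-- even part -/
noncomputable def even (F : C(DC f, ℂ)) : C(X, ℂ) := (exists_even f F).choose

lemma even_spec (F : C(DC f, ℂ)) (q : DC f) :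
    even f F (proj f q) = (1 / 2 : ℂ) * (F q + F (flip f q)) := (exists_even f F).choose_spec q

variable {f}

/-- odd part -/
noncomputable def odd (hf : ∀ x, f x ≠ 0) (F : C(DC f, ℂ)) : C(X, ℂ) := (exists_odd f hf F).choose

lemma odd_spec (hf : ∀ x, f x ≠ 0) (F : C(DC f, ℂ)) (q : DC f) :
    odd hf F (proj f q) = (1 / 2 : ℂ) * (F q - F (flip f q)) / root f q :=
  (exists_odd f hf F).choose_spec q

lemma E_even_odd (hf : ∀ x, f x ≠ 0) (F : C(DC f, ℂ)) : E f (even f F) (odd hf F) = F := by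
  ext q
  rw [E_apply, even_spec, odd_spec, div_mul_cancel₀ _ (root_ne hf q)]
  ring

lemma even_E (a b : C(X, ℂ)) : even f (E f a b) = a := by
  ext x
  obtain ⟨q, rfl⟩ := proj_surjective f x
  rw [even_spec]
  simp
  ring

lemma odd_E (hf : ∀ x, f x ≠ 0) (a b : C(X, ℂ)) : odd hf (E f a b) = b := by
  ext x
  obtain ⟨q, rfl⟩ := proj_surjective f x
  rw [odd_spec]
  have := root_ne hf q
  simp
  field_simp
  ring

lemma continuous_even : Continuous (even f) := by
  refine LipschitzWith.continuous (K := 1) (LipschitzWith.of_dist_le_mul fun F G => ?_)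
  rw [NNReal.coe_one, one_mul, ContinuousMap.dist_le dist_nonneg]
  intro x
  obtain ⟨q, rfl⟩ := proj_surjective f x
  rw [even_spec, even_spec, dist_eq_norm]
  have h1 : ‖F q - G q‖ ≤ dist F G := by rw [← dist_eq_norm]; exact ContinuousMap.dist_apply_le_dist q
  have h2 : ‖F (flip f q) - G (flip f q)‖ ≤ dist F G := by
    rw [← dist_eq_norm]; exact ContinuousMap.dist_apply_le_dist (flip f q)
  have e : (1 / 2 : ℂ) * (F q + F (flip f q)) - (1 / 2 : ℂ) * (G q + G (flip f q))
      = (1 / 2 : ℂ) * ((F q - G q) + (F (flip f q) - G (flip f q))) := by ring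
  rw [e, norm_mul]
  have h3 := norm_add_le (F q - G q) (F (flip f q) - G (flip f q))
  have h4 : ‖(1 / 2 : ℂ)‖ = 1 / 2 := by norm_num
  rw [h4]
  linarith

lemma continuous_odd (hf : ∀ x, f x ≠ 0) : Continuous (odd hf) := by
  obtain ⟨δ, hδ, hδf⟩ := exists_pos_le_norm (root f) (root_ne hf)
  refine LipschitzWith.continuous (K := Real.toNNReal (1 / δ))
    (LipschitzWith.of_dist_le_mul fun F G => ?_)
  rw [Real.coe_toNNReal _ (by positivity), ContinuousMap.dist_le (by positivity)]
  intro x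
  obtain ⟨q, rfl⟩ := proj_surjective f x
  rw [odd_spec, odd_spec, dist_eq_norm]
  have h1 : ‖F q - G q‖ ≤ dist F G := by rw [← dist_eq_norm]; exact ContinuousMap.dist_apply_le_dist q
  have h2 : ‖F (flip f q) - G (flip f q)‖ ≤ dist F G := by
    rw [← dist_eq_norm]; exact ContinuousMap.dist_apply_le_dist (flip f q)
  have e : (1 / 2 : ℂ) * (F q - F (flip f q)) / root f q - (1 / 2 : ℂ) * (G q - G (flip f q)) / root f q
      = (1 / 2 : ℂ) * ((F q - G q) - (F (flip f q) - G (flip f q))) / root f q := by ring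
  rw [e, norm_div, norm_mul]
  have h3 := norm_sub_le (F q - G q) (F (flip f q) - G (flip f q))
  have h4 : ‖(1 / 2 : ℂ)‖ = 1 / 2 := by norm_num
  rw [h4, div_le_iff₀ (norm_pos_iff.mpr (root_ne hf q))]
  have h5 := hδf q
  have h6 : (0 : ℝ) ≤ dist F G := dist_nonneg
  calc 1 / 2 * ‖F q - G q - (F (flip f q) - G (flip f q))‖ ≤ dist F G := by linarith
    _ = 1 / δ * dist F G * δ := by field_simp
    _ ≤ 1 / δ * dist F G * ‖root f q‖ := by
      apply mul_le_mul_of_nonneg_left h5
      positivity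

lemma continuous_E : Continuous fun p : C(X, ℂ) × C(X, ℂ) => E f p.1 p.2 := by
  unfold E
  fun_prop

/-- The algebra of pairs on the double cover -/
def lift (hf : ∀ x, f x ≠ 0) (Γ : Set (C(X, ℂ) × C(X, ℂ))) : Set (C(DC f, ℂ) × C(DC f, ℂ)) :=
  {p | (even f p.1, even f p.2) ∈ Γ ∧ (odd hf p.1, odd hf p.2) ∈ Γ}

lemma mem_lift_E (hf : ∀ x, f x ≠ 0) {Γ : Set (C(X, ℂ) × C(X, ℂ))} {a b α β : C(X, ℂ)} :
    (E f a b, E f α β) ∈ lift hf Γ ↔ (a, α) ∈ Γ ∧ (b, β) ∈ Γ := by
  simp [lift, even_E, odd_E]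

lemma mem_lift (hf : ∀ x, f x ≠ 0) {Γ : Set (C(X, ℂ) × C(X, ℂ))} {p : C(DC f, ℂ) × C(DC f, ℂ)}
    (hp : p ∈ lift hf Γ) : ∃ a b α β, (a, α) ∈ Γ ∧ (b, β) ∈ Γ ∧ p = (E f a b, E f α β) := by
  refine ⟨even f p.1, odd hf p.1, even f p.2, odd hf p.2, hp.1, hp.2, ?_⟩
  rw [E_even_odd, E_even_odd]

lemma dense_not_sq (f : C(X, ℂ)) (hX : Dense {u : C(X, ℂ) | ∀ x, u x ≠ 0}) :
    Dense {c : C(X, ℂ) | ∀ x, c x ^ 2 ≠ f x} := by
  rw [← dense_closure]
  refine hX.mono ?_
  intro c hc
  simp only [mem_ofPred_eq] at hc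
  rw [Metric.mem_closure_iff]
  intro ε hε
  obtain ⟨m, hm, hmc⟩ := exists_pos_le_norm c hc
  -- perturb c^2 - f
  set ε₁ : ℝ := min (m ^ 2 / 2) (ε * m ^ 2 / (2 * (‖c‖ + 1))) with hε₁
  have hε₁pos : 0 < ε₁ := by
    have : 0 ≤ ‖c‖ := norm_nonneg _
    positivity
  obtain ⟨h', hh'1, hh'2⟩ := Metric.dense_iff.mp hX (c ^ 2 - f) ε₁ hε₁pos
  rw [Metric.mem_ball, dist_eq_norm] at hh'1
  simp only [mem_ofPred_eq] at hh'2
  let t : C(X, ℂ) := ⟨fun x => (h' x - (c x ^ 2 - f x)) / c x ^ 2, by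
    refine Continuous.div (by fun_prop) (by fun_prop) fun x => pow_ne_zero 2 (hc x)⟩
  have hnum : ∀ x, ‖h' x - (c x ^ 2 - f x)‖ < ε₁ := fun x =>
    lt_of_le_of_lt (ContinuousMap.norm_coe_le_norm (h' - (c ^ 2 - f)) x) hh'1
  have hcx2 : ∀ x, m ^ 2 ≤ ‖c x‖ ^ 2 := fun x => pow_le_pow_left₀ hm.le (hmc x) 2
  have ht : ∀ x, ‖t x‖ ≤ ε₁ / m ^ 2 := by
    intro x
    simp only [t, ContinuousMap.coe_mk, norm_div, norm_pow]
    exact div_le_div₀ hε₁pos.le (hnum x).le (by positivity) (hcx2 x)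
  have ht2 : ∀ x, ‖t x‖ ≤ 1 / 2 := by
    intro x
    refine (ht x).trans ?_
    rw [div_le_iff₀ (by positivity)]
    have := min_le_left (m ^ 2 / 2) (ε * m ^ 2 / (2 * (‖c‖ + 1)))
    rw [← hε₁] at this
    linarith
  have hslit : ∀ x, 1 + t x ∈ Complex.slitPlane := fun x =>
    Complex.mem_slitPlane_of_norm_lt_one (lt_of_le_of_lt (ht2 x) (by norm_num))
  let r : C(X, ℂ) := ⟨fun x => Complex.exp (Complex.log (1 + t x) / 2), by
    refine Complex.continuous_exp.comp ?_
    refine Continuous.div_const ?_ _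
    exact Continuous.clog (by fun_prop) hslit⟩
  have hr2 : ∀ x, r x ^ 2 = 1 + t x := by
    intro x
    simp only [r, ContinuousMap.coe_mk]
    rw [← Complex.exp_nat_mul]
    have : ((2 : ℕ) : ℂ) * (Complex.log (1 + t x) / 2) = Complex.log (1 + t x) := by
      push_cast; ring
    rw [this, Complex.exp_log (Complex.slitPlane_ne_zero (hslit x))]
  have hrre : ∀ x, 0 ≤ (r x).re := by
    intro x
    simp only [r, ContinuousMap.coe_mk]
    rw [Complex.exp_re]
    refine mul_nonneg (Real.exp_pos _).le ?_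
    apply Real.cos_nonneg_of_mem_Icc
    have h1 : (Complex.log (1 + t x) / 2).im = (Complex.log (1 + t x)).im / 2 := by
      have : (2 : ℂ) = ((2 : ℝ) : ℂ) := by norm_num
      rw [this, Complex.div_ofReal_im]
    rw [h1, Complex.log_im]
    have h2 := Complex.neg_pi_lt_arg (1 + t x)
    have h3 := Complex.arg_le_pi (1 + t x)
    constructor <;> linarith
  have hr1 : ∀ x, ‖r x - 1‖ ≤ ‖t x‖ := by
    intro x
    have e : (r x - 1) * (r x + 1) = t x := by
      have := hr2 x
      linear_combination this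
    have h1 : 1 ≤ ‖r x + 1‖ := by
      have h2 := Complex.abs_re_le_norm (r x + 1)
      have h3 : (r x + 1).re = (r x).re + 1 := by simp
      rw [h3] at h2
      have h4 := hrre x
      rw [abs_of_nonneg (by linarith)] at h2
      linarith
    calc ‖r x - 1‖ ≤ ‖r x - 1‖ * ‖r x + 1‖ := le_mul_of_one_le_right (norm_nonneg _) h1
      _ = ‖t x‖ := by rw [← norm_mul, e]
  refine ⟨c * r, ?_, ?_⟩
  · intro x
    rw [ContinuousMap.mul_apply, mul_pow, hr2 x]
    have h1 : c x ^ 2 * (1 + t x) = f x + h' x := by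
      simp only [t, ContinuousMap.coe_mk]
      have := hc x
      field_simp
      ring
    rw [h1]
    intro h2
    apply hh'2 x
    linear_combination h2
  · rw [dist_eq_norm, ContinuousMap.norm_lt_iff _ hε]
    intro x
    have e : (c - c * r) x = -(c x * (r x - 1)) := by
      simp; ring
    rw [e, norm_neg, norm_mul]
    have h1 : ‖c x‖ ≤ ‖c‖ := ContinuousMap.norm_coe_le_norm _ _
    have h2 : ‖r x - 1‖ ≤ ε₁ / m ^ 2 := (hr1 x).trans (ht x)
    have h3 : ε₁ / m ^ 2 ≤ ε / (2 * (‖c‖ + 1)) := by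
      rw [div_le_iff₀ (by positivity)]
      have := min_le_right (m ^ 2 / 2) (ε * m ^ 2 / (2 * (‖c‖ + 1)))
      rw [← hε₁] at this
      calc ε₁ ≤ _ := this
        _ = _ := by ring
    have h4 : (0 : ℝ) ≤ ‖c‖ := norm_nonneg _
    calc ‖c x‖ * ‖r x - 1‖ ≤ ‖c‖ * (ε / (2 * (‖c‖ + 1))) :=
          mul_le_mul h1 (h2.trans h3) (norm_nonneg _) h4
      _ < ε := by
        rw [mul_div_assoc', div_lt_iff₀ (by positivity)]
        nlinarith

lemma dense_inv (hX : Dense {u : C(X, ℂ) | ∀ x, u x ≠ 0}) (hf : ∀ x, f x ≠ 0) :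
    Dense {u : C(DC f, ℂ) | ∀ x, u x ≠ 0} := by
  -- step 1
  have h1 : ∀ b : C(X, ℂ), (∀ x, b x ≠ 0) → ∀ c : C(X, ℂ),
      E f (b * c) b ∈ closure {u : C(DC f, ℂ) | ∀ x, u x ≠ 0} := by
    intro b hb c
    have hcont : Continuous fun c : C(X, ℂ) => E f (b * c) b := by
      have h0 := continuous_E (f := f)
      exact h0.comp (Continuous.prodMk (by fun_prop) continuous_const)
    refine map_mem_closure (f := fun c : C(X, ℂ) => E f (b * c) b) hcont (dense_not_sq f hX c) ?_
    intro c hc q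
    simp only [mem_ofPred_eq] at hc
    rw [E_apply, ContinuousMap.mul_apply, ← mul_add]
    refine mul_ne_zero (hb _) ?_
    intro h0
    apply hc (proj f q)
    rw [← root_sq]
    linear_combination (c (proj f q) - root f q) * h0
  intro F
  rw [← E_even_odd hf F]
  set a := even f F
  rw [← closure_closure]
  have hcont : Continuous fun b : C(X, ℂ) => E f a b := by
    have h0 := continuous_E (f := f)
    exact h0.comp (Continuous.prodMk continuous_const continuous_id)
  refine map_mem_closure (f := fun b : C(X, ℂ) => E f a b) hcont (hX (odd hf F)) ?_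
  intro b hb
  simp only [mem_ofPred_eq] at hb
  let c : C(X, ℂ) := ⟨fun x => a x / b x, a.continuous.div b.continuous hb⟩
  have e : b * c = a := by
    ext x
    simp only [c, ContinuousMap.mul_apply, ContinuousMap.coe_mk]
    rw [mul_div_cancel₀ _ (hb x)]
  have := h1 b hb c
  rwa [e] at this

end DC

end Pool.Agent.H51.Carpet
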