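import Mathlib

set_option autoImplicit false
set_option linter.unusedSectionVars false

open Set Topology

namespace Pool.Agent.H51.Carpet

/-- The Sierpinski carpet as in the problem. -/
abbrev carpet : Set (ℝ × ℝ) := {p : ℝ × ℝ |
        p.1 ∈ Set.Icc (0 : ℝ) 1 ∧ p.2 ∈ Set.Icc (0 : ℝ) 1 ∧
        ∀ n a b : ℕ, ¬ (p.1 ∈ Set.Ioo ((3 * (a : ℝ) + 1) / 3 ^ (n + 1)) ((3 * (a : ℝ) + 2) / 3 ^ (n + 1)) ∧
                        p.2 ∈ Set.Ioo ((3 * (b : ℝ) + 1) / 3 ^ (n + 1)) ((3 * (b : ℝ) + 2) / 3 ^ (n + 1)))}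

lemma not_mem_zero (n a : ℕ) :
    (0 : ℝ) ∉ Set.Ioo ((3 * (a : ℝ) + 1) / 3 ^ (n + 1)) ((3 * (a : ℝ) + 2) / 3 ^ (n + 1)) := by
  intro h
  have h1 := h.1
  have h2 : (0 : ℝ) < (3 * (a : ℝ) + 1) / 3 ^ (n + 1) := by positivity
  linarith

lemma not_mem_one (n a : ℕ) :
    (1 : ℝ) ∉ Set.Ioo ((3 * (a : ℝ) + 1) / 3 ^ (n + 1)) ((3 * (a : ℝ) + 2) / 3 ^ (n + 1)) := by
  intro h
  have h1 := h.1
  have h2 := h.2
  rw [div_lt_one (by positivity)] at h1
  rw [one_lt_div (by positivity)] at h2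
  have h3 : (3 * a + 1 : ℕ) < 3 ^ (n + 1) := by exact_mod_cast h1
  have h4 : (3 ^ (n + 1) : ℕ) < 3 * a + 2 := by exact_mod_cast h2
  omega

lemma isCompact_carpet : IsCompact carpet := by
  refine (isCompact_Icc (a := ((0 : ℝ), (0 : ℝ))) (b := ((1 : ℝ), (1 : ℝ)))).of_isClosed_subset ?_ ?_
  · have : carpet = (Icc (0 : ℝ) 1 ×ˢ Icc (0 : ℝ) 1) ∩ ⋂ n : ℕ, ⋂ a : ℕ, ⋂ b : ℕ,
        (Set.Ioo ((3 * (a : ℝ) + 1) / 3 ^ (n + 1)) ((3 * (a : ℝ) + 2) / 3 ^ (n + 1)) ×ˢ
        Set.Ioo ((3 * (b : ℝ) + 1) / 3 ^ (n + 1)) ((3 * (b : ℝ) + 2) / 3 ^ (n + 1)))ᶜ := by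
      ext p
      simp only [carpet, mem_inter_iff, mem_prod, mem_iInter, mem_compl_iff]
      constructor
      · rintro ⟨h1, h2, h3⟩; exact ⟨⟨h1, h2⟩, h3⟩
      · rintro ⟨⟨h1, h2⟩, h3⟩; exact ⟨h1, h2, h3⟩
    rw [this]
    refine (isClosed_Icc.prod isClosed_Icc).inter ?_
    refine isClosed_iInter fun n => isClosed_iInter fun a => isClosed_iInter fun b => ?_
    exact (isOpen_Ioo.prod isOpen_Ioo).isClosed_compl
  · rintro p ⟨h1, h2, -⟩
    exact ⟨⟨h1.1, h2.1⟩, ⟨h1.2, h2.2⟩⟩

/-- size of the direction -/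
noncomputable def mx (θ : ℝ) : ℝ := max |Real.cos θ| |Real.sin θ|

lemma mx_pos (θ : ℝ) : 0 < mx θ := by
  unfold mx
  by_contra h
  push Not at h
  have h1 : |Real.cos θ| ≤ 0 := (le_max_left _ _).trans h
  have h2 : |Real.sin θ| ≤ 0 := (le_max_right _ _).trans h
  have h3 : Real.cos θ = 0 := abs_nonpos_iff.mp h1
  have h4 : Real.sin θ = 0 := abs_nonpos_iff.mp h2
  have := Real.sin_sq_add_cos_sq θ
  rw [h3, h4] at this
  norm_num at this

lemma mx_le_one (θ : ℝ) : mx θ ≤ 1 :=
  max_le (Real.abs_cos_le_one θ) (Real.abs_sin_le_one θ)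

lemma continuous_mx : Continuous mx := by
  unfold mx
  fun_prop

/-- the loop around the boundary of the square -/
noncomputable def γ (θ : ℝ) : ℝ × ℝ :=
  (1 / 2 + Real.cos θ / (2 * mx θ), 1 / 2 + Real.sin θ / (2 * mx θ))

lemma continuous_γ : Continuous γ := by
  unfold γ
  have h : ∀ θ, 2 * mx θ ≠ 0 := fun θ => by have := mx_pos θ; positivity
  have := continuous_mx
  exact ((continuous_const.add (Real.continuous_cos.div (by fun_prop) h))).prodMk
    ((continuous_const.add (Real.continuous_sin.div (by fun_prop) h)))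

lemma γ_mem (θ : ℝ) : γ θ ∈ carpet := by
  have hm := mx_pos θ
  have hc : |Real.cos θ| ≤ mx θ := le_max_left _ _
  have hs : |Real.sin θ| ≤ mx θ := le_max_right _ _
  have key : ∀ t : ℝ, |t| ≤ mx θ → 1 / 2 + t / (2 * mx θ) ∈ Icc (0 : ℝ) 1 := by
    intro t ht
    rw [abs_le] at ht
    have e : 1 / 2 + t / (2 * mx θ) = (mx θ + t) / (2 * mx θ) := by
      field_simp
    rw [e]
    constructor
    · apply div_nonneg <;> linarith
    · rw [div_le_one (by positivity)]; linarith
  have key2 : ∀ t : ℝ, |t| = mx θ → 1 / 2 + t / (2 * mx θ) = 0 ∨ 1 / 2 + t / (2 * mx θ) = 1 := by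
    intro t ht
    have e : 1 / 2 + t / (2 * mx θ) = (mx θ + t) / (2 * mx θ) := by
      field_simp
    rw [e]
    rcases abs_eq hm.le |>.mp ht with h | h
    · right; rw [h, div_eq_one_iff_eq (by positivity)]; ring
    · left; rw [h]; simp
  refine ⟨key _ hc, key _ hs, ?_⟩
  intro n a b hab
  have hmx : |Real.cos θ| = mx θ ∨ |Real.sin θ| = mx θ := by
    unfold mx
    rcases max_choice |Real.cos θ| |Real.sin θ| with h | h
    · left; exact h.symm
    · right; exact h.symm
  rcases hmx with h | h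
  · have h1 := hab.1
    rcases key2 _ h with h2 | h2
    · simp only [γ] at h1
      rw [h2] at h1
      exact not_mem_zero n a h1
    · simp only [γ] at h1
      rw [h2] at h1
      exact not_mem_one n a h1
  · have h1 := hab.2
    rcases key2 _ h with h2 | h2
    · simp only [γ] at h1
      rw [h2] at h1
      exact not_mem_zero n b h1
    · simp only [γ] at h1
      rw [h2] at h1
      exact not_mem_one n b h1

/-- there is no continuous square root on the circle -/
lemma no_sqrt (w : ℝ → ℂ) (hw : Continuous w) (hper : w (2 * Real.pi) = w 0)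
    (hsq : ∀ θ, w θ ^ 2 = Complex.exp (θ * Complex.I)) : False := by
  let v : ℝ → ℂ := fun θ => w θ * Complex.exp (-(θ / 2 * Complex.I))
  have hv : Continuous v := by fun_prop
  have hv2 : ∀ θ, v θ ^ 2 = 1 := by
    intro θ
    simp only [v]
    rw [mul_pow, hsq, ← Complex.exp_nat_mul, ← Complex.exp_add]
    have : (θ : ℂ) * Complex.I + ((2 : ℕ) : ℂ) * -((θ : ℂ) / 2 * Complex.I) = 0 := by
      push_cast; ring
    rw [this, Complex.exp_zero]
  have hv3 : ∀ θ, v θ = 1 ∨ v θ = -1 := fun θ => by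
    have := hv2 θ
    rcases sq_eq_sq_iff_eq_or_eq_neg.mp (this.trans (one_pow 2).symm) with h | h
    · exact Or.inl h
    · exact Or.inr h
  have hclopen : IsClopen {θ | v θ = 1} := by
    constructor
    · exact isClosed_eq hv continuous_const
    · have : {θ | v θ = 1} = {θ | v θ = -1}ᶜ := by
        ext θ
        simp only [mem_ofPred_eq, mem_compl_iff]
        constructor
        · intro h h'
          rw [h] at h'
          norm_num at h'
        · intro h
          exact (hv3 θ).resolve_right h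
      rw [this]
      exact (isClosed_eq hv continuous_const).isOpen_compl
  have h0 : v (2 * Real.pi) = v 0 := by
    rcases isClopen_iff.mp hclopen with h | h
    · have h1 : ∀ θ, v θ = -1 := fun θ => (hv3 θ).resolve_left (by
        intro h'
        have : θ ∈ {θ | v θ = 1} := h'
        rw [h] at this
        exact this)
      rw [h1, h1]
    · have h1 : ∀ θ, v θ = 1 := fun θ => by
        have : θ ∈ {θ | v θ = 1} := by rw [h]; trivial
        exact this
      rw [h1, h1]
  have h1 : v (2 * Real.pi) = -v 0 := by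
    simp only [v]
    rw [hper]
    have e1 : -(((2 * Real.pi : ℝ) : ℂ) / 2 * Complex.I) = -(Real.pi * Complex.I) := by
      push_cast; ring
    rw [e1, Complex.exp_neg, Complex.exp_pi_mul_I]
    simp
  rw [h1] at h0
  have h2 : v 0 = 0 := by
    have : (2 : ℂ) * v 0 = 0 := by linear_combination -h0
    simpa using this
  have := hv2 0
  rw [h2] at this
  norm_num at this

theorem no_carpet {X : Type*} [TopologicalSpace X] [CompactSpace X] [T2Space X]
    (hsq : ∀ F : C(X, ℂ), ∀ ε > (0 : ℝ), ∃ M : C(X, ℂ), ‖M * M - F‖ < ε) :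
    ¬ ∃ K : Set X, Nonempty (↥K ≃ₜ ↥carpet) := by
  rintro ⟨K, ⟨e⟩⟩
  have hcc : CompactSpace carpet := isCompact_iff_compactSpace.mp isCompact_carpet
  have hKc : CompactSpace K := e.symm.compactSpace
  have hK : IsClosed K := (isCompact_iff_compactSpace.mpr hKc).isClosed
  let G : C(carpet, ℂ) := ⟨fun p => ((p.1.1 - 1 / 2 : ℝ) : ℂ) + ((p.1.2 - 1 / 2 : ℝ) : ℂ) * Complex.I,
    by fun_prop⟩
  obtain ⟨F, hF⟩ := ContinuousMap.exists_restrict_eq hK (G.comp ⟨e, e.continuous⟩)
  have hFe : ∀ k : K, F k = G (e k) := by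
    intro k
    have := congrArg (fun w : C(K, ℂ) => w k) hF
    exact this
  obtain ⟨M, hM⟩ := hsq F (1 / 2) (by norm_num)
  let Γ : ℝ → K := fun θ => e.symm ⟨γ θ, γ_mem θ⟩
  have hΓ : Continuous Γ := e.symm.continuous.comp (continuous_γ.subtype_mk _)
  let m : ℝ → ℂ := fun θ => M (Γ θ)
  have hm : Continuous m := M.continuous.comp (continuous_subtype_val.comp hΓ)
  have hG : ∀ θ, G (e (Γ θ)) = ((1 / (2 * mx θ) : ℝ) : ℂ) * Complex.exp (θ * Complex.I) := by
    intro θ
    simp only [Γ, Homeomorph.apply_symm_apply, G, ContinuousMap.coe_mk, γ]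
    rw [Complex.exp_mul_I, ← Complex.ofReal_cos, ← Complex.ofReal_sin]
    have := (mx_pos θ).ne'
    push_cast
    field_simp
    ring
  have hmG : ∀ θ, ‖m θ * m θ - G (e (Γ θ))‖ < 1 / 2 := by
    intro θ
    rw [← hFe]
    exact lt_of_le_of_lt (ContinuousMap.norm_coe_le_norm (M * M - F) (Γ θ)) hM
  have hGn : ∀ θ, 1 / 2 ≤ ‖G (e (Γ θ))‖ := by
    intro θ
    rw [hG, norm_mul, Complex.norm_exp_ofReal_mul_I, mul_one, Complex.norm_real, Real.norm_eq_abs,
      abs_of_pos (by have := mx_pos θ; positivity)]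
    rw [div_le_div_iff₀ (by norm_num) (by have := mx_pos θ; positivity)]
    have := mx_le_one θ
    linarith
  have hG0 : ∀ θ, G (e (Γ θ)) ≠ 0 := fun θ => norm_pos_iff.mp (by have := hGn θ; linarith)
  have hGcont : Continuous fun θ => G (e (Γ θ)) := G.continuous.comp (e.continuous.comp hΓ)
  have hslit : ∀ θ, m θ * m θ / G (e (Γ θ)) ∈ Complex.slitPlane := by
    intro θ
    have h0 : ‖m θ * m θ / G (e (Γ θ)) - 1‖ < 1 := by
      have : m θ * m θ / G (e (Γ θ)) - 1 = (m θ * m θ - G (e (Γ θ))) / G (e (Γ θ)) := by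
        field_simp [hG0 θ]
      rw [this, norm_div, div_lt_one (norm_pos_iff.mpr (hG0 θ))]
      exact (hmG θ).trans_le (hGn θ)
    have h1 := Complex.mem_slitPlane_of_norm_lt_one h0
    simpa using h1
  let w : ℝ → ℂ := fun θ => m θ * Complex.exp (-(Complex.log (m θ * m θ / G (e (Γ θ))) / 2)) *
    ((Real.sqrt (2 * mx θ) : ℝ) : ℂ)
  have hwc : Continuous w := by
    refine Continuous.mul (Continuous.mul hm ?_) ?_
    · refine Complex.continuous_exp.comp (Continuous.neg (Continuous.div_const ?_ _))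
      exact Continuous.clog ((hm.mul hm).div hGcont hG0) hslit
    · have := continuous_mx
      fun_prop
  refine no_sqrt w hwc ?_ ?_
  · have hper : Γ (2 * Real.pi) = Γ 0 := by
      simp only [Γ]
      congr 1
      apply Subtype.ext
      simp [γ, mx]
    have hper2 : mx (2 * Real.pi) = mx 0 := by simp [mx]
    simp only [w, m, hper, hper2]
  · intro θ
    have hmm : m θ * m θ ≠ 0 := by
      intro h
      have h1 := hmG θ
      rw [h, zero_sub, norm_neg] at h1
      linarith [hGn θ]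
    simp only [w]
    have e1 : Complex.exp (-(Complex.log (m θ * m θ / G (e (Γ θ))) / 2)) ^ 2
        = G (e (Γ θ)) / (m θ * m θ) := by
      rw [← Complex.exp_nat_mul]
      have : ((2 : ℕ) : ℂ) * -(Complex.log (m θ * m θ / G (e (Γ θ))) / 2)
          = -Complex.log (m θ * m θ / G (e (Γ θ))) := by push_cast; ring
      rw [this, Complex.exp_neg, Complex.exp_log (div_ne_zero hmm (hG0 θ)), inv_div]
    have e2 : ((Real.sqrt (2 * mx θ) : ℝ) : ℂ) ^ 2 = ((2 * mx θ : ℝ) : ℂ) := by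
      rw [← Complex.ofReal_pow, Real.sq_sqrt (by have := mx_pos θ; positivity)]
    rw [mul_pow, mul_pow, e1, e2, sq]
    have e3 : m θ * m θ * (G (e (Γ θ)) / (m θ * m θ)) = G (e (Γ θ)) := by
      rw [mul_div_assoc', mul_div_cancel_left₀ _ hmm]
    rw [e3, hG]
    have h5 := (mx_pos θ).ne'
    have h6 : (mx θ : ℂ) ≠ 0 := by exact_mod_cast h5
    push_cast
    field_simp

end Pool.Agent.H51.Carpet
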