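import Pool.Agent.H51.Carpet.Limit
import Pool.Agent.H51.Carpet.CheeseC
import Pool.Agent.H51.Carpet.NoCarpet

set_option autoImplicit false
set_option linter.unusedSectionVars false

open Set Topology MeasureTheory Filter

namespace Pool.Agent.H51.Carpet

instance : CompactSpace data.K := isCompact_iff_compactSpace.mp data.hK

/-- The starting stage. -/
noncomputable def stage₀ : Stage (data.dist_pos.choose) where
  X := data.K
  Γ := base data.K
  good := good_base data.hKi
  q := qbar data.K
  hq := data.dist_pos.choose_spec.2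
  pend := fun _ _ => 1
  hpend := fun _ _ => ⟨(good_base data.hKi).one, fun x => by simp⟩

theorem exists_space : ∃ (X : Type) (_ : MetricSpace X) (_ : CompactSpace X) (A : Subalgebra ℂ C(X, ℂ)),
    IsClosed (A : Set C(X, ℂ)) ∧ (∀ x y : X, x ≠ y → ∃ f ∈ A, f x ≠ f y) ∧ A ≠ ⊤ ∧
    (∀ φ : A →ₐ[ℂ] ℂ, ∃ x : X, ∀ f : A, φ f = (f : C(X, ℂ)) x) ∧
    ¬ ∃ K : Set X, Nonempty (↥K ≃ₜ ↥carpet) := by
  let _ : MetricSpace (Lim stage₀) := TopologicalSpace.metrizableSpaceMetric (Lim stage₀)
  refine ⟨Lim stage₀, inferInstance, inferInstance, alg stage₀, isClosed_alg _, ?_, ?_, ?_, ?_⟩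
  · exact alg_separates stage₀
  · exact alg_ne_top stage₀ data.dist_pos.choose_spec.1
  · exact alg_natural stage₀
  · exact no_carpet fun F ε hε => dense_squares stage₀ F hε

end Pool.Agent.H51.Carpet
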