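import Pool.Agent.H51.Carpet.Tower

set_option autoImplicit false
set_option linter.unusedSectionVars false

open Set Topology TopologicalSpace

namespace Pool.Agent.H51.Carpet

variable {ρ : ℝ} (S₀ : Stage ρ)

/-- the tower -/
noncomputable def seq : ℕ → Stage ρ
  | 0 => { S₀ with
      pend := fun _ j => S₀.d j
      hpend := fun _ j => S₀.d_spec j }
  | n + 1 => (seq n).step n

lemma seq_pend_self (n j : ℕ) : (seq S₀ n).pend n j = (seq S₀ n).d j := by
  cases n with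
  | zero => rfl
  | succ n => exact Stage.step_pend_self n (seq S₀ n) j

/-- connecting maps -/
noncomputable def conn (n : ℕ) : C((seq S₀ (n + 1)).X, (seq S₀ n).X) := (seq S₀ n).π n

/-- The inverse limit. -/
def Lim : Type := {x : ∀ n, (seq S₀ n).X // ∀ n, conn S₀ n (x (n + 1)) = x n}

instance : TopologicalSpace (Lim S₀) :=
  inferInstanceAs (TopologicalSpace {x : ∀ n, (seq S₀ n).X // ∀ n, conn S₀ n (x (n + 1)) = x n})

instance : T2Space (Lim S₀) :=
  inferInstanceAs (T2Space {x : ∀ n, (seq S₀ n).X // ∀ n, conn S₀ n (x (n + 1)) = x n})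

instance : SecondCountableTopology (Lim S₀) :=
  TopologicalSpace.Subtype.secondCountableTopology
    {x : ∀ n, (seq S₀ n).X | ∀ n, conn S₀ n (x (n + 1)) = x n}

instance : CompactSpace (Lim S₀) := by
  have hcl : IsClosed {x : ∀ n, (seq S₀ n).X | ∀ n, conn S₀ n (x (n + 1)) = x n} := by
    have : {x : ∀ n, (seq S₀ n).X | ∀ n, conn S₀ n (x (n + 1)) = x n}
        = ⋂ n, {x : ∀ n, (seq S₀ n).X | conn S₀ n (x (n + 1)) = x n} := by
      ext x; simp
    rw [this]
    refine isClosed_iInter fun n => ?_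
    exact isClosed_eq ((conn S₀ n).continuous.comp (continuous_apply (n + 1))) (continuous_apply n)
  exact isCompact_iff_compactSpace.mp hcl.isCompact

/-- projections of the limit -/
def P (n : ℕ) : C(Lim S₀, (seq S₀ n).X) := ⟨fun x => x.1 n, by
  exact (continuous_apply n).comp continuous_subtype_val⟩

lemma conn_P (n : ℕ) (x : Lim S₀) : conn S₀ n (P S₀ (n + 1) x) = P S₀ n x := x.2 n

lemma Lim.ext {x y : Lim S₀} (h : ∀ n, P S₀ n x = P S₀ n y) : x = y :=
  Subtype.ext (funext h)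

/-- extending a point of a stage downwards -/
lemma exists_down (m : ℕ) (z : (seq S₀ m).X) :
    ∃ x : ∀ n, (seq S₀ n).X, x m = z ∧ ∀ k < m, conn S₀ k (x (k + 1)) = x k := by
  classical
  have hne : ∀ n, Nonempty ((seq S₀ n).X) → ∀ k, Nonempty ((seq S₀ k).X) := by
    intro n hn k
    have h0 : ∀ n, Nonempty ((seq S₀ n).X) → Nonempty ((seq S₀ 0).X) := by
      intro n
      induction n with
      | zero => exact id
      | succ n ih => exact fun ⟨x⟩ => ih ⟨conn S₀ n x⟩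
    have h1 : ∀ k, Nonempty ((seq S₀ k).X) := by
      intro k
      induction k with
      | zero => exact h0 n hn
      | succ k ih =>
        obtain ⟨x⟩ := ih
        obtain ⟨y, -⟩ := (seq S₀ k).π_surjective k x
        exact ⟨y⟩
    exact h1 k
  induction m with
  | zero =>
    have := hne 0 ⟨z⟩
    refine ⟨Function.update (fun n => (this n).some) 0 z, by simp, fun k hk => by omega⟩
  | succ m ih =>
    obtain ⟨x, hx1, hx2⟩ := ih (conn S₀ m z)
    refine ⟨Function.update x (m + 1) z, by simp, ?_⟩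
    intro k hk
    rcases Nat.lt_succ_iff_lt_or_eq.mp hk with h | h
    · rw [Function.update_of_ne (by omega), Function.update_of_ne (by omega)]
      exact hx2 k h
    · subst h
      rw [Function.update_self, Function.update_of_ne (by omega), hx1]

lemma exists_up (n m : ℕ) (hnm : n ≤ m) (z : (seq S₀ n).X) :
    ∃ w : (seq S₀ m).X, ∀ x : ∀ n, (seq S₀ n).X, x m = w →
      (∀ k < m, conn S₀ k (x (k + 1)) = x k) → x n = z := by
  induction m, hnm using Nat.le_induction with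
  | base => exact ⟨z, fun x hx _ => hx⟩
  | succ m hm ih =>
    obtain ⟨w, hw⟩ := ih
    obtain ⟨w', hw'⟩ := (seq S₀ m).π_surjective m w
    refine ⟨w', fun x hx1 hx2 => hw x ?_ fun k hk => hx2 k (by omega)⟩
    rw [← hx2 m (by omega), hx1]
    exact hw'

lemma P_surjective (n : ℕ) : Function.Surjective (P S₀ n) := by
  intro z
  let C : ℕ → Set (∀ n, (seq S₀ n).X) := fun m =>
    {x | x n = z ∧ ∀ k < m, conn S₀ k (x (k + 1)) = x k}
  have hC : ∀ m, IsClosed (C m) := by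
    intro m
    have : C m = {x | x n = z} ∩ ⋂ k, ⋂ (_ : k < m),
        {x : ∀ n, (seq S₀ n).X | conn S₀ k (x (k + 1)) = x k} := by
      ext x; simp [C]
    rw [this]
    refine IsClosed.inter ?_ ?_
    · exact isClosed_eq (continuous_apply n) continuous_const
    · refine isClosed_iInter fun k => isClosed_iInter fun _ => ?_
      exact isClosed_eq ((conn S₀ k).continuous.comp (continuous_apply (k + 1))) (continuous_apply k)
  have hne : (⋂ m, C m).Nonempty := by
    refine IsCompact.nonempty_iInter_of_sequence_nonempty_isCompact_isClosed C ?_ ?_ ?_ hC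
    · intro m x hx
      exact ⟨hx.1, fun k hk => hx.2 k (by omega)⟩
    · intro m
      obtain ⟨w, hw⟩ := exists_up S₀ n (max n m) (le_max_left _ _) z
      obtain ⟨x, hx1, hx2⟩ := exists_down S₀ (max n m) w
      exact ⟨x, hw x hx1 hx2, fun k hk => hx2 k (lt_of_lt_of_le hk (le_max_right _ _))⟩
    · exact (hC 0).isCompact
  obtain ⟨x, hx⟩ := hne
  rw [mem_iInter] at hx
  refine ⟨⟨x, fun k => (hx (k + 1)).2 k (by omega)⟩, (hx 0).1⟩

/-- functions from lower stages are functions from higher stages -/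
lemma exists_comp_P (n m : ℕ) (hnm : n ≤ m) (g : C((seq S₀ n).X, ℂ)) :
    ∃ g' : C((seq S₀ m).X, ℂ), g'.comp (P S₀ m) = g.comp (P S₀ n) ∧
      ((g, (0 : C((seq S₀ n).X, ℂ))) ∈ (seq S₀ n).Γ →
        (g', (0 : C((seq S₀ m).X, ℂ))) ∈ (seq S₀ m).Γ) := by
  induction m, hnm using Nat.le_induction with
  | base => exact ⟨g, rfl, id⟩
  | succ m hm ih =>
    obtain ⟨g', hg', hg''⟩ := ih
    refine ⟨g'.comp (conn S₀ m), ?_, ?_⟩
    · rw [← hg']
      ext x
      simp only [ContinuousMap.comp_apply]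
      rw [conn_P]
    · intro hg
      exact (seq S₀ m).comp_mem0 m (hg'' hg)

lemma pend_P (n m : ℕ) (hnm : n ≤ m) (j : ℕ) :
    ((seq S₀ m).pend n j).comp (P S₀ m) = ((seq S₀ n).pend n j).comp (P S₀ n) := by
  induction m, hnm using Nat.le_induction with
  | base => rfl
  | succ m hm ih =>
    rw [← ih]
    have : (seq S₀ (m + 1)).pend n j = ((seq S₀ m).pend n j).comp (conn S₀ m) :=
      Stage.step_pend m (seq S₀ m) n j hm
    rw [this]
    ext x
    simp only [ContinuousMap.comp_apply]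
    rw [conn_P]

/-- every function of the chosen dense sequence has a square root on the limit -/
lemma exists_sqrt_pend (n j : ℕ) :
    ∃ r : C(Lim S₀, ℂ), r * r = ((seq S₀ n).d j).comp (P S₀ n) := by
  let m := Nat.pair n j
  have hm : n ≤ m := Nat.left_le_pair n j
  refine ⟨((seq S₀ m).r m).comp (P S₀ (m + 1)), ?_⟩
  rw [← seq_pend_self, ← pend_P S₀ n m hm j]
  ext x
  have h1 := (seq S₀ m).r_sq m (P S₀ (m + 1) x)
  simp only [ContinuousMap.mul_apply, ContinuousMap.comp_apply]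
  have h2 : (seq S₀ m).π m (P S₀ (m + 1) x) = P S₀ m x := conn_P S₀ m x
  rw [h2] at h1
  rw [sq] at h1
  refine h1.trans ?_
  simp [Stage.fn, m, Nat.unpair_pair]

/-- invertible functions of finite stages have square roots on the limit -/
lemma exists_sqrt_inv (n : ℕ) (g : C((seq S₀ n).X, ℂ)) (hg : ∀ x, g x ≠ 0) :
    ∃ M : C(Lim S₀, ℂ), M * M = g.comp (P S₀ n) := by
  obtain ⟨f, k, hf, hf0, hgf⟩ := (seq S₀ n).good.factor g hg
  obtain ⟨δ, hδ, hδf⟩ := exists_pos_le_norm f hf0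
  obtain ⟨j, hj⟩ := (seq S₀ n).d_dense f hf hf0 (ε := δ / 2) (by positivity)
  have hd0 := ((seq S₀ n).d_spec j).2
  set u := (seq S₀ n).d j with hu
  have hux : ∀ x, ‖u x - f x‖ < δ / 2 := fun x =>
    lt_of_le_of_lt (ContinuousMap.norm_coe_le_norm (u - f) x) hj
  have hu_lt : ∀ x, δ / 2 < ‖u x‖ := by
    intro x
    have h1 := norm_sub_norm_le (f x) (u x)
    rw [norm_sub_rev] at h1
    have h2 := hδf x
    have h3 := hux x
    linarith
  have hslit : ∀ x, f x / u x ∈ Complex.slitPlane := by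
    intro x
    have h0 : ‖f x / u x - 1‖ < 1 := by
      have : f x / u x - 1 = (f x - u x) / u x := by
        field_simp [hd0 x]
      rw [this, norm_div, div_lt_one (by have := hu_lt x; linarith), norm_sub_rev]
      exact (hux x).trans (hu_lt x)
    have h1 := Complex.mem_slitPlane_of_norm_lt_one h0
    simpa using h1
  let s : C((seq S₀ n).X, ℂ) := ⟨fun x => Complex.exp ((Complex.log (f x / u x) + k x) / 2), by
    refine Complex.continuous_exp.comp (Continuous.div_const (Continuous.add ?_ k.continuous) _)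
    exact Continuous.clog (f.continuous.div u.continuous hd0) hslit⟩
  have hs : ∀ x, u x * (s x * s x) = g x := by
    intro x
    simp only [s, ContinuousMap.coe_mk]
    rw [← Complex.exp_add, add_halves, Complex.exp_add, Complex.exp_log, hgf x]
    · field_simp [hd0 x]
    · exact div_ne_zero (hf0 x) (hd0 x)
  obtain ⟨r, hr⟩ := exists_sqrt_pend S₀ n j
  refine ⟨r * s.comp (P S₀ n), ?_⟩
  ext x
  have h1 := congrArg (fun w : C(Lim S₀, ℂ) => w x) hr
  simp only [ContinuousMap.mul_apply, ContinuousMap.comp_apply] at h1 ⊢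
  rw [← hs (P S₀ n x), ← h1]
  ring

/-- functions from finite stages are dense -/
lemma dense_stages (F : C(Lim S₀, ℂ)) {ε : ℝ} (hε : 0 < ε) :
    ∃ (n : ℕ) (g : C((seq S₀ n).X, ℂ)), ‖g.comp (P S₀ n) - F‖ < ε := by
  let B : StarSubalgebra ℂ C(Lim S₀, ℂ) :=
    { carrier := {G | ∃ (n : ℕ) (g : C((seq S₀ n).X, ℂ)), g.comp (P S₀ n) = G}
      mul_mem' := by
        rintro _ _ ⟨n, g, rfl⟩ ⟨m, h, rfl⟩
        obtain ⟨g', hg', -⟩ := exists_comp_P S₀ n (max n m) (le_max_left _ _) g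
        obtain ⟨h', hh', -⟩ := exists_comp_P S₀ m (max n m) (le_max_right _ _) h
        exact ⟨max n m, g' * h', by rw [← hg', ← hh']; rfl⟩
      add_mem' := by
        rintro _ _ ⟨n, g, rfl⟩ ⟨m, h, rfl⟩
        obtain ⟨g', hg', -⟩ := exists_comp_P S₀ n (max n m) (le_max_left _ _) g
        obtain ⟨h', hh', -⟩ := exists_comp_P S₀ m (max n m) (le_max_right _ _) h
        exact ⟨max n m, g' + h', by rw [← hg', ← hh']; rfl⟩
      algebraMap_mem' := fun c => ⟨0, algebraMap ℂ _ c, by ext x; simp⟩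
      star_mem' := by
        rintro _ ⟨n, g, rfl⟩
        exact ⟨n, star g, by ext x; simp⟩ }
  have hsep : B.toSubalgebra.SeparatesPoints := by
    intro x y hxy
    have : ∃ n, P S₀ n x ≠ P S₀ n y := by
      by_contra hcon
      push Not at hcon
      exact hxy (Lim.ext S₀ hcon)
    obtain ⟨n, hn⟩ := this
    obtain ⟨u, -, hu⟩ := (seq S₀ n).good.sep _ _ hn
    exact ⟨_, ⟨u.comp (P S₀ n), ⟨n, u, rfl⟩, rfl⟩, hu⟩
  have htop := ContinuousMap.starSubalgebra_topologicalClosure_eq_top_of_separatesPoints B hsep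
  have hF : F ∈ B.topologicalClosure := by rw [htop]; trivial
  have hF' : F ∈ closure (B : Set C(Lim S₀, ℂ)) := hF
  obtain ⟨G, ⟨n, g, rfl⟩, hG⟩ := Metric.mem_closure_iff.mp hF' ε hε
  exact ⟨n, g, by rw [← dist_eq_norm, dist_comm]; exact hG⟩

/-- squares are dense on the limit -/
theorem dense_squares (F : C(Lim S₀, ℂ)) {ε : ℝ} (hε : 0 < ε) :
    ∃ M : C(Lim S₀, ℂ), ‖M * M - F‖ < ε := by
  obtain ⟨n, g, hg⟩ := dense_stages S₀ F (ε := ε / 2) (by positivity)
  obtain ⟨g₁, h1, h2⟩ := Metric.dense_iff.mp (seq S₀ n).good.invdense g (ε / 2) (by positivity)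
  obtain ⟨M, hM⟩ := exists_sqrt_inv S₀ n g₁ h2
  refine ⟨M, ?_⟩
  rw [hM]
  have h3 : ‖g₁.comp (P S₀ n) - g.comp (P S₀ n)‖ < ε / 2 := by
    rw [ContinuousMap.norm_lt_iff _ (by positivity)]
    intro x
    rw [Metric.mem_ball, dist_eq_norm] at h1
    exact lt_of_le_of_lt (ContinuousMap.norm_coe_le_norm (g₁ - g) (P S₀ n x)) h1
  calc ‖g₁.comp (P S₀ n) - F‖ = ‖(g₁.comp (P S₀ n) - g.comp (P S₀ n)) + (g.comp (P S₀ n) - F)‖ := by
        congr 1; abel
    _ ≤ _ := norm_add_le _ _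
    _ < ε := by linarith

/-- the algebraic union of the stage algebras -/
noncomputable def algUnion : Subalgebra ℂ C(Lim S₀, ℂ) where
  carrier := {G | ∃ (n : ℕ) (g : C((seq S₀ n).X, ℂ)),
    (g, (0 : C((seq S₀ n).X, ℂ))) ∈ (seq S₀ n).Γ ∧ g.comp (P S₀ n) = G}
  mul_mem' := by
    rintro _ _ ⟨n, g, hg, rfl⟩ ⟨m, h, hh, rfl⟩
    obtain ⟨g', hg', hg''⟩ := exists_comp_P S₀ n (max n m) (le_max_left _ _) g
    obtain ⟨h', hh', hh''⟩ := exists_comp_P S₀ m (max n m) (le_max_right _ _) h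
    refine ⟨max n m, g' * h', ?_, by rw [← hg', ← hh']; rfl⟩
    have := (seq S₀ (max n m)).good.mul _ _ _ _ (hg'' hg) (hh'' hh)
    simpa using this
  add_mem' := by
    rintro _ _ ⟨n, g, hg, rfl⟩ ⟨m, h, hh, rfl⟩
    obtain ⟨g', hg', hg''⟩ := exists_comp_P S₀ n (max n m) (le_max_left _ _) g
    obtain ⟨h', hh', hh''⟩ := exists_comp_P S₀ m (max n m) (le_max_right _ _) h
    refine ⟨max n m, g' + h', ?_, by rw [← hg', ← hh']; rfl⟩
    have := (seq S₀ (max n m)).good.add' (hg'' hg) (hh'' hh)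
    simpa using this
  algebraMap_mem' := fun c => ⟨0, algebraMap ℂ _ c, (seq S₀ 0).good.const c, by ext x; simp⟩

/-- The uniform algebra on the limit. -/
noncomputable def alg : Subalgebra ℂ C(Lim S₀, ℂ) := (algUnion S₀).topologicalClosure

lemma algUnion_le : algUnion S₀ ≤ alg S₀ := Subalgebra.le_topologicalClosure _

theorem isClosed_alg : IsClosed (alg S₀ : Set C(Lim S₀, ℂ)) :=
  Subalgebra.isClosed_topologicalClosure _

theorem alg_separates (x y : Lim S₀) (hxy : x ≠ y) : ∃ f ∈ alg S₀, f x ≠ f y := by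
  have : ∃ n, P S₀ n x ≠ P S₀ n y := by
    by_contra hcon
    push Not at hcon
    exact hxy (Lim.ext S₀ hcon)
  obtain ⟨n, hn⟩ := this
  obtain ⟨u, hu, hne⟩ := (seq S₀ n).good.sep _ _ hn
  exact ⟨u.comp (P S₀ n), algUnion_le S₀ ⟨n, u, hu, rfl⟩, hne⟩

lemma q_P (n : ℕ) : ((seq S₀ n).q).comp (P S₀ n) = ((seq S₀ 0).q).comp (P S₀ 0) := by
  induction n with
  | zero => rfl
  | succ n ih =>
    rw [← ih]
    have : (seq S₀ (n + 1)).q = ((seq S₀ n).q).comp (conn S₀ n) := Stage.step_q n (seq S₀ n)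
    rw [this]
    ext x
    simp only [ContinuousMap.comp_apply]
    rw [conn_P]

theorem alg_ne_top (hρ : 0 < ρ) : alg S₀ ≠ ⊤ := by
  intro htop
  have h1 : ((seq S₀ 0).q).comp (P S₀ 0) ∈ alg S₀ := by rw [htop]; trivial
  have h2 : ((seq S₀ 0).q).comp (P S₀ 0) ∈ closure (algUnion S₀ : Set C(Lim S₀, ℂ)) := h1
  obtain ⟨G, ⟨n, g, hg, rfl⟩, hG⟩ := Metric.mem_closure_iff.mp h2 ρ hρ
  rw [← q_P S₀ n, dist_comm, dist_eq_norm] at hG
  have h3 := (seq S₀ n).hq g hg
  have h4 : ‖g - (seq S₀ n).q‖ ≤ ‖g.comp (P S₀ n) - ((seq S₀ n).q).comp (P S₀ n)‖ := by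
    rw [ContinuousMap.norm_le _ (norm_nonneg _)]
    intro x
    obtain ⟨y, rfl⟩ := P_surjective S₀ n x
    exact ContinuousMap.norm_coe_le_norm (g.comp (P S₀ n) - ((seq S₀ n).q).comp (P S₀ n)) y
  linarith

theorem alg_natural (φ : alg S₀ →ₐ[ℂ] ℂ) : ∃ x : Lim S₀, ∀ f : alg S₀, φ f = (f : C(Lim S₀, ℂ)) x := by
  -- restriction to stages
  have hmem : ∀ n, ∀ u : (seq S₀ n).good.alg, (u : C((seq S₀ n).X, ℂ)).comp (P S₀ n) ∈ alg S₀ :=
    fun n u => algUnion_le S₀ ⟨n, u, u.2, rfl⟩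
  let ψ : ∀ n, (seq S₀ n).good.alg →ₐ[ℂ] ℂ := fun n =>
    φ.comp (((ContinuousMap.compRightAlgHom ℂ ℂ (P S₀ n)).comp
      (Subalgebra.val _)).codRestrict (alg S₀) (hmem n))
  have hψ : ∀ n u, ψ n u = φ ⟨_, hmem n u⟩ := fun n u => rfl
  choose x hx using fun n => (seq S₀ n).good.natural (ψ n)
  have hcomp : ∀ n, conn S₀ n (x (n + 1)) = x n := by
    intro n
    by_contra hne
    obtain ⟨u, hu, hux⟩ := (seq S₀ n).good.sep _ _ hne
    apply hux
    have h1 := hx n ⟨u, hu⟩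
    have hu' : (u.comp (conn S₀ n), (0 : C((seq S₀ (n + 1)).X, ℂ))) ∈ (seq S₀ (n + 1)).Γ := by
      exact (seq S₀ n).comp_mem0 n hu
    have h2 := hx (n + 1) ⟨u.comp (conn S₀ n), hu'⟩
    have h3 : ψ (n + 1) ⟨u.comp (conn S₀ n), hu'⟩ = ψ n ⟨u, hu⟩ := by
      rw [hψ, hψ]
      congr 1
      apply Subtype.ext
      ext y
      simp only [ContinuousMap.comp_apply]
      rw [conn_P]
    rw [h1, h2] at h3
    exact h3
  refine ⟨⟨x, hcomp⟩, ?_⟩
  have hcs : CompleteSpace (alg S₀) := (isClosed_alg S₀).completeSpace_coe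
  have hφ : Continuous φ :=
    AddMonoidHomClass.continuous_of_bound φ ‖(1 : alg S₀)‖ fun a => by
      rw [mul_comm]
      exact AlgHom.norm_apply_le_self_mul_norm_one φ a
  intro f
  have hcl : (f : C(Lim S₀, ℂ)) ∈ closure (algUnion S₀ : Set C(Lim S₀, ℂ)) := f.2
  obtain ⟨g, hg, hlim⟩ := mem_closure_iff_seq_limit.mp hcl
  have hg' : ∀ k, g k ∈ alg S₀ := fun k => algUnion_le S₀ (hg k)
  have hlim' : Filter.Tendsto (fun k => (⟨g k, hg' k⟩ : alg S₀)) Filter.atTop (𝓝 f) := by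
    rw [tendsto_subtype_rng]
    exact hlim
  have l1 : Filter.Tendsto (fun k => φ ⟨g k, hg' k⟩) Filter.atTop (𝓝 (φ f)) :=
    (hφ.tendsto f).comp hlim'
  have l2 : Filter.Tendsto (fun k => g k ⟨x, hcomp⟩) Filter.atTop
      (𝓝 ((f : C(Lim S₀, ℂ)) ⟨x, hcomp⟩)) :=
    ((continuous_eval_const (F := C(Lim S₀, ℂ)) (⟨x, hcomp⟩ : Lim S₀)).tendsto _).comp hlim
  refine tendsto_nhds_unique l1 (l2.congr fun k => ?_)
  obtain ⟨n, u, hu, hu'⟩ := hg k
  have h1 := hx n ⟨u, hu⟩
  have h2 : φ ⟨g k, hg' k⟩ = ψ n ⟨u, hu⟩ := by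
    rw [hψ]
    congr 1
    exact Subtype.ext hu'.symm
  rw [h2, h1, ← hu']
  rfl

end Pool.Agent.H51.Carpet
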