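import Pool.Agent.H51.Carpet.Good

set_option autoImplicit false

open Set Topology

namespace Pool.Agent.H51.Carpet

variable {X : Type*} [TopologicalSpace X] [CompactSpace X]

namespace Good

variable {Γ : Set (C(X, ℂ) × C(X, ℂ))}

/-- one-dimensional Koszul argument: a finite family of holomorphic elements without common zeros
generates the algebra of holomorphic elements. -/
lemma corona (h : Good Γ) {ι : Type*} [DecidableEq ι] (t : Finset ι) (u : ι → C(X, ℂ))
    (hu : ∀ i ∈ t, (u i, (0 : C(X, ℂ))) ∈ Γ) (hne : ∀ x, ∃ i ∈ t, u i x ≠ 0) :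
    ∃ H : ι → C(X, ℂ), (∀ i ∈ t, (H i, (0 : C(X, ℂ))) ∈ Γ) ∧ ∑ i ∈ t, u i * H i = 1 := by
  -- the positive function
  let S : C(X, ℂ) := ∑ i ∈ t, u i * star (u i)
  have hS : ∀ x, S x = ((∑ i ∈ t, ‖u i x‖ ^ 2 : ℝ) : ℂ) := by
    intro x
    simp only [S, ContinuousMap.coe_sum, Finset.sum_apply, ContinuousMap.mul_apply,
      ContinuousMap.star_apply]
    push_cast
    refine Finset.sum_congr rfl fun i _ => ?_
    have := Complex.mul_conj (u i x)
    rw [Complex.normSq_eq_norm_sq] at this
    simpa using this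
  have hS0 : ∀ x, S x ≠ 0 := by
    intro x
    rw [hS x]
    obtain ⟨i, hi, hix⟩ := hne x
    have : 0 < ∑ i ∈ t, ‖u i x‖ ^ 2 :=
      Finset.sum_pos' (fun i _ => by positivity) ⟨i, hi, by positivity⟩
    exact_mod_cast this.ne'
  let G₀ : ι → C(X, ℂ) := fun i => ⟨fun x => star (u i) x / S x,
    (star (u i)).continuous.div S.continuous hS0⟩
  have hG₀ : ∀ x, ∑ i ∈ t, u i x * G₀ i x = 1 := by
    intro x
    have : ∀ i ∈ t, u i x * G₀ i x = (u i * star (u i)) x / S x := by
      intro i _
      simp only [G₀, ContinuousMap.coe_mk, ContinuousMap.mul_apply]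
      ring
    rw [Finset.sum_congr rfl this, ← Finset.sum_div]
    have h2 : ∑ i ∈ t, (u i * star (u i)) x = S x := by
      simp only [S, ContinuousMap.coe_sum, Finset.sum_apply]
    rw [h2, div_self (hS0 x)]
  -- approximate
  let M : ℝ := ∑ i ∈ t, ‖u i‖
  have hM : 0 ≤ M := Finset.sum_nonneg fun i _ => norm_nonneg _
  have hε : 0 < 1 / (M + 1) := by positivity
  choose G v hG hGn using fun i => h.dense (G₀ i) (1 / (M + 1)) hε
  let w : C(X, ℂ) := ∑ i ∈ t, u i * G i
  let W : C(X, ℂ) := ∑ i ∈ t, u i * v i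
  have hwW : (w, W) ∈ Γ := by
    refine h.sum t _ _ fun i hi => ?_
    have := h.mul _ _ _ _ (hu i hi) (hG i)
    simpa using this
  have hw0 : ∀ x, w x ≠ 0 := by
    intro x hwx
    have h1 : w x - 1 = ∑ i ∈ t, u i x * (G i x - G₀ i x) := by
      simp only [mul_sub, Finset.sum_sub_distrib, hG₀ x]
      simp only [w, ContinuousMap.coe_sum, Finset.sum_apply, ContinuousMap.mul_apply]
    have h2 : ‖w x - 1‖ ≤ M * (1 / (M + 1)) := by
      rw [h1]
      refine (norm_sum_le _ _).trans ?_
      rw [Finset.sum_mul]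
      refine Finset.sum_le_sum fun i _ => ?_
      rw [norm_mul]
      refine mul_le_mul (ContinuousMap.norm_coe_le_norm _ _) ?_ (norm_nonneg _) (norm_nonneg _)
      exact (ContinuousMap.norm_coe_le_norm (G i - G₀ i) x).trans (hGn i).le
    rw [hwx, zero_sub, norm_neg, norm_one] at h2
    have h3 : M * (1 / (M + 1)) < 1 := by
      rw [mul_one_div, div_lt_one (by positivity)]
      linarith
    linarith
  obtain ⟨w', hww', hw'⟩ := h.inv w W hwW hw0
  let H : ι → C(X, ℂ) := fun i => G i * w'
  let η : ι → C(X, ℂ) := fun i => G i * (-(w' * w' * W)) + w' * v i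
  have hH : ∀ i, (H i, η i) ∈ Γ := fun i => h.mul _ _ _ _ (hG i) hw'
  have hsumH : ∑ i ∈ t, u i * H i = 1 := by
    rw [← hww']
    simp only [w, H, Finset.sum_mul]
    refine Finset.sum_congr rfl fun i _ => by ring
  have hsumη : ∑ i ∈ t, u i * η i = 0 := by
    have e : ∀ Z : C(X, ℂ), ∑ i ∈ t, u i * (G i * Z + w' * v i)
        = (∑ i ∈ t, u i * G i) * Z + w' * ∑ i ∈ t, u i * v i := by
      intro Z
      rw [Finset.sum_mul, Finset.mul_sum, ← Finset.sum_add_distrib]
      refine Finset.sum_congr rfl fun i _ => ?_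
      ring
    refine (e _).trans ?_
    change w * (-(w' * w' * W)) + w' * W = 0
    linear_combination (-(w' * W)) * hww'
  -- the Koszul correction
  choose a ha using fun (i j : ι) => h.surj (H j * η i - H i * η j)
  let k : ι → ι → C(X, ℂ) := fun i j => (1 / 2 : ℂ) • (a i j - a j i)
  have hk : ∀ i j, (k i j, H j * η i - H i * η j) ∈ Γ := by
    intro i j
    have := h.smul (1 / 2 : ℂ) (h.sub' (ha i j) (ha j i))
    convert this using 2
    ext x
    simp only [ContinuousMap.sub_apply, ContinuousMap.mul_apply, ContinuousMap.smul_apply,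
      smul_eq_mul]
    ring
  have hkanti : ∀ i j, k j i = -k i j := by
    intro i j
    simp only [k]
    rw [← smul_neg, neg_sub]
  refine ⟨fun i => H i - ∑ j ∈ t, k i j * u j, ?_, ?_⟩
  · intro i hi
    have h1 : (∑ j ∈ t, k i j * u j, ∑ j ∈ t, u j * (H j * η i - H i * η j)) ∈ Γ := by
      refine h.sum t _ _ fun j hj => ?_
      have := h.mul _ _ _ _ (hk i j) (hu j hj)
      simpa using this
    have h2 := h.sub' (hH i) h1
    have h3 : η i - ∑ j ∈ t, u j * (H j * η i - H i * η j) = 0 := by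
      have e : ∑ j ∈ t, u j * (H j * η i - H i * η j)
          = (∑ j ∈ t, u j * H j) * η i - H i * ∑ j ∈ t, u j * η j := by
        rw [Finset.sum_mul, Finset.mul_sum, ← Finset.sum_sub_distrib]
        refine Finset.sum_congr rfl fun j _ => by ring
      rw [e, hsumH, hsumη]
      ring
    rw [h3] at h2
    exact h2
  · have e : ∑ i ∈ t, u i * (H i - ∑ j ∈ t, k i j * u j)
        = (∑ i ∈ t, u i * H i) - ∑ i ∈ t, ∑ j ∈ t, u i * (k i j * u j) := by
      rw [← Finset.sum_sub_distrib]
      refine Finset.sum_congr rfl fun i _ => ?_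
      rw [mul_sub, Finset.mul_sum]
    rw [e, hsumH]
    have h0 : ∑ i ∈ t, ∑ j ∈ t, u i * (k i j * u j) = 0 := by
      have h1 : ∑ i ∈ t, ∑ j ∈ t, u i * (k i j * u j) = -∑ i ∈ t, ∑ j ∈ t, u i * (k i j * u j) := by
        conv_lhs => rw [Finset.sum_comm]
        rw [← Finset.sum_neg_distrib]
        refine Finset.sum_congr rfl fun i _ => ?_
        rw [← Finset.sum_neg_distrib]
        refine Finset.sum_congr rfl fun j _ => ?_
        rw [hkanti i j]
        ring
      have h2 : (2 : ℂ) • ∑ i ∈ t, ∑ j ∈ t, u i * (k i j * u j) = 0 := by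
        rw [two_smul]
        nth_rewrite 2 [h1]
        abel
      exact (smul_eq_zero.mp h2).resolve_left two_ne_zero
    rw [h0, sub_zero]

/-- every character of the algebra of holomorphic elements is a point evaluation -/
lemma natural (h : Good Γ) (φ : h.alg →ₐ[ℂ] ℂ) :
    ∃ x : X, ∀ f : h.alg, φ f = (f : C(X, ℂ)) x := by
  classical
  by_contra hcon
  push Not at hcon
  choose f hf using hcon
  let u : X → C(X, ℂ) := fun x => (f x : C(X, ℂ)) - algebraMap ℂ C(X, ℂ) (φ (f x))
  have hu : ∀ x, (u x, (0 : C(X, ℂ))) ∈ Γ := by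
    intro x
    have := h.sub' (f x).2 (h.const (φ (f x)))
    simpa [u] using this
  have hux : ∀ x, u x x ≠ 0 := by
    intro x hx
    apply hf x
    have : (f x : C(X, ℂ)) x - φ (f x) = 0 := by simpa [u] using hx
    exact (sub_eq_zero.mp this).symm
  obtain ⟨t, ht⟩ := CompactSpace.elim_nhds_subcover (fun x => {y | u x y ≠ 0}) (by
    intro x
    refine IsOpen.mem_nhds ?_ (hux x)
    exact isOpen_ne_fun (u x).continuous continuous_const)
  obtain ⟨H, hH, hsum⟩ := h.corona t u (fun i _ => hu i) (by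
    intro x
    have : x ∈ ⋃ z ∈ t, {y | u z y ≠ 0} := by rw [ht]; trivial
    simpa using this)
  have hker : ∀ x, φ ⟨u x, hu x⟩ = 0 := by
    intro x
    have e : (⟨u x, hu x⟩ : h.alg) = f x - algebraMap ℂ h.alg (φ (f x)) := by
      apply Subtype.ext
      rfl
    rw [e, map_sub, AlgHom.commutes]
    simp
  have h1 : (1 : h.alg) = ∑ i ∈ t.attach, (⟨u i, hu i⟩ : h.alg) * ⟨H i, hH i i.2⟩ := by
    apply Subtype.ext
    push_cast
    rw [Finset.sum_attach t (fun i => u i * H i), hsum]
  have h2 := congrArg φ h1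
  rw [map_one, map_sum] at h2
  simp only [map_mul, hker, zero_mul, Finset.sum_const_zero] at h2
  exact one_ne_zero h2

end Good

end Pool.Agent.H51.Carpet
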