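import Pool.Agent.H51.Carpet.Cover

set_option autoImplicit false
set_option linter.unusedSectionVars false

open Set Topology

namespace Pool.Agent.H51.Carpet

namespace DC

variable {X : Type} [TopologicalSpace X] [CompactSpace X] [T2Space X] {f : C(X, ℂ)}

lemma E_const (c : ℂ) : E f (algebraMap ℂ C(X, ℂ) c) 0 = algebraMap ℂ C(DC f, ℂ) c := by
  ext q
  simp

lemma E_zero : E f (0 : C(X, ℂ)) 0 = 0 := by
  ext q
  simp

theorem good_lift {Γ : Set (C(X, ℂ) × C(X, ℂ))} (h : Good Γ) (hf : ∀ x, f x ≠ 0)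
    (hf0 : (f, (0 : C(X, ℂ))) ∈ Γ) : Good (lift hf Γ) := by
  constructor
  · -- closed
    have h1 : Continuous fun p : C(DC f, ℂ) × C(DC f, ℂ) => (even f p.1, even f p.2) :=
      (continuous_even.comp continuous_fst).prodMk (continuous_even.comp continuous_snd)
    have h2 : Continuous fun p : C(DC f, ℂ) × C(DC f, ℂ) => (odd hf p.1, odd hf p.2) :=
      ((continuous_odd hf).comp continuous_fst).prodMk ((continuous_odd hf).comp continuous_snd)
    exact (h.closed.preimage h1).inter (h.closed.preimage h2)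
  · -- add
    intro p hp q hq
    obtain ⟨a, b, α, β, h1, h2, rfl⟩ := mem_lift hf hp
    obtain ⟨a', b', α', β', h1', h2', rfl⟩ := mem_lift hf hq
    have e : (E f a b, E f α β) + (E f a' b', E f α' β')
        = (E f (a + a') (b + b'), E f (α + α') (β + β')) := by
      ext1 <;> ext q <;> simp <;> ring
    rw [e, mem_lift_E]
    exact ⟨h.add' h1 h1', h.add' h2 h2'⟩
  · -- const
    intro c
    rw [← E_const (f := f), ← E_zero (f := f), mem_lift_E]
    exact ⟨h.const c, h.zero⟩
  · -- mul
    intro u v u' v' hp hq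
    obtain ⟨a, b, α, β, h1, h2, e1⟩ := mem_lift hf hp
    obtain ⟨a', b', α', β', h1', h2', e2⟩ := mem_lift hf hq
    obtain ⟨rfl, rfl⟩ := Prod.ext_iff.mp e1
    obtain ⟨rfl, rfl⟩ := Prod.ext_iff.mp e2
    have g1 := h.mul _ _ _ _ h1 h1'
    have g2 := h.mul _ _ _ _ (h.mul _ _ _ _ h2 h2') hf0
    have g3 := h.add' g1 g2
    have g4 := h.add' (h.mul _ _ _ _ h1 h2') (h.mul _ _ _ _ h2 h1')
    have g5 := (mem_lift_E hf).mpr ⟨g3, g4⟩
    convert g5 using 2
    · ext q
      have := root_sq f q
      simp only [E_apply, ContinuousMap.mul_apply, ContinuousMap.add_apply]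
      rw [← this]
      ring
    · ext q
      have := root_sq f q
      simp only [E_apply, ContinuousMap.mul_apply, ContinuousMap.add_apply,
        ContinuousMap.zero_apply]
      rw [← this]
      ring
  · -- surj
    intro w
    obtain ⟨a, ha⟩ := h.surj (even f w)
    obtain ⟨b, hb⟩ := h.surj (odd hf w)
    refine ⟨E f a b, ?_⟩
    rw [← E_even_odd hf w, mem_lift_E]
    exact ⟨ha, hb⟩
  · -- inv
    intro u v hp hu
    obtain ⟨a, b, α, β, h1, h2, e1⟩ := mem_lift hf hp
    obtain ⟨rfl, rfl⟩ := Prod.ext_iff.mp e1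
    have g1 := h.mul _ _ _ _ h1 h1
    have g2 := h.mul _ _ _ _ (h.mul _ _ _ _ h2 h2) hf0
    have g3 := h.sub' g1 g2
    obtain ⟨N', hN, hN'⟩ := h.inv _ _ g3 (by
      intro x
      obtain ⟨q, rfl⟩ := proj_surjective f x
      have h3 := mul_ne_zero (hu q) (hu (flip f q))
      intro h4
      apply h3
      simp only [E_apply, proj_flip, root_flip]
      simp only [ContinuousMap.sub_apply, ContinuousMap.mul_apply] at h4
      rw [← root_sq] at h4
      linear_combination h4)
    have hNx : ∀ q : DC f, (a (proj f q) * a (proj f q)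
        - b (proj f q) * b (proj f q) * root f q ^ 2) * N' (proj f q) = 1 := by
      intro q
      have := congrArg (fun w : C(X, ℂ) => w (proj f q)) hN
      simp only [ContinuousMap.sub_apply, ContinuousMap.mul_apply, ContinuousMap.one_apply] at this
      rw [root_sq]
      exact this
    have g4 := h.mul _ _ _ _ h1 hN'
    have g5 := h.neg (h.mul _ _ _ _ h2 hN')
    have g6 := (mem_lift_E hf).mpr ⟨g4, g5⟩
    refine ⟨E f (a * N') (-(b * N')), ?_, ?_⟩
    · ext q
      have h3 := hNx q
      simp only [E_apply, ContinuousMap.mul_apply, ContinuousMap.neg_apply,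
        ContinuousMap.one_apply]
      linear_combination h3
    · convert g6 using 2
      ext q
      have h3 := hNx q
      have h5 := root_sq f q
      simp only [E_apply, ContinuousMap.mul_apply, ContinuousMap.neg_apply,
        ContinuousMap.add_apply, ContinuousMap.sub_apply, ContinuousMap.zero_apply]
      rw [← h5]
      generalize a (proj f q) = A at *
      generalize b (proj f q) = B at *
      generalize α (proj f q) = A' at *
      generalize β (proj f q) = B' at *
      generalize N' (proj f q) = n at *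
      generalize root f q = y at *
      linear_combination (n * (A' - B' * y)) * h3
  · -- dense
    intro g ε hε
    rw [← E_even_odd hf g]
    have hM : (0 : ℝ) ≤ ‖root f‖ := norm_nonneg _
    obtain ⟨u₁, v₁, h1, h1'⟩ := h.dense (even f g) (ε / 2) (by positivity)
    obtain ⟨u₂, v₂, h2, h2'⟩ := h.dense (odd hf g) (ε / (2 * (‖root f‖ + 1))) (by positivity)
    refine ⟨E f u₁ u₂, E f v₁ v₂, (mem_lift_E hf).mpr ⟨h1, h2⟩, ?_⟩
    rw [ContinuousMap.norm_lt_iff _ hε]
    intro q
    have e : (E f u₁ u₂ - E f (even f g) (odd hf g)) q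
        = (u₁ - even f g) (proj f q) + (u₂ - odd hf g) (proj f q) * root f q := by
      simp; ring
    rw [e]
    have k1 := ContinuousMap.norm_coe_le_norm (u₁ - even f g) (proj f q)
    have k2 := ContinuousMap.norm_coe_le_norm (u₂ - odd hf g) (proj f q)
    have k3 := ContinuousMap.norm_coe_le_norm (root f) q
    calc ‖(u₁ - even f g) (proj f q) + (u₂ - odd hf g) (proj f q) * root f q‖
        ≤ ‖(u₁ - even f g) (proj f q)‖ + ‖(u₂ - odd hf g) (proj f q)‖ * ‖root f q‖ := by
          refine (norm_add_le _ _).trans ?_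
          rw [norm_mul]
      _ ≤ ‖u₁ - even f g‖ + (ε / (2 * (‖root f‖ + 1))) * ‖root f‖ := by
          refine add_le_add k1 ?_
          exact mul_le_mul (k2.trans h2'.le) k3 (norm_nonneg _) (by positivity)
      _ < ε / 2 + ε / 2 := by
          refine add_lt_add_of_lt_of_le h1' ?_
          rw [div_mul_eq_mul_div, div_le_iff₀ (by positivity)]
          nlinarith
      _ = ε := by ring
  · -- invdense
    exact dense_inv h.invdense hf
  · -- sep
    intro q q' hqq
    by_cases hp : proj f q = proj f q'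
    · have hr : root f q ≠ root f q' := fun hr => hqq (ext' f hp hr)
      refine ⟨E f 0 1, ?_, by simpa using hr⟩
      rw [← E_zero (f := f), mem_lift_E]
      exact ⟨h.zero, h.one⟩
    · obtain ⟨u, hu, hne⟩ := h.sep _ _ hp
      refine ⟨E f u 0, ?_, by simpa using hne⟩
      rw [← E_zero (f := f), mem_lift_E]
      exact ⟨hu, h.zero⟩

/-- the root is a holomorphic element -/
lemma root_mem {Γ : Set (C(X, ℂ) × C(X, ℂ))} (h : Good Γ) (hf : ∀ x, f x ≠ 0) :
    (root f, (0 : C(DC f, ℂ))) ∈ lift hf Γ := by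
  have e : root f = E f 0 1 := by ext q; simp
  rw [e, ← E_zero (f := f), mem_lift_E]
  exact ⟨h.zero, h.one⟩

lemma comp_proj_mem {Γ : Set (C(X, ℂ) × C(X, ℂ))} (h : Good Γ) (hf : ∀ x, f x ≠ 0)
    {u v : C(X, ℂ)} (huv : (u, v) ∈ Γ) : (u.comp (proj f), v.comp (proj f)) ∈ lift hf Γ := by
  have e : ∀ w : C(X, ℂ), w.comp (proj f) = E f w 0 := by intro w; ext q; simp
  rw [e, e, mem_lift_E]
  exact ⟨huv, h.zero⟩

/-- the distance to the holomorphic elements does not decrease on passing to the cover -/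
lemma dist_lift {Γ : Set (C(X, ℂ) × C(X, ℂ))} (hf : ∀ x, f x ≠ 0) {q : C(X, ℂ)} {ρ : ℝ}
    (hq : ∀ u, (u, (0 : C(X, ℂ))) ∈ Γ → ρ ≤ ‖u - q‖) :
    ∀ u, (u, (0 : C(DC f, ℂ))) ∈ lift hf Γ → ρ ≤ ‖u - q.comp (proj f)‖ := by
  intro u hu
  have h1 : (even f u, (0 : C(X, ℂ))) ∈ Γ := by
    have := hu.1
    have e : even f (0 : C(DC f, ℂ)) = 0 := by
      rw [← E_zero (f := f), even_E]
    simpa [e] using this
  refine (hq _ h1).trans ?_
  rw [ContinuousMap.norm_le _ (norm_nonneg _)]
  intro x
  obtain ⟨p, rfl⟩ := proj_surjective f x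
  rw [ContinuousMap.sub_apply, even_spec]
  have k1 := ContinuousMap.norm_coe_le_norm (u - q.comp (proj f)) p
  have k2 := ContinuousMap.norm_coe_le_norm (u - q.comp (proj f)) (flip f p)
  have e : (1 / 2 : ℂ) * (u p + u (flip f p)) - q (proj f p)
      = (1 / 2 : ℂ) * ((u - q.comp (proj f)) p + (u - q.comp (proj f)) (flip f p)) := by
    simp only [ContinuousMap.sub_apply, ContinuousMap.comp_apply, proj_flip]
    ring
  rw [e, norm_mul]
  have h4 : ‖(1 / 2 : ℂ)‖ = 1 / 2 := by norm_num
  rw [h4]
  have := norm_add_le ((u - q.comp (proj f)) p) ((u - q.comp (proj f)) (flip f p))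
  linarith

end DC

end Pool.Agent.H51.Carpet
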