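import Pool.Agent.H51.Carpet.Natural
import Pool.Agent.H51.Carpet.Step

set_option autoImplicit false
set_option linter.unusedSectionVars false

open Set Topology TopologicalSpace

namespace Pool.Agent.H51.Carpet

/-- dense sequence of invertible holomorphic elements -/
lemma exists_dense_units {X : Type} [TopologicalSpace X] [CompactSpace X] [T2Space X]
    [SecondCountableTopology X] {Γ : Set (C(X, ℂ) × C(X, ℂ))} (h : Good Γ) :
    ∃ d : ℕ → C(X, ℂ), (∀ j, (d j, (0 : C(X, ℂ))) ∈ Γ ∧ ∀ x, d j x ≠ 0) ∧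
      ∀ f : C(X, ℂ), (f, (0 : C(X, ℂ))) ∈ Γ → (∀ x, f x ≠ 0) → ∀ ε > (0 : ℝ), ∃ j, ‖d j - f‖ < ε := by
  let U : Set C(X, ℂ) := {f | (f, (0 : C(X, ℂ))) ∈ Γ ∧ ∀ x, f x ≠ 0}
  have : Nonempty U := ⟨⟨1, h.one, fun x => by simp⟩⟩
  refine ⟨fun j => (denseSeq U j : C(X, ℂ)), fun j => (denseSeq U j).2, ?_⟩
  intro f hf hf0 ε hε
  have hd := denseRange_denseSeq U
  obtain ⟨j, hj⟩ := hd.exists_dist_lt ⟨f, hf, hf0⟩ hε
  refine ⟨j, ?_⟩
  rw [dist_comm] at hj
  rw [← dist_eq_norm]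
  exact hj

/-- A stage of the construction -/
structure Stage (ρ : ℝ) where
  X : Type
  [top : TopologicalSpace X]
  [comp : CompactSpace X]
  [t2 : T2Space X]
  [sc : SecondCountableTopology X]
  Γ : Set (C(X, ℂ) × C(X, ℂ))
  good : Good Γ
  q : C(X, ℂ)
  hq : ∀ u, (u, (0 : C(X, ℂ))) ∈ Γ → ρ ≤ ‖u - q‖
  pend : ℕ → ℕ → C(X, ℂ)
  hpend : ∀ i j, (pend i j, (0 : C(X, ℂ))) ∈ Γ ∧ ∀ x, pend i j x ≠ 0

attribute [instance] Stage.top Stage.comp Stage.t2 Stage.sc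

namespace Stage

variable {ρ : ℝ}

/-- the function whose root is adjoined at time `n` -/
def fn (n : ℕ) (S : Stage ρ) : C(S.X, ℂ) := S.pend (Nat.unpair n).1 (Nat.unpair n).2

lemma fn_ne (n : ℕ) (S : Stage ρ) (x : S.X) : S.fn n x ≠ 0 := (S.hpend _ _).2 x

lemma fn_mem (n : ℕ) (S : Stage ρ) : (S.fn n, (0 : C(S.X, ℂ))) ∈ S.Γ := (S.hpend _ _).1

/-- the chosen dense sequence -/
noncomputable def d (S : Stage ρ) : ℕ → C(S.X, ℂ) := (exists_dense_units S.good).choose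

lemma d_spec (S : Stage ρ) (j : ℕ) : (S.d j, (0 : C(S.X, ℂ))) ∈ S.Γ ∧ ∀ x, S.d j x ≠ 0 :=
  (exists_dense_units S.good).choose_spec.1 j

lemma d_dense (S : Stage ρ) (f : C(S.X, ℂ)) (hf : (f, (0 : C(S.X, ℂ))) ∈ S.Γ)
    (hf0 : ∀ x, f x ≠ 0) {ε : ℝ} (hε : 0 < ε) : ∃ j, ‖S.d j - f‖ < ε :=
  (exists_dense_units S.good).choose_spec.2 f hf hf0 ε hε

open Classical in
/-- one step of the construction; `refresh` replaces the row `n+1` of pending functions -/
noncomputable def step (n : ℕ) (S : Stage ρ) : Stage ρ where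
  X := DC (S.fn n)
  Γ := DC.lift (S.fn_ne n) S.Γ
  good := DC.good_lift S.good (S.fn_ne n) (S.fn_mem n)
  q := S.q.comp (DC.proj (S.fn n))
  hq := DC.dist_lift (S.fn_ne n) S.hq
  pend := fun i j => if i = n + 1 then
      (exists_dense_units (DC.good_lift S.good (S.fn_ne n) (S.fn_mem n))).choose j
    else (S.pend i j).comp (DC.proj (S.fn n))
  hpend := by
    intro i j
    by_cases h : i = n + 1
    · simp only [h, if_true]
      exact (exists_dense_units (DC.good_lift S.good (S.fn_ne n) (S.fn_mem n))).choose_spec.1 j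
    · simp only [h, if_false]
      refine ⟨?_, fun x => (S.hpend i j).2 _⟩
      have := DC.comp_proj_mem S.good (S.fn_ne n) (S.hpend i j).1
      simpa using this

/-- the connecting map -/
def π (n : ℕ) (S : Stage ρ) : C((S.step n).X, S.X) := DC.proj (S.fn n)

/-- the adjoined root -/
def r (n : ℕ) (S : Stage ρ) : C((S.step n).X, ℂ) := DC.root (S.fn n)

lemma r_sq (n : ℕ) (S : Stage ρ) (x : (S.step n).X) : S.r n x ^ 2 = S.fn n (S.π n x) :=
  DC.root_sq _ _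

lemma π_surjective (n : ℕ) (S : Stage ρ) : Function.Surjective (S.π n) := DC.proj_surjective _

lemma step_q (n : ℕ) (S : Stage ρ) : (S.step n).q = S.q.comp (S.π n) := rfl

lemma step_pend_self (n : ℕ) (S : Stage ρ) (j : ℕ) : (S.step n).pend (n + 1) j = (S.step n).d j := by
  simp [step, d]
  rfl

lemma step_pend (n : ℕ) (S : Stage ρ) (i j : ℕ) (h : i ≤ n) :
    (S.step n).pend i j = (S.pend i j).comp (S.π n) := by
  have : i ≠ n + 1 := by omega
  simp [step, this, π]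
  rfl

lemma comp_mem (n : ℕ) (S : Stage ρ) {u v : C(S.X, ℂ)} (huv : (u, v) ∈ S.Γ) :
    (u.comp (S.π n), v.comp (S.π n)) ∈ (S.step n).Γ :=
  DC.comp_proj_mem S.good (S.fn_ne n) huv

lemma comp_mem0 (n : ℕ) (S : Stage ρ) {u : C(S.X, ℂ)} (hu : (u, (0 : C(S.X, ℂ))) ∈ S.Γ) :
    (u.comp (S.π n), (0 : C((S.step n).X, ℂ))) ∈ (S.step n).Γ := by
  have h := S.comp_mem n hu
  have e : (0 : C(S.X, ℂ)).comp (S.π n) = 0 := by ext x; rfl
  rw [e] at h
  exact h

end Stage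

end Pool.Agent.H51.Carpet
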